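import Mathlib
import Pool.Agent.Helper160.MF.Defs2
import Pool.Agent.Helper160.MF.Jbasic
import Pool.Agent.Helper160.MF.Jvol
import Pool.Agent.Helper160.MF.Jga
import Pool.Agent.Helper160.MF.Jfar
import Pool.Agent.Helper160.MF.Jfub
import Pool.Agent.Helper160.MF.JL1int
import Pool.Agent.Helper160.MF.JL2cs
import Pool.Agent.Helper160.MF.JRN
import Pool.Agent.Helper392.MF.Fill
import Pool.Agent.Helper392.MF.Meas
import Pool.Agent.Helper392.MF.Vitali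
import Pool.Agent.Helper567.MF.TrG
import Pool.Agent.Helper567.MF.Scaled

/-! Base facts for the `O(log n)` bound, re-exported from the modules of MP_6b2635_an
(by helper160, helper392 and helper567). -/

set_option autoImplicit false
open MeasureTheory Set Metric
open scoped ENNReal

namespace FM954

export Pool.Agent.Helper160.MF (Eu ga qd shell bs Pk tr Dat qd_pos qd_pow qd_ge qd_lt_one
  measurableSet_shell volume_shell lintegral_bs vol_ball_lower ga_pos continuous_ga lintegral_ga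
  integral_ga_cexp open_square cs_avg far_bound far_mass markov_sq measurable_bs measurable_tr)

export Pool.Agent.Helper392.MF (filling weak_vitali)

export Pool.Agent.Helper567.MF (tr_mass_g tr_start_g tr_ck_g lintegral_eq_scale bs_scale Pk_scale)

theorem lintegral_ga2 (d : ℕ) (t : ℝ) (ht : 0 < t) (x : Eu d) :
    ∫⁻ z, ENNReal.ofReal (ga d t (x - z)) = 1 := by
  rw [← lintegral_ga d t ht x]
  refine lintegral_congr fun z => ?_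
  unfold ga
  rw [norm_sub_rev]

theorem lint_ga_exp (d : ℕ) (t : ℝ) (ht : 0 < t) (b : ℝ) (v : Eu d) :
    ∫⁻ w : Eu d, ENNReal.ofReal (ga d t w * Real.exp (b * inner ℝ w v)) =
      ENNReal.ofReal (Real.exp (b ^ 2 * t * ‖v‖ ^ 2 / 2)) :=
  Pool.Agent.Helper160.MF.JL1int.lint_ga_exp d t ht b v

theorem ga_damp (d : ℕ) (t : ℝ) (ht : 0 < t) (θ : ℝ) (hθ : 0 ≤ θ) (w : Eu d) :
    ga d t w * Real.exp (-θ * ‖w‖ ^ 2) =
      (1 + 2 * θ * t) ^ (-(d : ℝ) / 2) * ga d (t / (1 + 2 * θ * t)) w :=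
  Pool.Agent.Helper160.MF.JL1int.ga_damp d t ht θ hθ w

theorem rnP (d : ℕ) (ε : ℝ) (hε : 0 < ε) (lam : ENNReal) (hl : lam ≠ ⊤) (P : Eu d → Eu d → ENNReal)
    (hP : Measurable (fun q : Eu d × Eu d => P q.1 q.2))
    (hs : ∀ y z, P y z ≠ 0 → ‖z - y‖ ≤ ε) (hf : ∀ y z, P y z ≠ ⊤)
    (hm : ∀ z, ∫⁻ y, P y z ≤ lam) (hfin : ∫⁻ y, ∫⁻ z, P y z ≠ ⊤) :
    ∃ (μ : Measure (Eu d × Eu d)) (Y Z : Eu d × Eu d → Eu d), Dat d ε lam μ Y Z ∧
      μ univ = ∫⁻ y, ∫⁻ z, P y z ∧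
      (∀ F : Eu d → Eu d → ENNReal, Measurable (fun q : Eu d × Eu d => F q.1 q.2) →
        ∫⁻ q, F (Y q) (Z q) ∂μ = ∫⁻ y, ∫⁻ z, P y z * F y z) := by
  obtain ⟨μ, Y, Z, h1, _, h3, h4⟩ := Pool.Agent.Helper160.MF.rn_P d ε hε lam hl P hP hs hf hm hfin
  exact ⟨μ, Y, Z, h1, h3, h4⟩

/-- a smooth cutoff function -/
structure Bmp (φ : ℝ → ℝ) : Prop where
  smooth : ContDiff ℝ 4 φ
  nonneg : ∀ r, 0 ≤ φ r
  big : ∀ r, 1 / 64 ≤ r → r ≤ 64 → 64 ≤ φ r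
  supp : ∀ r, r < 1 / 128 ∨ 128 < r → φ r = 0

/-- lag class of scale `h` -/
def cls (d : ℕ) (h l : ℝ) : Prop := 0 < l ∧ l ≤ h ∧ (h / 8 ≤ l ∨ h ≤ 100 / d)

/-- Gaussian majorant of the shell indicator -/
noncomputable def Hd (d : ℕ) (R u : ℝ) : ℝ := d * Real.exp (-((d : ℝ) ^ 2 * (u - R ^ 2) ^ 2 / 2))

open Classical in
/-- weight of the atypical part: `X2` is `‖x - z‖ ^ 2`, `t` is `‖x - y‖ ^ 2 - ‖z - y‖ ^ 2` -/
noncomputable def Aw (d : ℕ) (h s X2 t : ℝ) : ENNReal :=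
  if (s < h / 64 ∨ 64 * h < s) ∧ X2 ≤ 2 * s ∧ s ≤ 2 * X2 ∧ 0 < t ∧ t ≤ h ∧
    (h / 16 ≤ t ∨ h ≤ 100 / d) then ENNReal.ofReal (d * t) else 0

/-- the cut time integral of the Gaussian -/
noncomputable def Nf (φ : ℝ → ℝ) (d : ℕ) (h : ℝ) (a : Eu d) : ℝ :=
  ∫ s in Ioi (0 : ℝ), φ (s / h) * ga d (s / d) a

noncomputable def Gf (φ : ℝ → ℝ) (d : ℕ) (h τ : ℝ) (x y z : Eu d) : ℂ :=
  (Nf φ d h (x - z) : ℂ) * Complex.exp (Complex.I * ((τ * ‖x - y‖ ^ 2 : ℝ) : ℂ))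

noncomputable def Psi (φ : ℝ → ℝ) (d : ℕ) (h : ℝ) {Q : Type} [MeasurableSpace Q] (μ : Measure Q)
    (Y Z : Q → Eu d) (τ : ℝ) (x : Eu d) : ℂ :=
  ∫ q, Gf φ d h τ x (Y q) (Z q) ∂μ

/-- the phase speed -/
noncomputable def kp {d : ℕ} (S : ℝ) (y z y' z' : Eu d) : ℝ :=
  (‖z' - z‖ ^ 2 + inner ℝ (z' - z) ((z - y) - (z' - y'))) / S


end FM954
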