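import Mathlib
import Pool.Agent.Helper954.FM.Base

set_option autoImplicit false
open MeasureTheory Set Metric
open scoped ENNReal

namespace FM954

theorem bmp_ex : ∃ φ : ℝ → ℝ, Bmp φ := by
  refine ⟨fun r => 64 * Real.smoothTransition (128 * r - 1) *
    Real.smoothTransition ((128 - r) / 64), ?_, ?_, ?_, ?_⟩
  · refine (contDiff_const.mul (Real.smoothTransition.contDiff.comp ?_)).mul
      (Real.smoothTransition.contDiff.comp ?_)
    · exact (contDiff_const.mul contDiff_id).sub contDiff_const
    · exact (contDiff_const.sub contDiff_id).div_const _
  · intro r
    have h1 := Real.smoothTransition.nonneg (128 * r - 1)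
    have h2 := Real.smoothTransition.nonneg ((128 - r) / 64)
    positivity
  · intro r h1 h2
    try simp only
    rw [Real.smoothTransition.one_of_one_le (by linarith),
      Real.smoothTransition.one_of_one_le (by rw [le_div_iff₀ (by norm_num)]; linarith)]
    norm_num
  · intro r h
    try simp only
    rcases h with h | h
    · rw [Real.smoothTransition.zero_of_nonpos (by linarith)]
      simp
    · rw [Real.smoothTransition.zero_of_nonpos (x := (128 - r) / 64)
        (div_nonpos_of_nonpos_of_nonneg (by linarith) (by norm_num))]
      simp

end FM954
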