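import Mathlib
import Pool.Agent.Helper954.FM.Base

set_option autoImplicit false
open MeasureTheory Set Metric
open scoped ENNReal

namespace FM954

theorem os_mul {f g : ℝ → ℝ} (hf : ContDiff ℝ 4 f) (hg : ContDiff ℝ 4 g) (x a b : ℝ)
    (ha0 : 0 ≤ a) (ha : ∀ i : ℕ, i ≤ 4 → ‖iteratedFDeriv ℝ i f x‖ ≤ a)
    (hb : ∀ i : ℕ, i ≤ 4 → ‖iteratedFDeriv ℝ i g x‖ ≤ b) :
    ∀ n : ℕ, n ≤ 4 → ‖iteratedFDeriv ℝ n (fun y => f y * g y) x‖ ≤ 16 * (a * b) := by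
  intro n hn
  have hb0 : 0 ≤ b := (norm_nonneg _).trans (hb 0 (by norm_num))
  have hn' : ((n : ℕ) : WithTop ℕ∞) ≤ 4 := by exact_mod_cast hn
  refine (norm_iteratedFDeriv_mul_le hf hg x hn').trans ?_
  have h1 : ∀ i ∈ Finset.range (n + 1), (n.choose i : ℝ) * ‖iteratedFDeriv ℝ i f x‖ *
      ‖iteratedFDeriv ℝ (n - i) g x‖ ≤ (n.choose i : ℝ) * (a * b) := by
    intro i hi
    have hi' := Finset.mem_range.1 hi
    rw [mul_assoc]
    apply mul_le_mul_of_nonneg_left _ (Nat.cast_nonneg _)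
    exact mul_le_mul (ha i (by omega)) (hb (n - i) (by omega)) (norm_nonneg _) ha0
  refine (Finset.sum_le_sum h1).trans ?_
  rw [← Finset.sum_mul]
  apply mul_le_mul_of_nonneg_right _ (mul_nonneg ha0 hb0)
  have h2 : ∑ i ∈ Finset.range (n + 1), (n.choose i : ℝ) = 2 ^ n := by
    have := Nat.sum_range_choose n
    exact_mod_cast this
  rw [h2]
  calc (2 : ℝ) ^ n ≤ 2 ^ 4 := pow_le_pow_right₀ (by norm_num) hn
    _ = 16 := by norm_num

theorem os_quad (α β γ D δ : ℝ) (hD : 0 ≤ D) (h1 : |β + 2 * γ * δ| ≤ D) (h2 : |2 * γ| ≤ D ^ 2) :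
    ∀ i : ℕ, 1 ≤ i → ‖iteratedFDeriv ℝ i (fun δ : ℝ => α + β * δ + γ * δ ^ 2) δ‖ ≤ D ^ i := by
  intro i hi
  rw [norm_iteratedFDeriv_eq_norm_iteratedDeriv]
  have d1 : deriv (fun δ : ℝ => α + β * δ + γ * δ ^ 2) = fun δ => β + 2 * γ * δ := by
    funext x
    have h := (((hasDerivAt_const x α).add ((hasDerivAt_id x).const_mul β)).add
      (((hasDerivAt_id x).pow 2).const_mul γ)).deriv
    simp only [id] at h
    refine Eq.trans ?_ (h.trans ?_)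
    · rfl
    · simp
      ring
  have d2 : deriv (fun δ : ℝ => β + 2 * γ * δ) = fun _ => 2 * γ := by
    funext x
    have h := ((hasDerivAt_const x β).add ((hasDerivAt_id x).const_mul (2 * γ))).deriv
    refine Eq.trans ?_ (h.trans ?_)
    · rfl
    · simp
  obtain ⟨j, rfl⟩ : ∃ j, i = j + 1 := ⟨i - 1, by omega⟩
  rw [iteratedDeriv_succ', d1]
  cases j with
  | zero =>
    rw [iteratedDeriv_zero, Real.norm_eq_abs, zero_add, pow_one]
    exact h1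
  | succ k =>
    rw [iteratedDeriv_succ', d2, iteratedDeriv_const]
    split_ifs with hk
    · subst hk
      rw [Real.norm_eq_abs]
      exact h2
    · rw [norm_zero]
      positivity

theorem os_exp_deriv (q : ℝ) (i : ℕ) :
    iteratedDeriv i (fun r : ℝ => Real.exp (-(q * r))) =
      fun r => (-q) ^ i * Real.exp (-(q * r)) := by
  induction i with
  | zero =>
    rw [iteratedDeriv_zero]
    funext r
    rw [pow_zero, one_mul]
  | succ i ih =>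
    rw [iteratedDeriv_succ, ih]
    funext r
    have h1 : HasDerivAt (fun r : ℝ => -(q * r)) (-(q * 1)) r :=
      ((hasDerivAt_id r).const_mul q).neg
    have h := (h1.exp.const_mul ((-q) ^ i)).deriv
    rw [h]
    ring

theorem os_exp_bound (q r : ℝ) (hq : 0 ≤ q) (hr : 1 / 4096 ≤ r) (i : ℕ) (hi : i ≤ 4) :
    ‖iteratedFDeriv ℝ i (fun r : ℝ => Real.exp (-(q * r))) r‖ ≤ 24 * 4096 ^ 4 := by
  rw [norm_iteratedFDeriv_eq_norm_iteratedDeriv, os_exp_deriv, norm_mul, norm_pow, norm_neg,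
    Real.norm_eq_abs, Real.norm_eq_abs, abs_of_nonneg hq, Real.abs_exp]
  have h1 : Real.exp (-(q * r)) ≤ Real.exp (-(q / 4096)) := by
    apply Real.exp_le_exp.2
    have : q * (1 / 4096) ≤ q * r := mul_le_mul_of_nonneg_left hr hq
    linarith
  have h2 : (q / 4096) ^ i / (i.factorial : ℝ) ≤ Real.exp (q / 4096) :=
    Real.pow_div_factorial_le_exp (q / 4096) (by positivity) i
  have h3 : q ^ i ≤ (i.factorial : ℝ) * 4096 ^ i * Real.exp (q / 4096) := by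
    rw [div_pow, div_div, div_le_iff₀ (by positivity)] at h2
    linarith
  have h4 : q ^ i * Real.exp (-(q * r)) ≤ (i.factorial : ℝ) * 4096 ^ i := by
    calc q ^ i * Real.exp (-(q * r)) ≤ q ^ i * Real.exp (-(q / 4096)) :=
          mul_le_mul_of_nonneg_left h1 (by positivity)
      _ ≤ (i.factorial : ℝ) * 4096 ^ i * Real.exp (q / 4096) * Real.exp (-(q / 4096)) :=
          mul_le_mul_of_nonneg_right h3 (Real.exp_pos _).le
      _ = (i.factorial : ℝ) * 4096 ^ i := by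
          rw [mul_assoc, ← Real.exp_add, add_neg_cancel, Real.exp_zero, mul_one]
  refine h4.trans ?_
  have h5 : (i.factorial : ℝ) ≤ 24 := by
    have : i.factorial ≤ Nat.factorial 4 := Nat.factorial_le hi
    have h6 : Nat.factorial 4 = 24 := rfl
    rw [h6] at this
    exact_mod_cast this
  have h6 : (4096 : ℝ) ^ i ≤ 4096 ^ 4 := pow_le_pow_right₀ (by norm_num) hi
  exact mul_le_mul h5 h6 (by positivity) (by norm_num)

theorem os_fact (n : ℕ) (hn : n ≤ 4) : (n.factorial : ℝ) ≤ 24 := by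
  have : n.factorial ≤ Nat.factorial 4 := Nat.factorial_le hn
  have h6 : Nat.factorial 4 = 24 := rfl
  rw [h6] at this
  exact_mod_cast this

/-- derivatives of the cutoffs -/
theorem os_phi (φ : ℝ → ℝ) (hφ : Bmp φ) (Cφ : ℝ)
    (hC : ∀ i : ℕ, i ≤ 4 → ∀ r, ‖iteratedFDeriv ℝ i φ r‖ ≤ Cφ) (α β δ : ℝ) (hβ : |β| ≤ 1) :
    ∀ i : ℕ, i ≤ 4 → ‖iteratedFDeriv ℝ i (fun δ : ℝ => φ (α + β * δ + 0 * δ ^ 2)) δ‖ ≤ 24 * Cφ := by
  intro i hi
  have hi' : ((i : ℕ) : WithTop ℕ∞) ≤ 4 := by exact_mod_cast hi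
  have hC0 : 0 ≤ Cφ := (norm_nonneg _).trans (hC 0 (by norm_num) 0)
  have h := norm_iteratedFDeriv_comp_le (g := φ) (f := fun δ : ℝ => α + β * δ + 0 * δ ^ 2)
    (n := i) (N := 4) hφ.smooth (by fun_prop) hi' δ (C := Cφ) (D := 1)
    (fun j hj => hC j (hj.trans hi) _)
    (fun j hj _ => os_quad α β 0 1 δ zero_le_one (by simpa using hβ) (by norm_num) j hj)
  rw [one_pow, mul_one] at h
  exact h.trans (mul_le_mul_of_nonneg_right (os_fact i hi) hC0)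

theorem os_E (S q δ : ℝ) (hq : 0 ≤ q) (hδ : |δ| ≤ 128) (hr : 1 / 4096 ≤ S ^ 2 - δ ^ 2) :
    ∀ i : ℕ, i ≤ 4 → ‖iteratedFDeriv ℝ i
      (fun δ : ℝ => Real.exp (-(q * (S ^ 2 + 0 * δ + (-1) * δ ^ 2)))) δ‖ ≤
      24 * (24 * 4096 ^ 4) * 256 ^ 4 := by
  intro i hi
  have hi' : ((i : ℕ) : WithTop ℕ∞) ≤ 4 := by exact_mod_cast hi
  have h := norm_iteratedFDeriv_comp_le (g := fun r : ℝ => Real.exp (-(q * r)))
    (f := fun δ : ℝ => S ^ 2 + 0 * δ + (-1) * δ ^ 2)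
    (n := i) (N := 4) (by fun_prop) (by fun_prop) hi' δ (C := 24 * 4096 ^ 4) (D := 256)
    (fun j hj => os_exp_bound q _ hq (by
      have : S ^ 2 + 0 * δ + (-1) * δ ^ 2 = S ^ 2 - δ ^ 2 := by ring
      rw [this]
      exact hr) j (hj.trans hi))
    (fun j hj _ => os_quad (S ^ 2) 0 (-1) 256 δ (by norm_num) (by
      have : (0 : ℝ) + 2 * (-1) * δ = -(2 * δ) := by ring
      rw [this, abs_neg, abs_mul, abs_two]
      linarith) (by norm_num) j hj)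
  refine h.trans ?_
  have h6 : (256 : ℝ) ^ i ≤ 256 ^ 4 := pow_le_pow_right₀ (by norm_num) hi
  exact mul_le_mul (mul_le_mul_of_nonneg_right (os_fact i hi) (by norm_num)) h6
    (by positivity) (by norm_num)

/-- the integrand -/
noncomputable def os_F (φ : ℝ → ℝ) (S q δ : ℝ) : ℝ :=
  φ ((S + δ) / 2) * φ ((S - δ) / 2) * Real.exp (-(q * (S ^ 2 - δ ^ 2)))

theorem os_F_eq (φ : ℝ → ℝ) (S q : ℝ) : os_F φ S q = fun δ =>
    (φ (S / 2 + (1 / 2) * δ + 0 * δ ^ 2) * φ (S / 2 + (-1 / 2) * δ + 0 * δ ^ 2)) *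
      Real.exp (-(q * (S ^ 2 + 0 * δ + (-1) * δ ^ 2))) := by
  funext δ
  unfold os_F
  have e1 : (S + δ) / 2 = S / 2 + (1 / 2) * δ + 0 * δ ^ 2 := by ring
  have e2 : (S - δ) / 2 = S / 2 + (-1 / 2) * δ + 0 * δ ^ 2 := by ring
  have e3 : S ^ 2 - δ ^ 2 = S ^ 2 + 0 * δ + (-1) * δ ^ 2 := by ring
  rw [e1, e2, e3]

/-- the region -/
def os_R (S : ℝ) : Set ℝ :=
  (fun δ : ℝ => (S + δ) / 2) ⁻¹' Icc (1 / 128) 128 ∩ (fun δ : ℝ => (S - δ) / 2) ⁻¹' Icc (1 / 128) 128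

theorem os_R_closed (S : ℝ) : IsClosed (os_R S) := by
  apply IsClosed.inter
  · exact isClosed_Icc.preimage (by fun_prop)
  · exact isClosed_Icc.preimage (by fun_prop)

theorem os_F_zero (φ : ℝ → ℝ) (hφ : Bmp φ) (S q δ : ℝ) (h : δ ∉ os_R S) : os_F φ S q δ = 0 := by
  unfold os_F
  have h1 : ∀ r, r ∉ Icc (1 / 128 : ℝ) 128 → φ r = 0 := by
    intro r hr
    apply hφ.supp
    rw [Set.mem_Icc, not_and_or, not_le, not_le] at hr
    exact hr
  by_cases h2 : (S + δ) / 2 ∈ Icc (1 / 128 : ℝ) 128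
  · have h3 : (S - δ) / 2 ∉ Icc (1 / 128 : ℝ) 128 := fun h3 => h ⟨h2, h3⟩
    rw [h1 _ h3, mul_zero, zero_mul]
  · rw [h1 _ h2, zero_mul, zero_mul]

theorem os_F_contDiff (φ : ℝ → ℝ) (hφ : Bmp φ) (S q : ℝ) : ContDiff ℝ 4 (os_F φ S q) := by
  rw [os_F_eq]
  have h1 : ∀ α β : ℝ, ContDiff ℝ 4 (fun δ : ℝ => φ (α + β * δ + 0 * δ ^ 2)) :=
    fun α β => hφ.smooth.comp (by fun_prop)
  exact ((h1 _ _).mul (h1 _ _)).mul (by fun_prop)

theorem os_F_off (φ : ℝ → ℝ) (hφ : Bmp φ) (S q δ : ℝ) (h : δ ∉ os_R S) (n : ℕ) :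
    iteratedFDeriv ℝ n (os_F φ S q) δ = 0 := by
  by_contra hne
  have h1 : δ ∈ tsupport (os_F φ S q) := support_iteratedFDeriv_subset n hne
  have h2 : tsupport (os_F φ S q) ⊆ os_R S := by
    apply closure_minimal _ (os_R_closed S)
    intro x hx
    by_contra hxR
    exact hx (os_F_zero φ hφ S q x hxR)
  exact h (h2 h1)

theorem os_F_bound (φ : ℝ → ℝ) (hφ : Bmp φ) (Cφ : ℝ)
    (hC : ∀ i : ℕ, i ≤ 4 → ∀ r, ‖iteratedFDeriv ℝ i φ r‖ ≤ Cφ) (S q : ℝ) (hq : 0 ≤ q) :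
    ∀ n : ℕ, n ≤ 4 → ∀ δ, ‖iteratedFDeriv ℝ n (os_F φ S q) δ‖ ≤
      16 * ((16 * ((24 * Cφ) * (24 * Cφ))) * (24 * (24 * 4096 ^ 4) * 256 ^ 4)) := by
  intro n hn δ
  have hC0 : 0 ≤ Cφ := (norm_nonneg _).trans (hC 0 (by norm_num) 0)
  by_cases hδ : δ ∈ os_R S
  · obtain ⟨⟨h1, h2⟩, h3, h4⟩ := hδ
    simp only at h1 h2 h3 h4
    have h5 : |δ| ≤ 128 := by
      rw [abs_le]
      constructor <;> linarith
    have h6 : 1 / 4096 ≤ S ^ 2 - δ ^ 2 := by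
      have h7 : (1 / 128 : ℝ) * (1 / 128) ≤ ((S + δ) / 2) * ((S - δ) / 2) :=
        mul_le_mul h1 h3 (by norm_num) (by linarith)
      nlinarith
    rw [os_F_eq]
    have hcd : ∀ α β : ℝ, ContDiff ℝ 4 (fun δ : ℝ => φ (α + β * δ + 0 * δ ^ 2)) :=
      fun α β => hφ.smooth.comp (by fun_prop)
    refine os_mul ((hcd _ _).mul (hcd _ _)) (by fun_prop) δ _ _ (by positivity) ?_
      (os_E S q δ hq h5 h6) n hn
    exact os_mul (hcd _ _) (hcd _ _) δ _ _ (by positivity)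
      (os_phi φ hφ Cφ hC (S / 2) (1 / 2) δ (by rw [abs_of_pos] <;> norm_num))
      (os_phi φ hφ Cφ hC (S / 2) (-1 / 2) δ (by rw [abs_of_neg] <;> norm_num))
  · rw [os_F_off φ hφ S q δ hδ n, norm_zero]
    positivity

theorem os_R_sub (S δ : ℝ) (h : δ ∉ Icc (-128 : ℝ) 128) : δ ∉ os_R S := by
  rintro ⟨⟨h1, h2⟩, h3, h4⟩
  simp only at h1 h2 h3 h4
  exact h ⟨by linarith, by linarith⟩

theorem os_int (g : ℝ → ℂ) (C : ℝ) (h1 : ∀ x, ‖g x‖ ≤ C)
    (h0 : ∀ x, x ∉ Icc (-128 : ℝ) 128 → g x = 0) : ‖∫ x, g x‖ ≤ C * 256 := by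
  rw [← setIntegral_eq_integral_of_forall_compl_eq_zero h0]
  refine (norm_setIntegral_le_of_norm_le_const (C := C) ?_ (fun x _ => h1 x)).trans ?_
  · rw [Real.volume_Icc]
    exact ENNReal.ofReal_lt_top
  · rw [Measure.real, Real.volume_Icc, ENNReal.toReal_ofReal (by norm_num)]
    norm_num

open scoped FourierTransform in
theorem os_fourier (f : ℝ → ℂ) (hf : ContDiff ℝ 4 f) (C : ℝ)
    (hb : ∀ n : ℕ, n ≤ 4 → ∀ x, ‖iteratedDeriv n f x‖ ≤ C)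
    (h0 : ∀ n : ℕ, n ≤ 4 → ∀ x, x ∉ Icc (-128 : ℝ) 128 → iteratedDeriv n f x = 0) (ω : ℝ) :
    ‖∫ δ : ℝ, f δ * Complex.exp (Complex.I * ((ω * δ : ℝ) : ℂ))‖ ≤
      (4 * (C * 256)) / (1 + ω ^ 2) ^ 2 := by
  have hexp : ∀ y : ℝ, ‖Complex.exp (Complex.I * (y : ℂ))‖ = 1 := by
    intro y
    rw [mul_comm]
    exact Complex.norm_exp_ofReal_mul_I y
  have hI0 : ‖∫ δ : ℝ, f δ * Complex.exp (Complex.I * ((ω * δ : ℝ) : ℂ))‖ ≤ C * 256 := by
    apply os_int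
    · intro x
      rw [norm_mul, hexp, mul_one]
      have := hb 0 (by norm_num) x
      rwa [iteratedDeriv_zero] at this
    · intro x hx
      have := h0 0 (by norm_num) x hx
      rw [iteratedDeriv_zero] at this
      rw [this, zero_mul]
  set w : ℝ := -(ω / (2 * Real.pi)) with hw
  have hker : ∀ v : ℝ, Complex.exp (((-2 * Real.pi * v * w : ℝ) : ℂ) * Complex.I) =
      Complex.exp (Complex.I * ((ω * v : ℝ) : ℂ)) := by
    intro v
    have : -2 * Real.pi * v * w = ω * v := by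
      rw [hw]
      field_simp
    rw [this, mul_comm]
  have hF1 : 𝓕 f w = ∫ δ : ℝ, f δ * Complex.exp (Complex.I * ((ω * δ : ℝ) : ℂ)) := by
    rw [Real.fourier_real_eq_integral_exp_smul]
    congr 1
    funext v
    rw [hker, smul_eq_mul, mul_comm]
  have hF4 : ‖𝓕 (iteratedDeriv 4 f) w‖ ≤ C * 256 := by
    rw [Real.fourier_real_eq_integral_exp_smul]
    apply os_int
    · intro x
      rw [hker, norm_smul, hexp, one_mul]
      exact hb 4 le_rfl x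
    · intro x hx
      rw [h0 4 le_rfl x hx, smul_zero]
  have hint : ∀ n : ℕ, (n : ℕ∞) ≤ 4 → Integrable (iteratedDeriv n f) := by
    intro n hn
    have hn' : n ≤ 4 := by exact_mod_cast hn
    have hn'' : ((n : ℕ) : WithTop ℕ∞) ≤ 4 := by exact_mod_cast hn'
    apply Continuous.integrable_of_hasCompactSupport (hf.continuous_iteratedDeriv n hn'')
    exact HasCompactSupport.intro (isCompact_Icc (a := (-128 : ℝ)) (b := 128))
      (fun x hx => h0 n hn' x hx)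
  have hfour := Real.fourier_iteratedDeriv (N := 4) (n := 4) (f := f) (by exact_mod_cast hf)
    hint (by norm_num)
  have hF4' : 𝓕 (iteratedDeriv 4 f) w = (2 * Real.pi * Complex.I * w) ^ 4 • (𝓕 f w) :=
    congrFun hfour w
  have hnorm : ‖(2 * (Real.pi : ℂ) * Complex.I * (w : ℂ)) ^ 4‖ = ω ^ 4 := by
    have e : (2 * (Real.pi : ℂ) * Complex.I * (w : ℂ)) = ((-ω : ℝ) : ℂ) * Complex.I := by
      rw [hw]
      push_cast
      have : (Real.pi : ℂ) ≠ 0 := by exact_mod_cast Real.pi_ne_zero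
      field_simp
    rw [e, norm_pow, norm_mul, Complex.norm_I, mul_one, Complex.norm_real, Real.norm_eq_abs,
      abs_neg]
    have : |ω| ^ 4 = (|ω| ^ 2) ^ 2 := by ring
    rw [this, sq_abs]
    ring
  rw [hF4', norm_smul, hnorm, hF1] at hF4
  rw [le_div_iff₀ (by positivity)]
  set J := ‖∫ δ : ℝ, f δ * Complex.exp (Complex.I * ((ω * δ : ℝ) : ℂ))‖ with hJ
  have hJ0 : 0 ≤ J := norm_nonneg _
  have h2 : (1 + ω ^ 2) ^ 2 ≤ 2 * (1 + ω ^ 4) := by nlinarith [sq_nonneg (ω ^ 2 - 1)]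
  have h3 : J * (1 + ω ^ 2) ^ 2 ≤ J * (2 * (1 + ω ^ 4)) := mul_le_mul_of_nonneg_left h2 hJ0
  nlinarith

theorem osc (φ : ℝ → ℝ) (hφ : Bmp φ) : ∃ C : ℝ, 0 < C ∧ ∀ S q ω : ℝ, 0 ≤ q →
    ‖∫ δ : ℝ, ((φ ((S + δ) / 2) * φ ((S - δ) / 2) * Real.exp (-(q * (S ^ 2 - δ ^ 2))) : ℝ) : ℂ) *
      Complex.exp (Complex.I * ((ω * δ : ℝ) : ℂ))‖ ≤ C / (1 + ω ^ 2) ^ 2 := by
  have hcs : HasCompactSupport φ := by
    apply HasCompactSupport.intro (isCompact_Icc (a := (1 / 128 : ℝ)) (b := 128))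
    intro r hr
    apply hφ.supp
    rw [Set.mem_Icc, not_and_or, not_le, not_le] at hr
    exact hr
  have hex : ∀ i : ℕ, i ≤ 4 → ∃ C, ∀ r, ‖iteratedFDeriv ℝ i φ r‖ ≤ C := by
    intro i hi
    have hi' : ((i : ℕ) : WithTop ℕ∞) ≤ 4 := by exact_mod_cast hi
    exact (hcs.iteratedFDeriv i).exists_bound_of_continuous
      (hφ.smooth.continuous_iteratedFDeriv hi')
  obtain ⟨Cφ, hCφ⟩ : ∃ Cφ : ℝ, ∀ i : ℕ, i ≤ 4 → ∀ r, ‖iteratedFDeriv ℝ i φ r‖ ≤ Cφ := by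
    choose! c hc using hex
    refine ⟨∑ i ∈ Finset.range 5, |c i|, fun i hi r => ?_⟩
    refine (hc i hi r).trans ((le_abs_self _).trans ?_)
    exact Finset.single_le_sum (f := fun i => |c i|) (fun _ _ => abs_nonneg _)
      (Finset.mem_range.2 (by omega))
  have hC0 : 0 ≤ Cφ := (norm_nonneg _).trans (hCφ 0 (by norm_num) 0)
  set K : ℝ := 16 * ((16 * ((24 * Cφ) * (24 * Cφ))) * (24 * (24 * 4096 ^ 4) * 256 ^ 4)) with hK
  have hK0 : 0 ≤ K := by positivity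
  refine ⟨4 * (K * 256) + 1, by positivity, fun S q ω hq => ?_⟩
  have hfc : ContDiff ℝ 4 (fun δ : ℝ => ((os_F φ S q δ : ℝ) : ℂ)) :=
    Complex.ofRealCLM.contDiff.comp (os_F_contDiff φ hφ S q)
  have hnorm : ∀ n : ℕ, n ≤ 4 → ∀ x, ‖iteratedDeriv n (fun δ : ℝ => ((os_F φ S q δ : ℝ) : ℂ)) x‖ =
      ‖iteratedFDeriv ℝ n (os_F φ S q) x‖ := by
    intro n hn x
    have hn' : ((n : ℕ) : WithTop ℕ∞) ≤ 4 := by exact_mod_cast hn
    rw [← norm_iteratedFDeriv_eq_norm_iteratedDeriv]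
    exact LinearIsometry.norm_iteratedFDeriv_comp_left Complex.ofRealLI
      (os_F_contDiff φ hφ S q).contDiffAt hn'
  have h1 := os_fourier (fun δ : ℝ => ((os_F φ S q δ : ℝ) : ℂ)) hfc K
    (fun n hn x => by
      rw [hnorm n hn x]
      exact os_F_bound φ hφ Cφ hCφ S q hq n hn x)
    (fun n hn x hx => by
      rw [← norm_eq_zero, hnorm n hn x, os_F_off φ hφ S q x (os_R_sub S x hx) n, norm_zero]) ω
  refine h1.trans ?_
  apply div_le_div_of_nonneg_right _ (by positivity)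
  linarith

end FM954
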