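import Mathlib
import Pool.Agent.Helper954.FM.Base

set_option autoImplicit false
open MeasureTheory Set Metric
open scoped ENNReal

namespace FM954

theorem g2_ns {d : ℕ} (a w : Eu d) (r : ℝ) :
    ‖a + r • w‖ ^ 2 = ‖a‖ ^ 2 + 2 * r * inner ℝ a w + r ^ 2 * ‖w‖ ^ 2 := by
  rw [norm_add_sq_real, inner_smul_right, norm_smul, Real.norm_eq_abs, mul_pow, sq_abs]
  ring

theorem g2_prod (d : ℕ) (hd : 1 ≤ d) (s s' : ℝ) (hs : 0 < s) (hs' : 0 < s') (w ξ : Eu d) :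
    ga d (s / d) (ξ + (s / (s + s')) • w) * ga d (s' / d) (ξ + (-(s' / (s + s'))) • w) =
      ga d ((s + s') / d) w * ga d (s * s' / ((s + s') * d)) ξ := by
  have hD : (0 : ℝ) < d := by exact_mod_cast hd
  have hS : 0 < s + s' := by positivity
  unfold ga
  have h1 : (2 * Real.pi * (s / d)) ^ (-(d : ℝ) / 2) * (2 * Real.pi * (s' / d)) ^ (-(d : ℝ) / 2) =
      (2 * Real.pi * ((s + s') / d)) ^ (-(d : ℝ) / 2) *
        (2 * Real.pi * (s * s' / ((s + s') * d))) ^ (-(d : ℝ) / 2) := by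
    rw [← Real.mul_rpow (by positivity) (by positivity),
      ← Real.mul_rpow (by positivity) (by positivity)]
    congr 1
    field_simp
  have h2 : -‖ξ + (s / (s + s')) • w‖ ^ 2 / (2 * (s / d)) +
      -‖ξ + (-(s' / (s + s'))) • w‖ ^ 2 / (2 * (s' / d)) =
      -‖w‖ ^ 2 / (2 * ((s + s') / d)) + -‖ξ‖ ^ 2 / (2 * (s * s' / ((s + s') * d))) := by
    rw [g2_ns, g2_ns]
    field_simp
    ring
  calc _ = ((2 * Real.pi * (s / d)) ^ (-(d : ℝ) / 2) * (2 * Real.pi * (s' / d)) ^ (-(d : ℝ) / 2)) *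
        (Real.exp (-‖ξ + (s / (s + s')) • w‖ ^ 2 / (2 * (s / d))) *
          Real.exp (-‖ξ + (-(s' / (s + s'))) • w‖ ^ 2 / (2 * (s' / d)))) := by ring
    _ = ((2 * Real.pi * ((s + s') / d)) ^ (-(d : ℝ) / 2) *
        (2 * Real.pi * (s * s' / ((s + s') * d))) ^ (-(d : ℝ) / 2)) *
        (Real.exp (-‖w‖ ^ 2 / (2 * ((s + s') / d))) *
          Real.exp (-‖ξ‖ ^ 2 / (2 * (s * s' / ((s + s') * d))))) := by
        rw [h1, ← Real.exp_add, h2, Real.exp_add]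
    _ = _ := by ring

theorem g2_phase {d : ℕ} (s s' : ℝ) (hs : 0 < s) (hs' : 0 < s') (y z y' z' : Eu d) :
    ‖z + (s / (s + s')) • (z' - z) - y‖ ^ 2 - ‖z + (s / (s + s')) • (z' - z) - y'‖ ^ 2 =
      (s - s') * kp (s + s') y z y' z' +
        (inner ℝ (z' - z) ((z - y) + (z' - y')) + ‖z - y‖ ^ 2 - ‖z' - y'‖ ^ 2) := by
  have hS : 0 < s + s' := by positivity
  have e1 : z + (s / (s + s')) • (z' - z) - y = (z - y) + (s / (s + s')) • (z' - z) := by abel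
  have e2 : z + (s / (s + s')) • (z' - z) - y' = (z' - y') + (-(s' / (s + s'))) • (z' - z) := by
    have h1 : -(s' / (s + s')) = s / (s + s') - 1 := by field_simp; ring
    rw [h1, sub_smul, one_smul]
    abel
  rw [e1, e2, g2_ns, g2_ns]
  unfold kp
  generalize z - y = a
  generalize z' - y' = b
  generalize z' - z = w
  rw [inner_add_right, inner_sub_right, real_inner_comm a w, real_inner_comm b w]
  field_simp
  ring

theorem gauss2 (d : ℕ) (hd : 1 ≤ d) (s s' τ : ℝ) (hs : 0 < s) (hs' : 0 < s') (y z y' z' : Eu d) :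
    ∫ x : Eu d, ((ga d (s / d) (x - z) * ga d (s' / d) (x - z') : ℝ) : ℂ) *
      Complex.exp (Complex.I * ((τ * (‖x - y‖ ^ 2 - ‖x - y'‖ ^ 2) : ℝ) : ℂ)) =
    ((ga d ((s + s') / d) (z' - z) : ℝ) : ℂ) *
      Complex.exp (Complex.I * ((τ * ((s - s') * kp (s + s') y z y' z' +
        (inner ℝ (z' - z) ((z - y) + (z' - y')) + ‖z - y‖ ^ 2 - ‖z' - y'‖ ^ 2)) : ℝ) : ℂ)) *
      ((Real.exp (-(τ ^ 2 * ‖y - y'‖ ^ 2 / (2 * d * (s + s')) * ((s + s') ^ 2 - (s - s') ^ 2))) : ℝ) : ℂ) := by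
  have hD : (0 : ℝ) < d := by exact_mod_cast hd
  have hS : 0 < s + s' := by positivity
  set m : Eu d := z + (s / (s + s')) • (z' - z) with hm
  set w : Eu d := z' - z with hw
  set t : ℝ := s * s' / ((s + s') * d) with ht
  have ht0 : 0 < t := by positivity
  rw [← integral_add_right_eq_self (μ := volume) (fun x : Eu d =>
    ((ga d (s / d) (x - z) * ga d (s' / d) (x - z') : ℝ) : ℂ) *
      Complex.exp (Complex.I * ((τ * (‖x - y‖ ^ 2 - ‖x - y'‖ ^ 2) : ℝ) : ℂ))) m]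
  have h1 : ∀ ξ : Eu d, ((ga d (s / d) (ξ + m - z) * ga d (s' / d) (ξ + m - z') : ℝ) : ℂ) *
      Complex.exp (Complex.I * ((τ * (‖ξ + m - y‖ ^ 2 - ‖ξ + m - y'‖ ^ 2) : ℝ) : ℂ)) =
      (((ga d ((s + s') / d) w : ℝ) : ℂ) *
        Complex.exp (Complex.I * ((τ * (‖m - y‖ ^ 2 - ‖m - y'‖ ^ 2) : ℝ) : ℂ))) *
      ((ga d t ξ : ℂ) * Complex.exp ((-(2 * Complex.I * τ)) * (inner ℝ ξ (y - y') : ℝ))) := by
    intro ξ
    have e1 : ξ + m - z = ξ + (s / (s + s')) • w := by rw [hm]; abel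
    have e2 : ξ + m - z' = ξ + (-(s' / (s + s'))) • w := by
      have h1 : -(s' / (s + s')) = s / (s + s') - 1 := by field_simp; ring
      rw [h1, sub_smul, one_smul, hm, hw]
      abel
    have e3 : ‖ξ + m - y‖ ^ 2 - ‖ξ + m - y'‖ ^ 2 = (‖m - y‖ ^ 2 - ‖m - y'‖ ^ 2) -
        2 * inner ℝ ξ (y - y') := by
      have a1 : ξ + m - y = (m - y) + (1 : ℝ) • ξ := by rw [one_smul]; abel
      have a2 : ξ + m - y' = (m - y') + (1 : ℝ) • ξ := by rw [one_smul]; abel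
      have a3 : y - y' = (m - y') - (m - y) := by abel
      rw [a1, a2, g2_ns, g2_ns, a3, inner_sub_right, real_inner_comm ξ (m - y'),
        real_inner_comm ξ (m - y)]
      ring
    rw [e1, e2, g2_prod d hd s s' hs hs' w ξ, e3]
    have e4 : Complex.exp (Complex.I * ((τ * ((‖m - y‖ ^ 2 - ‖m - y'‖ ^ 2) -
        2 * inner ℝ ξ (y - y')) : ℝ) : ℂ)) =
        Complex.exp (Complex.I * ((τ * (‖m - y‖ ^ 2 - ‖m - y'‖ ^ 2) : ℝ) : ℂ)) *
        Complex.exp ((-(2 * Complex.I * τ)) * (inner ℝ ξ (y - y') : ℝ)) := by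
      rw [← Complex.exp_add]
      congr 1
      push_cast
      ring
    rw [e4]
    push_cast
    ring
  rw [integral_congr_ae (Filter.Eventually.of_forall h1), integral_const_mul,
    integral_ga_cexp d t ht0, g2_phase s s' hs hs' y z y' z']
  congr 1
  rw [Complex.ofReal_exp]
  congr 1
  rw [ht]
  push_cast
  have hDc : (d : ℂ) ≠ 0 := by exact_mod_cast hD.ne'
  have hSc : (s : ℂ) + s' ≠ 0 := by exact_mod_cast hS.ne'
  have hI : Complex.I ^ 2 = -1 := Complex.I_sq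
  have h3 : (-(2 * Complex.I * (τ : ℂ))) ^ 2 = -(4 * (τ : ℂ) ^ 2) := by
    rw [neg_sq, mul_pow, mul_pow, hI]
    ring
  rw [h3]
  field_simp
  ring

end FM954
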