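import Mathlib
import Pool.Agent.Helper954.FM.Base
import Pool.Agent.Helper954.FM.G

set_option autoImplicit false
open MeasureTheory Set Metric
open scoped ENNReal

namespace FM954

theorem p1_ga_meas (d : ℕ) (z : Eu d) : Measurable fun q : Eu d × ℝ => ga d (q.2 / d) (q.1 - z) := by
  unfold ga
  refine Measurable.mul ?_ ?_
  · exact (measurable_const.mul (measurable_snd.div_const _)).pow_const _
  · refine Real.measurable_exp.comp ?_
    refine Measurable.div ?_ ?_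
    · exact (((measurable_fst.sub_const z).norm).pow_const 2).neg
    · exact measurable_const.mul (measurable_snd.div_const _)

theorem p1_ga_le (d : ℕ) (t0 t : ℝ) (h0 : 0 < t0) (ht : t0 ≤ t) (x : Eu d) :
    ga d t x ≤ (2 * Real.pi * t0) ^ (-(d : ℝ) / 2) := by
  have htp : 0 < t := lt_of_lt_of_le h0 ht
  have hpi := Real.pi_pos
  unfold ga
  have h1 : Real.exp (-‖x‖ ^ 2 / (2 * t)) ≤ 1 := by
    rw [Real.exp_le_one_iff]
    exact div_nonpos_of_nonpos_of_nonneg (by nlinarith [sq_nonneg ‖x‖]) (by positivity)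
  have h2 : (2 * Real.pi * t) ^ (-(d : ℝ) / 2) ≤ (2 * Real.pi * t0) ^ (-(d : ℝ) / 2) := by
    refine Real.rpow_le_rpow_of_nonpos (by positivity) (by nlinarith) ?_
    have : (0 : ℝ) ≤ d := Nat.cast_nonneg d
    linarith
  calc _ ≤ (2 * Real.pi * t) ^ (-(d : ℝ) / 2) * 1 :=
        mul_le_mul_of_nonneg_left h1 (by positivity)
    _ ≤ _ := by rw [mul_one]; exact h2

theorem p1_ga_integrable (d : ℕ) (t : ℝ) (ht : 0 < t) (z : Eu d) :
    Integrable (fun x => ga d t (x - z)) := by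
  refine ⟨((continuous_ga d t).comp (continuous_id.sub continuous_const)).aestronglyMeasurable, ?_⟩
  rw [hasFiniteIntegral_iff_ofReal (Filter.Eventually.of_forall fun x => (ga_pos d t ht _).le)]
  rw [lintegral_ga d t ht z]
  exact ENNReal.one_lt_top

theorem p1_ga_integral (d : ℕ) (t : ℝ) (ht : 0 < t) (z : Eu d) :
    ∫ x, ga d t (x - z) = 1 := by
  rw [integral_eq_lintegral_of_nonneg_ae (Filter.Eventually.of_forall fun x => (ga_pos d t ht _).le)
    (p1_ga_integrable d t ht z).1]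
  rw [lintegral_ga d t ht z]
  simp

theorem p1_phi_bd (φ : ℝ → ℝ) (hφ : Bmp φ) : ∃ Φ : ℝ, 0 ≤ Φ ∧ ∀ r, φ r ≤ Φ := by
  obtain ⟨C, hC⟩ := (isCompact_Icc (a := (1 / 128 : ℝ)) (b := 128)).exists_bound_of_continuousOn
    hφ.smooth.continuous.continuousOn
  refine ⟨max C 0, le_max_right _ _, fun r => ?_⟩
  by_cases hr : r < 1 / 128 ∨ 128 < r
  · rw [hφ.supp r hr]; exact le_max_right _ _
  · push Not at hr
    exact (le_abs_self _).trans ((hC r ⟨hr.1, hr.2⟩).trans (le_max_left _ _))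

/-- the triple integrand -/
noncomputable def p1T (φ : ℝ → ℝ) (d : ℕ) (h τ : ℝ) (y z y' z' : Eu d) (x : Eu d) (p : ℝ × ℝ) : ℂ :=
  ((φ (p.1 / h) * φ (p.2 / h) : ℝ) : ℂ) * (((ga d (p.1 / d) (x - z) * ga d (p.2 / d) (x - z') : ℝ) : ℂ) *
    Complex.exp (Complex.I * ((τ * (‖x - y‖ ^ 2 - ‖x - y'‖ ^ 2) : ℝ) : ℂ)))

theorem p1_norm_exp (a : ℝ) : ‖Complex.exp (Complex.I * (a : ℂ))‖ = 1 := by
  rw [mul_comm, Complex.norm_exp_ofReal_mul_I]

theorem p1T_meas (φ : ℝ → ℝ) (hφ : Bmp φ) (d : ℕ) (h τ : ℝ) (y z y' z' : Eu d) :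
    Measurable fun q : Eu d × (ℝ × ℝ) => p1T φ d h τ y z y' z' q.1 q.2 := by
  have hφm : Measurable φ := hφ.smooth.continuous.measurable
  unfold p1T
  refine Measurable.mul ?_ (Measurable.mul ?_ ?_)
  · refine Complex.measurable_ofReal.comp ?_
    exact (hφm.comp ((measurable_fst.comp measurable_snd).div_const _)).mul
      (hφm.comp ((measurable_snd.comp measurable_snd).div_const _))
  · refine Complex.measurable_ofReal.comp ?_
    exact ((p1_ga_meas d z).comp (measurable_fst.prodMk (measurable_fst.comp measurable_snd))).mul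
      ((p1_ga_meas d z').comp (measurable_fst.prodMk (measurable_snd.comp measurable_snd)))
  · refine Complex.measurable_exp.comp (measurable_const.mul (Complex.measurable_ofReal.comp ?_))
    exact measurable_const.mul ((((measurable_fst.sub_const y).norm).pow_const 2).sub
      (((measurable_fst.sub_const y').norm).pow_const 2))

theorem p1T_int (φ : ℝ → ℝ) (hφ : Bmp φ) (d : ℕ) (hd : 1 ≤ d) (h : ℝ) (hh : 0 < h) (τ : ℝ)
    (y z y' z' : Eu d) :
    Integrable (fun q : Eu d × (ℝ × ℝ) => p1T φ d h τ y z y' z' q.1 q.2) := by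
  obtain ⟨Φ, hΦ0, hΦ⟩ := p1_phi_bd φ hφ
  have hdR : (0 : ℝ) < d := by exact_mod_cast hd
  set M : ℝ := (2 * Real.pi * (h / 128 / d)) ^ (-(d : ℝ) / 2) with hM
  have hM0 : 0 ≤ M := by
    have := Real.pi_pos
    positivity
  set K : Set (ℝ × ℝ) := Icc (h / 128) (128 * h) ×ˢ Icc (h / 128) (128 * h) with hK
  have hKm : MeasurableSet K := measurableSet_Icc.prod measurableSet_Icc
  have hKfin : volume K < ⊤ := by
    rw [hK]
    exact (isCompact_Icc.prod isCompact_Icc).measure_lt_top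
  let g : Eu d × (ℝ × ℝ) → ℝ := fun q =>
    K.indicator (fun p : ℝ × ℝ => Φ * Φ * M * ga d (p.1 / d) (q.1 - z)) q.2
  have hgm : Measurable g := by
    have h1 : Measurable fun q : Eu d × (ℝ × ℝ) => Φ * Φ * M * ga d (q.2.1 / d) (q.1 - z) :=
      measurable_const.mul ((p1_ga_meas d z).comp (measurable_fst.prodMk (measurable_fst.comp measurable_snd)))
    have h2 := h1.indicator (measurable_snd hKm : MeasurableSet (Prod.snd ⁻¹' K : Set (Eu d × (ℝ × ℝ))))
    have h3 : g = (Prod.snd ⁻¹' K : Set (Eu d × (ℝ × ℝ))).indicator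
        (fun q : Eu d × (ℝ × ℝ) => Φ * Φ * M * ga d (q.2.1 / d) (q.1 - z)) := by
      funext q
      simp only [g, Set.indicator, Set.mem_preimage]
    rw [h3]
    exact h2
  have hpos : ∀ p ∈ K, 0 < p.1 ∧ 0 < p.2 := by
    intro p hp
    have h1 := hp.1.1
    have h2 := hp.2.1
    have h3 : 0 < h / 128 := by positivity
    exact ⟨lt_of_lt_of_le h3 h1, lt_of_lt_of_le h3 h2⟩
  have hg : Integrable g := by
    rw [Measure.volume_eq_prod, integrable_prod_iff' hgm.aestronglyMeasurable]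
    constructor
    · refine Filter.Eventually.of_forall fun p => ?_
      by_cases hp : p ∈ K
      · simp only [g, Set.indicator_of_mem hp]
        exact (p1_ga_integrable d _ (div_pos (hpos p hp).1 hdR) z).const_mul _
      · simp only [g, Set.indicator_of_notMem hp]
        exact integrable_zero _ _ _
    · have he : (fun p : ℝ × ℝ => ∫ x, ‖g (x, p)‖) = K.indicator (fun _ => Φ * Φ * M) := by
        funext p
        by_cases hp : p ∈ K
        · simp only [g, Set.indicator_of_mem hp]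
          have h1 : ∀ x, ‖Φ * Φ * M * ga d (p.1 / d) (x - z)‖ = Φ * Φ * M * ga d (p.1 / d) (x - z) := by
            intro x
            rw [Real.norm_eq_abs, abs_of_nonneg]
            have := (ga_pos d (p.1 / d) (div_pos (hpos p hp).1 hdR) (x - z)).le
            positivity
          rw [integral_congr_ae (Filter.Eventually.of_forall h1), integral_const_mul,
            p1_ga_integral d _ (div_pos (hpos p hp).1 hdR) z, mul_one]
        · simp only [g, Set.indicator_of_notMem hp, norm_zero, integral_zero]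
      rw [he]
      exact (integrable_indicator_iff hKm).2 (integrableOn_const hKfin.ne)
  refine hg.mono' (p1T_meas φ hφ d h τ y z y' z').aestronglyMeasurable
    (Filter.Eventually.of_forall fun q => ?_)
  obtain ⟨x, p⟩ := q
  by_cases hp : p ∈ K
  · simp only [g, Set.indicator_of_mem hp]
    have hp1 := hpos p hp
    have a1 := (ga_pos d (p.1 / d) (div_pos hp1.1 hdR) (x - z)).le
    have a2 := (ga_pos d (p.2 / d) (div_pos hp1.2 hdR) (x - z')).le
    have a3 : ga d (p.2 / d) (x - z') ≤ M :=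
      p1_ga_le d (h / 128 / d) (p.2 / d) (by positivity) (div_le_div_of_nonneg_right hp.2.1 hdR.le) _
    have n1 := hφ.nonneg (p.1 / h)
    have n2 := hφ.nonneg (p.2 / h)
    unfold p1T
    rw [norm_mul, norm_mul, p1_norm_exp, mul_one, Complex.norm_real, Complex.norm_real,
      Real.norm_eq_abs, Real.norm_eq_abs, abs_of_nonneg (mul_nonneg n1 n2), abs_of_nonneg (mul_nonneg a1 a2)]
    calc φ (p.1 / h) * φ (p.2 / h) * (ga d (p.1 / d) (x - z) * ga d (p.2 / d) (x - z'))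
        ≤ Φ * Φ * (ga d (p.1 / d) (x - z) * M) := by
          refine mul_le_mul (mul_le_mul (hΦ _) (hΦ _) n2 hΦ0) (mul_le_mul_of_nonneg_left a3 a1)
            (mul_nonneg a1 a2) (by positivity)
      _ = _ := by ring
  · simp only [g, Set.indicator_of_notMem hp]
    have h0 : φ (p.1 / h) * φ (p.2 / h) = 0 := by
      by_cases h1 : p.1 / h < 1 / 128 ∨ 128 < p.1 / h
      · rw [hφ.supp _ h1, zero_mul]
      · by_cases h2 : p.2 / h < 1 / 128 ∨ 128 < p.2 / h
        · rw [hφ.supp _ h2, mul_zero]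
        · exfalso
          apply hp
          push Not at h1 h2
          rw [le_div_iff₀ hh, div_le_iff₀ hh] at h1 h2
          exact ⟨⟨by linarith [h1.1], h1.2⟩, ⟨by linarith [h2.1], h2.2⟩⟩
    unfold p1T
    rw [h0]
    simp

/-- result of the Gaussian integration -/
noncomputable def p1F (φ : ℝ → ℝ) (d : ℕ) (h τ : ℝ) (y z y' z' : Eu d) (p : ℝ × ℝ) : ℂ :=
  ((φ (p.1 / h) * φ (p.2 / h) : ℝ) : ℂ) * (((ga d ((p.1 + p.2) / d) (z' - z) : ℝ) : ℂ) *
      Complex.exp (Complex.I * ((τ * ((p.1 - p.2) * kp (p.1 + p.2) y z y' z' +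
        (inner ℝ (z' - z) ((z - y) + (z' - y')) + ‖z - y‖ ^ 2 - ‖z' - y'‖ ^ 2)) : ℝ) : ℂ)) *
      ((Real.exp (-(τ ^ 2 * ‖y - y'‖ ^ 2 / (2 * d * (p.1 + p.2)) *
        ((p.1 + p.2) ^ 2 - (p.1 - p.2) ^ 2))) : ℝ) : ℂ))

theorem p1_phi_zero (φ : ℝ → ℝ) (hφ : Bmp φ) (h : ℝ) (hh : 0 < h) (s : ℝ) (hs : s ≤ 0) :
    φ (s / h) = 0 := by
  apply hφ.supp
  left
  have : s / h ≤ 0 := div_nonpos_of_nonpos_of_nonneg hs hh.le
  linarith

theorem p1_TF (φ : ℝ → ℝ) (hφ : Bmp φ) (d : ℕ) (hd : 1 ≤ d) (h : ℝ) (hh : 0 < h) (τ : ℝ)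
    (y z y' z' : Eu d) (p : ℝ × ℝ) :
    ∫ x, p1T φ d h τ y z y' z' x p = p1F φ d h τ y z y' z' p := by
  unfold p1T p1F
  rw [integral_const_mul]
  by_cases h1 : 0 < p.1
  · by_cases h2 : 0 < p.2
    · rw [gauss2 d hd p.1 p.2 τ h1 h2 y z y' z']
    · rw [p1_phi_zero φ hφ h hh p.2 (not_lt.1 h2)]
      simp
  · rw [p1_phi_zero φ hφ h hh p.1 (not_lt.1 h1)]
    simp

theorem p1_Nf (φ : ℝ → ℝ) (hφ : Bmp φ) (d : ℕ) (h : ℝ) (hh : 0 < h) (a : Eu d) :
    Nf φ d h a = ∫ s : ℝ, φ (s / h) * ga d (s / d) a := by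
  unfold Nf
  refine setIntegral_eq_integral_of_forall_compl_eq_zero fun s hs => ?_
  rw [p1_phi_zero φ hφ h hh s (not_lt.1 hs), zero_mul]

theorem p1_prod (φ : ℝ → ℝ) (hφ : Bmp φ) (d : ℕ) (h : ℝ) (hh : 0 < h) (τ : ℝ)
    (y z y' z' : Eu d) (x : Eu d) :
    Gf φ d h τ x y z * (starRingEnd ℂ) (Gf φ d h τ x y' z') =
      ∫ p : ℝ × ℝ, p1T φ d h τ y z y' z' x p := by
  have h1 : Gf φ d h τ x y z * (starRingEnd ℂ) (Gf φ d h τ x y' z') =
      ((Nf φ d h (x - z) * Nf φ d h (x - z') : ℝ) : ℂ) *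
        Complex.exp (Complex.I * ((τ * (‖x - y‖ ^ 2 - ‖x - y'‖ ^ 2) : ℝ) : ℂ)) := by
    unfold Gf
    rw [map_mul, Complex.conj_ofReal, ← Complex.exp_conj, map_mul, Complex.conj_I, Complex.conj_ofReal]
    have : Complex.exp (Complex.I * ((τ * (‖x - y‖ ^ 2 - ‖x - y'‖ ^ 2) : ℝ) : ℂ)) =
        Complex.exp (Complex.I * ((τ * ‖x - y‖ ^ 2 : ℝ) : ℂ)) *
          Complex.exp (-Complex.I * ((τ * ‖x - y'‖ ^ 2 : ℝ) : ℂ)) := by
      rw [← Complex.exp_add]
      congr 1
      push_cast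
      ring
    rw [this]
    push_cast
    ring
  have h2 : Nf φ d h (x - z) * Nf φ d h (x - z') =
      ∫ p : ℝ × ℝ, (φ (p.1 / h) * ga d (p.1 / d) (x - z)) * (φ (p.2 / h) * ga d (p.2 / d) (x - z')) := by
    rw [p1_Nf φ hφ d h hh, p1_Nf φ hφ d h hh, ← integral_prod_mul]
    rfl
  rw [h1, h2, ← integral_complex_ofReal, ← integral_mul_const]
  refine integral_congr_ae (Filter.Eventually.of_forall fun p => ?_)
  simp only [p1T]
  push_cast
  ring

theorem p1_change (F : ℝ × ℝ → ℂ) (hF : Integrable F) :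
    ∫ p, F p = ∫ S : ℝ, (1 / 2 : ℂ) * ∫ δ : ℝ, F ((S + δ) / 2, (S - δ) / 2) := by
  have e1 : ∫ p, F p = ∫ s : ℝ, ∫ s' : ℝ, F (s, s') := by
    rw [Measure.volume_eq_prod] at hF ⊢
    exact integral_prod F hF
  have e2 : ∀ s : ℝ, ∫ s' : ℝ, F (s, s') = ∫ S : ℝ, F (s, -s + S) := by
    intro s
    exact (integral_add_left_eq_self (fun t => F (s, t)) (-s)).symm
  have hmp := measurePreserving_prod_neg_add (volume : Measure ℝ) (volume : Measure ℝ)
  have hI : Integrable (Function.uncurry fun s S : ℝ => F (s, -s + S)) (volume.prod volume) := by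
    have h1 : Integrable F (volume.prod volume) := by
      rw [Measure.volume_eq_prod] at hF
      exact hF
    exact hmp.integrable_comp_of_integrable h1
  rw [e1]
  simp_rw [e2]
  rw [integral_integral_swap hI]
  refine integral_congr_ae (Filter.Eventually.of_forall fun S => ?_)
  simp only
  have e3 : ∫ δ : ℝ, F ((S + δ) / 2, (S - δ) / 2) = ∫ δ : ℝ, (fun t : ℝ => F (t / 2, -(t / 2) + S)) (S + δ) := by
    refine integral_congr_ae (Filter.Eventually.of_forall fun δ => ?_)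
    simp only
    congr 2
    ring
  rw [e3, integral_add_left_eq_self (fun t : ℝ => F (t / 2, -(t / 2) + S)) S]
  rw [Measure.integral_comp_div (fun t : ℝ => F (t, -t + S)) 2]
  rw [abs_of_pos (by norm_num : (0 : ℝ) < 2), Complex.real_smul]
  push_cast
  ring

theorem pair1 (φ : ℝ → ℝ) (hφ : Bmp φ) (d : ℕ) (hd : 1 ≤ d) (h : ℝ) (hh : 0 < h) (τ : ℝ)
    (y z y' z' : Eu d) :
    ∫ x, Gf φ d h τ x y z * (starRingEnd ℂ) (Gf φ d h τ x y' z') =
      ∫ S in Icc (h / 64) (256 * h), (1 / 2 : ℂ) * ((ga d (S / d) (z' - z) : ℝ) : ℂ) *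
        Complex.exp (Complex.I *
          ((τ * (inner ℝ (z' - z) ((z - y) + (z' - y')) + ‖z - y‖ ^ 2 - ‖z' - y'‖ ^ 2) : ℝ) : ℂ)) *
        ∫ δ : ℝ, ((φ ((S + δ) / 2 / h) * φ ((S - δ) / 2 / h) *
            Real.exp (-(τ ^ 2 * ‖y - y'‖ ^ 2 / (2 * d * S) * (S ^ 2 - δ ^ 2))) : ℝ) : ℂ) *
          Complex.exp (Complex.I * ((τ * kp S y z y' z' * δ : ℝ) : ℂ)) := by
  have hdR : (0 : ℝ) < d := by exact_mod_cast hd
  have hT := p1T_int φ hφ d hd h hh τ y z y' z'
  have hTF := p1_TF φ hφ d hd h hh τ y z y' z'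
  have hT' : Integrable (fun q : Eu d × (ℝ × ℝ) => p1T φ d h τ y z y' z' q.1 q.2)
      ((volume : Measure (Eu d)).prod (volume : Measure (ℝ × ℝ))) := by
    rw [Measure.volume_eq_prod] at hT
    exact hT
  have hFi : Integrable (p1F φ d h τ y z y' z') := by
    have h1 := hT'.integral_prod_right
    have h2 : (fun p : ℝ × ℝ => ∫ x, p1T φ d h τ y z y' z' x p) = p1F φ d h τ y z y' z' := by
      funext p
      exact hTF p
    rw [← h2]
    exact h1
  have e1 : ∫ x, Gf φ d h τ x y z * (starRingEnd ℂ) (Gf φ d h τ x y' z') =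
      ∫ p, p1F φ d h τ y z y' z' p := by
    calc _ = ∫ x, ∫ p : ℝ × ℝ, p1T φ d h τ y z y' z' x p :=
          integral_congr_ae (Filter.Eventually.of_forall fun x => p1_prod φ hφ d h hh τ y z y' z' x)
      _ = ∫ p : ℝ × ℝ, ∫ x, p1T φ d h τ y z y' z' x p := integral_integral_swap hT'
      _ = _ := integral_congr_ae (Filter.Eventually.of_forall fun p => hTF p)
  rw [e1, p1_change _ hFi]
  have e2 : ∀ S : ℝ, (1 / 2 : ℂ) * ∫ δ : ℝ, p1F φ d h τ y z y' z' ((S + δ) / 2, (S - δ) / 2) =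
      (1 / 2 : ℂ) * ((ga d (S / d) (z' - z) : ℝ) : ℂ) *
        Complex.exp (Complex.I *
          ((τ * (inner ℝ (z' - z) ((z - y) + (z' - y')) + ‖z - y‖ ^ 2 - ‖z' - y'‖ ^ 2) : ℝ) : ℂ)) *
        ∫ δ : ℝ, ((φ ((S + δ) / 2 / h) * φ ((S - δ) / 2 / h) *
            Real.exp (-(τ ^ 2 * ‖y - y'‖ ^ 2 / (2 * d * S) * (S ^ 2 - δ ^ 2))) : ℝ) : ℂ) *
          Complex.exp (Complex.I * ((τ * kp S y z y' z' * δ : ℝ) : ℂ)) := by
    intro S
    rw [← integral_const_mul, ← integral_const_mul]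
    refine integral_congr_ae (Filter.Eventually.of_forall fun δ => ?_)
    simp only [p1F]
    have a1 : (S + δ) / 2 + (S - δ) / 2 = S := by ring
    have a2 : (S + δ) / 2 - (S - δ) / 2 = δ := by ring
    rw [a1, a2]
    have a3 : Complex.exp (Complex.I * ((τ * (δ * kp S y z y' z' +
        (inner ℝ (z' - z) ((z - y) + (z' - y')) + ‖z - y‖ ^ 2 - ‖z' - y'‖ ^ 2)) : ℝ) : ℂ)) =
        Complex.exp (Complex.I *
          ((τ * (inner ℝ (z' - z) ((z - y) + (z' - y')) + ‖z - y‖ ^ 2 - ‖z' - y'‖ ^ 2) : ℝ) : ℂ)) *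
          Complex.exp (Complex.I * ((τ * kp S y z y' z' * δ : ℝ) : ℂ)) := by
      rw [← Complex.exp_add]
      congr 1
      push_cast
      ring
    rw [a3]
    push_cast
    ring
  rw [integral_congr_ae (Filter.Eventually.of_forall e2)]
  symm
  refine setIntegral_eq_integral_of_forall_compl_eq_zero fun S hS => ?_
  have hz : ∀ δ : ℝ, φ ((S + δ) / 2 / h) * φ ((S - δ) / 2 / h) = 0 := by
    intro δ
    by_cases h1 : (S + δ) / 2 / h < 1 / 128 ∨ 128 < (S + δ) / 2 / h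
    · rw [hφ.supp _ h1, zero_mul]
    · by_cases h2 : (S - δ) / 2 / h < 1 / 128 ∨ 128 < (S - δ) / 2 / h
      · rw [hφ.supp _ h2, mul_zero]
      · exfalso
        apply hS
        push Not at h1 h2
        rw [le_div_iff₀ hh, div_le_iff₀ hh] at h1 h2
        exact ⟨by linarith [h1.1, h2.1], by linarith [h1.2, h2.2]⟩
  have hz2 : ∫ δ : ℝ, ((φ ((S + δ) / 2 / h) * φ ((S - δ) / 2 / h) *
            Real.exp (-(τ ^ 2 * ‖y - y'‖ ^ 2 / (2 * d * S) * (S ^ 2 - δ ^ 2))) : ℝ) : ℂ) *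
          Complex.exp (Complex.I * ((τ * kp S y z y' z' * δ : ℝ) : ℂ)) = 0 := by
    rw [integral_congr_ae (g := fun _ => (0 : ℂ)) (Filter.Eventually.of_forall fun δ => by
      simp only [hz δ, zero_mul, Complex.ofReal_zero])]
    simp
  rw [hz2, mul_zero]

end FM954
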