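import Mathlib
import Pool.Agent.Helper954.FM.Base
import Pool.Agent.Helper954.FM.O
import Pool.Agent.Helper954.FM.P1

set_option autoImplicit false
open MeasureTheory Set Metric
open scoped ENNReal

namespace FM954

theorem inner_bd {φ : ℝ → ℝ} {C0 : ℝ}
    (hC : ∀ S q ω : ℝ, 0 ≤ q →
    ‖∫ δ : ℝ, ((φ ((S + δ) / 2) * φ ((S - δ) / 2) * Real.exp (-(q * (S ^ 2 - δ ^ 2))) : ℝ) : ℂ) *
      Complex.exp (Complex.I * ((ω * δ : ℝ) : ℂ))‖ ≤ C0 / (1 + ω ^ 2) ^ 2)
    (h : ℝ) (hh : 0 < h) (S Q k : ℝ) (hQ : 0 ≤ Q) :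
    ‖∫ δ : ℝ, ((φ ((S + δ) / 2 / h) * φ ((S - δ) / 2 / h) *
            Real.exp (-(Q * (S ^ 2 - δ ^ 2))) : ℝ) : ℂ) *
          Complex.exp (Complex.I * ((k * δ : ℝ) : ℂ))‖ ≤ h * (C0 / (1 + (h * k) ^ 2) ^ 2) := by
  have h1 := MeasureTheory.Measure.integral_comp_mul_left
    (fun δ : ℝ => ((φ ((S + δ) / 2 / h) * φ ((S - δ) / 2 / h) *
            Real.exp (-(Q * (S ^ 2 - δ ^ 2))) : ℝ) : ℂ) *
          Complex.exp (Complex.I * ((k * δ : ℝ) : ℂ))) h
  have h2 : (fun x : ℝ => ((φ ((S + h * x) / 2 / h) * φ ((S - h * x) / 2 / h) *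
            Real.exp (-(Q * (S ^ 2 - (h * x) ^ 2))) : ℝ) : ℂ) *
          Complex.exp (Complex.I * ((k * (h * x) : ℝ) : ℂ))) =
      fun x : ℝ => ((φ ((S / h + x) / 2) * φ ((S / h - x) / 2) *
        Real.exp (-((Q * h ^ 2) * ((S / h) ^ 2 - x ^ 2))) : ℝ) : ℂ) *
      Complex.exp (Complex.I * (((h * k) * x : ℝ) : ℂ)) := by
    funext x
    have e1 : (S + h * x) / 2 / h = (S / h + x) / 2 := by field_simp
    have e2 : (S - h * x) / 2 / h = (S / h - x) / 2 := by field_simp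
    have e3 : Q * (S ^ 2 - (h * x) ^ 2) = (Q * h ^ 2) * ((S / h) ^ 2 - x ^ 2) := by
      field_simp
    have e4 : k * (h * x) = (h * k) * x := by ring
    rw [e1, e2, e3, e4]
  simp only [h2] at h1
  have h3 := hC (S / h) (Q * h ^ 2) (h * k) (by positivity)
  rw [h1, norm_smul, Real.norm_eq_abs, abs_abs, abs_inv, abs_of_pos hh] at h3
  rw [inv_mul_le_iff₀ hh] at h3
  exact h3

theorem bound_cont (d : ℕ) (hd : 1 ≤ d) (h : ℝ) (hh : 0 < h) (τ : ℝ) (y z y' z' : Eu d) :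
    ContinuousOn (fun S : ℝ => ga d (S / d) (z' - z) / (1 + (h * τ * kp S y z y' z') ^ 2) ^ 2)
      (Icc (h / 64) (256 * h)) := by
  have hS : ∀ S ∈ Icc (h / 64) (256 * h), 0 < S := fun S hS => by
    have : 0 < h / 64 := by positivity
    linarith [hS.1]
  have hd' : (0 : ℝ) < d := by exact_mod_cast hd
  have hga : ContinuousOn (fun S : ℝ => ga d (S / d) (z' - z)) (Icc (h / 64) (256 * h)) := by
    unfold ga
    refine ContinuousOn.mul ?_ ?_
    · refine ContinuousOn.rpow_const (by fun_prop) fun S hS' => Or.inl ?_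
      have := hS S hS'
      positivity
    · refine Real.continuous_exp.comp_continuousOn ?_
      refine ContinuousOn.div continuousOn_const (by fun_prop) fun S hS' => ?_
      have := hS S hS'
      positivity
  have hkp : ContinuousOn (fun S : ℝ => kp S y z y' z') (Icc (h / 64) (256 * h)) := by
    unfold kp
    exact ContinuousOn.div continuousOn_const continuousOn_id fun S hS' => (hS S hS').ne'
  refine hga.div ?_ fun S _ => ?_
  · exact ((continuousOn_const.add ((continuousOn_const.mul hkp).pow 2)).pow 2)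
  · positivity

theorem pair (φ : ℝ → ℝ) (hφ : Bmp φ) : ∃ C : ℝ, 0 < C ∧ ∀ d : ℕ, 1 ≤ d → ∀ h : ℝ, 0 < h → ∀ τ : ℝ,
    ∀ y z y' z' : Eu d,
    ‖∫ x, Gf φ d h τ x y z * (starRingEnd ℂ) (Gf φ d h τ x y' z')‖ ≤
      C * h * ∫ S in Icc (h / 64) (256 * h),
        ga d (S / d) (z' - z) / (1 + (h * τ * kp S y z y' z') ^ 2) ^ 2 := by
  obtain ⟨C0, hC0, hC⟩ := osc φ hφ
  refine ⟨C0, hC0, fun d hd h hh τ y z y' z' => ?_⟩
  have hd' : (0 : ℝ) < d := by exact_mod_cast hd
  rw [pair1 φ hφ d hd h hh τ y z y' z', ← integral_const_mul]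
  refine norm_integral_le_of_norm_le ?_ ?_
  · exact ((bound_cont d hd h hh τ y z y' z').const_smul (C0 * h)).integrableOn_compact isCompact_Icc
  · refine (ae_restrict_mem measurableSet_Icc).mono fun S hS => ?_
    have hSpos : 0 < S := by
      have : 0 < h / 64 := by positivity
      linarith [hS.1]
    have hga : 0 < ga d (S / d) (z' - z) := ga_pos d _ (by positivity) _
    have h1 := inner_bd (φ := φ) hC h hh S (τ ^ 2 * ‖y - y'‖ ^ 2 / (2 * d * S))
      (τ * kp S y z y' z') (by positivity)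
    rw [norm_mul, norm_mul, norm_mul, Complex.norm_exp_I_mul_ofReal, mul_one, Complex.norm_real,
      Real.norm_eq_abs, abs_of_pos hga]
    have e1 : h * (τ * kp S y z y' z') = h * τ * kp S y z y' z' := by ring
    rw [e1] at h1
    have e2 : ‖(1 / 2 : ℂ)‖ = 1 / 2 := by norm_num
    rw [e2]
    have hden : 0 < (1 + (h * τ * kp S y z y' z') ^ 2) ^ 2 := by positivity
    have hb : 0 ≤ h * (C0 / (1 + (h * τ * kp S y z y' z') ^ 2) ^ 2) := by positivity
    calc 1 / 2 * ga d (S / d) (z' - z) * _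
        ≤ 1 / 2 * ga d (S / d) (z' - z) * (h * (C0 / (1 + (h * τ * kp S y z y' z') ^ 2) ^ 2)) :=
          mul_le_mul_of_nonneg_left h1 (by positivity)
      _ ≤ ga d (S / d) (z' - z) * (h * (C0 / (1 + (h * τ * kp S y z y' z') ^ 2) ^ 2)) := by
          apply mul_le_mul_of_nonneg_right _ hb
          linarith
      _ = C0 * h * (ga d (S / d) (z' - z) / (1 + (h * τ * kp S y z y' z') ^ 2) ^ 2) := by ring

end FM954
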