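import Mathlib
import Pool.Agent.Helper954.FM.Base

set_option autoImplicit false
open MeasureTheory Set Metric
open scoped ENNReal

namespace FM954

theorem tail1 (d : ℕ) (hd : 1 ≤ d) (S : ℝ) (hS : 0 < S) (v : Eu d) (hv : ‖v‖ ≤ 1) :
    ∫⁻ w : Eu d, {w : Eu d | S / 4 ≤ |inner ℝ w v|}.indicator
      (fun w => ENNReal.ofReal (ga d (S / d) w)) w ≤
      ENNReal.ofReal (2 * Real.exp (-(d * S / 32))) := by
  have hd' : (0:ℝ) < d := by exact_mod_cast hd
  have ht : 0 < S / (d:ℝ) := by positivity
  have hcont1 : Continuous (fun w : Eu d => ga d (S/d) w * Real.exp ((d/4:ℝ) * inner ℝ w v)) := by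
    refine (continuous_ga d _).mul (Real.continuous_exp.comp ?_)
    fun_prop
  have hcont2 : Continuous (fun w : Eu d => ga d (S/d) w * Real.exp ((-(d/4:ℝ)) * inner ℝ w v)) := by
    refine (continuous_ga d _).mul (Real.continuous_exp.comp ?_)
    fun_prop
  have hpt : ∀ w : Eu d, {w : Eu d | S / 4 ≤ |inner ℝ w v|}.indicator
      (fun w => ENNReal.ofReal (ga d (S / d) w)) w ≤
      ENNReal.ofReal (Real.exp (-(d * S / 16))) *
        (ENNReal.ofReal (ga d (S/d) w * Real.exp ((d/4:ℝ) * inner ℝ w v)) +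
          ENNReal.ofReal (ga d (S/d) w * Real.exp ((-(d/4:ℝ)) * inner ℝ w v))) := by
    intro w
    by_cases hw : w ∈ {w : Eu d | S / 4 ≤ |inner ℝ w v|}
    · rw [Set.indicator_of_mem hw]
      have hg := (ga_pos d _ ht w)
      rw [← ENNReal.ofReal_add (by positivity) (by positivity),
        ← ENNReal.ofReal_mul (by positivity)]
      apply ENNReal.ofReal_le_ofReal
      simp only [Set.mem_setOf_eq] at hw
      have key : 1 ≤ Real.exp (-(d * S / 16)) * (Real.exp ((d/4:ℝ) * inner ℝ w v) +
          Real.exp ((-(d/4:ℝ)) * inner ℝ w v)) := by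
        rw [mul_add, ← Real.exp_add, ← Real.exp_add]
        rcases le_abs.mp hw with h | h
        · have h1 : 1 ≤ Real.exp (-(d * S / 16) + (d/4:ℝ) * inner ℝ w v) := by
            apply Real.one_le_exp
            have := mul_le_mul_of_nonneg_left h (by positivity : (0:ℝ) ≤ d/4)
            linarith [this]
          have h2 := Real.exp_pos (-(d * S / 16) + (-(d/4:ℝ)) * inner ℝ w v)
          linarith
        · have h1 : 1 ≤ Real.exp (-(d * S / 16) + (-(d/4:ℝ)) * inner ℝ w v) := by
            apply Real.one_le_exp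
            have := mul_le_mul_of_nonneg_left h (by positivity : (0:ℝ) ≤ d/4)
            linarith [this]
          have h2 := Real.exp_pos (-(d * S / 16) + (d/4:ℝ) * inner ℝ w v)
          linarith
      calc ga d (S/d) w = ga d (S/d) w * 1 := (mul_one _).symm
        _ ≤ ga d (S/d) w * (Real.exp (-(d * S / 16)) * (Real.exp ((d/4:ℝ) * inner ℝ w v) +
          Real.exp ((-(d/4:ℝ)) * inner ℝ w v))) := mul_le_mul_of_nonneg_left key hg.le
        _ = _ := by ring
    · rw [Set.indicator_of_notMem hw]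
      exact zero_le
  calc _ ≤ ∫⁻ w : Eu d, ENNReal.ofReal (Real.exp (-(d * S / 16))) *
        (ENNReal.ofReal (ga d (S/d) w * Real.exp ((d/4:ℝ) * inner ℝ w v)) +
          ENNReal.ofReal (ga d (S/d) w * Real.exp ((-(d/4:ℝ)) * inner ℝ w v))) :=
        lintegral_mono hpt
    _ = ENNReal.ofReal (Real.exp (-(d * S / 16))) *
        (ENNReal.ofReal (Real.exp ((d/4:ℝ) ^ 2 * (S/d) * ‖v‖ ^ 2 / 2)) +
          ENNReal.ofReal (Real.exp ((-(d/4:ℝ)) ^ 2 * (S/d) * ‖v‖ ^ 2 / 2))) := by
        rw [lintegral_const_mul _ (by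
          exact (hcont1.measurable.ennreal_ofReal).add (hcont2.measurable.ennreal_ofReal)),
          lintegral_add_left (hcont1.measurable.ennreal_ofReal),
          lint_ga_exp d _ ht, lint_ga_exp d _ ht]
    _ ≤ _ := by
        rw [← ENNReal.ofReal_add (by positivity) (by positivity),
          ← ENNReal.ofReal_mul (by positivity)]
        apply ENNReal.ofReal_le_ofReal
        have h1 : (d/4:ℝ) ^ 2 * (S/d) * ‖v‖ ^ 2 / 2 ≤ d * S / 32 := by
          have h2 : ‖v‖ ^ 2 ≤ 1 := by
            have := norm_nonneg v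
            nlinarith
          have h3 : (d/4:ℝ) ^ 2 * (S/d) * ‖v‖ ^ 2 / 2 = (d * S / 32) * ‖v‖ ^ 2 := by
            field_simp
            ring
          rw [h3]
          calc (d * S / 32) * ‖v‖ ^ 2 ≤ (d * S / 32) * 1 :=
                mul_le_mul_of_nonneg_left h2 (by positivity)
            _ = _ := by ring
        have h4 : (-(d/4:ℝ)) ^ 2 * (S/d) * ‖v‖ ^ 2 / 2 = (d/4:ℝ) ^ 2 * (S/d) * ‖v‖ ^ 2 / 2 := by ring
        rw [h4]
        have h5 : Real.exp (-(d * S / 16)) * Real.exp ((d/4:ℝ) ^ 2 * (S/d) * ‖v‖ ^ 2 / 2) ≤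
            Real.exp (-(d * S / 32)) := by
          rw [← Real.exp_add]
          apply Real.exp_le_exp.mpr
          linarith
        linarith

theorem tail2 (d : ℕ) (hd : 1 ≤ d) (S : ℝ) (hS : 0 < S) :
    ∫⁻ w : Eu d, {w : Eu d | ‖w‖ ^ 2 ≤ 3 * S / 4}.indicator
      (fun w => ENNReal.ofReal (ga d (S / d) w)) w ≤
      ENNReal.ofReal (Real.exp (-(d / 100))) := by
  have hd' : (0:ℝ) < d := by exact_mod_cast hd
  have ht : 0 < S / (d:ℝ) := by positivity
  have h43 : 1 + 2 * ((d:ℝ) / (6 * S)) * (S / d) = 4 / 3 := by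
    field_simp
    norm_num
  have ht' : 0 < S / (d:ℝ) / (4/3) := by positivity
  have hpt : ∀ w : Eu d, {w : Eu d | ‖w‖ ^ 2 ≤ 3 * S / 4}.indicator
      (fun w => ENNReal.ofReal (ga d (S / d) w)) w ≤
      ENNReal.ofReal (Real.exp (d / 8) * (4/3 : ℝ) ^ (-(d : ℝ) / 2)) *
        ENNReal.ofReal (ga d (S / (d:ℝ) / (4/3)) (w - 0)) := by
    intro w
    by_cases hw : w ∈ {w : Eu d | ‖w‖ ^ 2 ≤ 3 * S / 4}
    · rw [Set.indicator_of_mem hw]
      have hg := (ga_pos d _ ht w)
      rw [← ENNReal.ofReal_mul (by positivity)]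
      apply ENNReal.ofReal_le_ofReal
      simp only [Set.mem_setOf_eq] at hw
      have hdamp := ga_damp d (S/d) ht ((d:ℝ) / (6 * S)) (by positivity) w
      rw [h43] at hdamp
      rw [sub_zero, mul_assoc, ← hdamp]
      have key : 1 ≤ Real.exp (d / 8) * Real.exp (-((d:ℝ) / (6 * S)) * ‖w‖ ^ 2) := by
        rw [← Real.exp_add]
        apply Real.one_le_exp
        have h1 : (d:ℝ) / (6 * S) * ‖w‖ ^ 2 ≤ (d:ℝ) / (6 * S) * (3 * S / 4) :=
          mul_le_mul_of_nonneg_left hw (by positivity)
        have h2 : (d:ℝ) / (6 * S) * (3 * S / 4) = d / 8 := by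
          field_simp
          norm_num
        linarith
      calc ga d (S/d) w = ga d (S/d) w * 1 := (mul_one _).symm
        _ ≤ ga d (S/d) w * (Real.exp (d / 8) * Real.exp (-((d:ℝ) / (6 * S)) * ‖w‖ ^ 2)) :=
            mul_le_mul_of_nonneg_left key hg.le
        _ = _ := by ring
    · rw [Set.indicator_of_notMem hw]
      exact zero_le
  calc _ ≤ ∫⁻ w : Eu d, ENNReal.ofReal (Real.exp (d / 8) * (4/3 : ℝ) ^ (-(d : ℝ) / 2)) *
        ENNReal.ofReal (ga d (S / (d:ℝ) / (4/3)) (w - 0)) := lintegral_mono hpt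
    _ = ENNReal.ofReal (Real.exp (d / 8) * (4/3 : ℝ) ^ (-(d : ℝ) / 2)) := by
        rw [lintegral_const_mul _ (by
          exact ((continuous_ga d _).comp (continuous_id.sub continuous_const)).measurable.ennreal_ofReal),
          lintegral_ga d _ ht' 0, mul_one]
    _ ≤ _ := by
        apply ENNReal.ofReal_le_ofReal
        rw [Real.rpow_def_of_pos (by norm_num), ← Real.exp_add]
        apply Real.exp_le_exp.mpr
        have hlog : (27/100 : ℝ) ≤ Real.log (4/3) := by
          have h1 : (3/4:ℝ) ≤ Real.exp (-(27/100)) := by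
            have h2 : (91/100 : ℝ) ≤ Real.exp (-(9/100)) := by
              have := Real.add_one_le_exp (-(9/100) : ℝ)
              linarith
            have h3 : Real.exp (-(27/100)) = Real.exp (-(9/100)) ^ 3 := by
              rw [← Real.exp_nat_mul]
              congr 1
              norm_num
            rw [h3]
            calc (3/4:ℝ) ≤ (91/100:ℝ)^3 := by norm_num
              _ ≤ _ := by gcongr
          have h4 : Real.log (3/4) ≤ -(27/100) := (Real.log_le_iff_le_exp (by norm_num)).mpr h1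
          have h5 : Real.log (4/3) = - Real.log (3/4) := by
            rw [← Real.log_inv]
            norm_num
          linarith
        nlinarith

end FM954
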