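import Mathlib
import Pool.Agent.Helper954.FM.Base
import Pool.Agent.Helper954.FM.X1

set_option autoImplicit false
open MeasureTheory Set Metric
open scoped ENNReal

namespace FM954

theorem x2_meas_ga (d : ℕ) (t : ℝ) : Measurable (fun w : Eu d => ENNReal.ofReal (ga d t w)) :=
  (continuous_ga d t).measurable.ennreal_ofReal

theorem x2_pt (d : ℕ) (hd : 32 ≤ d) (S : ℝ) (hS : 0 < S) (h τ : ℝ) (y z y' z' : Eu d) :
    ENNReal.ofReal (ga d (S / d) (z' - z) / (1 + (h * τ * kp S y z y' z') ^ 2) ^ 2) ≤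
      ENNReal.ofReal (256 / (1 + (h * τ) ^ 2) ^ 2) * ENNReal.ofReal (ga d (S / d) (z' - z)) +
      {w : Eu d | ‖w‖ ^ 2 ≤ 3 * S / 4}.indicator
        (fun w => ENNReal.ofReal (ga d (S / d) w)) (z' - z) +
      {w : Eu d | S / 4 ≤ |inner ℝ w (z - y)|}.indicator
        (fun w => ENNReal.ofReal (ga d (S / d) w)) (z' - z) +
      {w : Eu d | S / 4 ≤ |inner ℝ w (z' - y')|}.indicator
        (fun w => ENNReal.ofReal (ga d (S / d) w)) (z' - z) := by
  have hdpos : (0 : ℝ) < d := by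
    have : 0 < d := by omega
    exact_mod_cast this
  have hga : 0 < ga d (S / d) (z' - z) := ga_pos d _ (by positivity) _
  have hden : 1 ≤ (1 + (h * τ * kp S y z y' z') ^ 2) ^ 2 := by
    apply one_le_pow₀
    have := sq_nonneg (h * τ * kp S y z y' z')
    linarith
  have hG : ENNReal.ofReal (ga d (S / d) (z' - z) / (1 + (h * τ * kp S y z y' z') ^ 2) ^ 2) ≤
      ENNReal.ofReal (ga d (S / d) (z' - z)) :=
    ENNReal.ofReal_le_ofReal (div_le_self hga.le hden)
  by_cases h1 : ‖z' - z‖ ^ 2 ≤ 3 * S / 4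
  · have e : {w : Eu d | ‖w‖ ^ 2 ≤ 3 * S / 4}.indicator
        (fun w => ENNReal.ofReal (ga d (S / d) w)) (z' - z) =
        ENNReal.ofReal (ga d (S / d) (z' - z)) := by
      rw [Set.indicator_of_mem]
      exact h1
    rw [e]
    exact le_trans hG (le_trans (le_trans le_add_self le_self_add) le_self_add)
  by_cases h2 : S / 4 ≤ |inner ℝ (z' - z) (z - y)|
  · have e : {w : Eu d | S / 4 ≤ |inner ℝ w (z - y)|}.indicator
        (fun w => ENNReal.ofReal (ga d (S / d) w)) (z' - z) =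
        ENNReal.ofReal (ga d (S / d) (z' - z)) := by
      rw [Set.indicator_of_mem]
      exact h2
    rw [e]
    exact le_trans hG (le_trans le_add_self le_self_add)
  by_cases h3 : S / 4 ≤ |inner ℝ (z' - z) (z' - y')|
  · have e : {w : Eu d | S / 4 ≤ |inner ℝ w (z' - y')|}.indicator
        (fun w => ENNReal.ofReal (ga d (S / d) w)) (z' - z) =
        ENNReal.ofReal (ga d (S / d) (z' - z)) := by
      rw [Set.indicator_of_mem]
      exact h3
    rw [e]
    exact le_trans hG le_add_self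
  push Not at h1 h2 h3
  refine le_trans ?_ (le_trans (le_trans le_self_add le_self_add) le_self_add)
  rw [← ENNReal.ofReal_mul (by positivity)]
  apply ENNReal.ofReal_le_ofReal
  have hk : 1 / 4 ≤ kp S y z y' z' := by
    unfold kp
    rw [le_div_iff₀ hS, inner_sub_right]
    have e1 := (abs_lt.1 h2).1
    have e2 := (abs_lt.1 h3).2
    linarith
  have hk2 : (h * τ) ^ 2 / 16 ≤ (h * τ * kp S y z y' z') ^ 2 := by
    have e1 : (1 / 4 : ℝ) ^ 2 ≤ kp S y z y' z' ^ 2 := pow_le_pow_left₀ (by norm_num) hk 2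
    rw [mul_pow]
    have e2 := mul_le_mul_of_nonneg_left e1 (sq_nonneg (h * τ))
    linarith
  have hk3 : (1 + (h * τ) ^ 2) / 16 ≤ 1 + (h * τ * kp S y z y' z') ^ 2 := by linarith
  have hpos : 0 < 1 + (h * τ) ^ 2 := by positivity
  have hk4 : ((1 + (h * τ) ^ 2) / 16) ^ 2 ≤ (1 + (h * τ * kp S y z y' z') ^ 2) ^ 2 :=
    pow_le_pow_left₀ (by positivity) hk3 2
  have hk5 : (1 + (h * τ) ^ 2) ^ 2 / 256 ≤ (1 + (h * τ * kp S y z y' z') ^ 2) ^ 2 := by
    have e1 : ((1 + (h * τ) ^ 2) / 16) ^ 2 = (1 + (h * τ) ^ 2) ^ 2 / 256 := by ring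
    rw [← e1]
    exact hk4
  calc ga d (S / d) (z' - z) / (1 + (h * τ * kp S y z y' z') ^ 2) ^ 2 ≤
      ga d (S / d) (z' - z) / ((1 + (h * τ) ^ 2) ^ 2 / 256) := by
        apply div_le_div_of_nonneg_left hga.le (by positivity) hk5
    _ = 256 / (1 + (h * τ) ^ 2) ^ 2 * ga d (S / d) (z' - z) := by
        field_simp

theorem x2_add {Q : Type} [MeasurableSpace Q] (μ : Measure Q) [SFinite μ] (f g : Q → Q → ENNReal)
    (hf : Measurable (Function.uncurry f)) :
    ∫⁻ q, ∫⁻ q', (f q q' + g q q') ∂μ ∂μ =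
      ∫⁻ q, ∫⁻ q', f q q' ∂μ ∂μ + ∫⁻ q, ∫⁻ q', g q q' ∂μ ∂μ := by
  rw [← lintegral_add_left hf.lintegral_prod_right]
  refine lintegral_congr fun q => ?_
  rw [lintegral_add_left (hf.of_uncurry_left)]

theorem x2_add3 {Q : Type} [MeasurableSpace Q] (μ : Measure Q) [SFinite μ]
    (f1 f2 f3 f4 : Q → Q → ENNReal)
    (h1 : Measurable (Function.uncurry f1)) (h2 : Measurable (Function.uncurry f2))
    (h3 : Measurable (Function.uncurry f3)) :
    ∫⁻ q, ∫⁻ q', (f1 q q' + f2 q q' + f3 q q' + f4 q q') ∂μ ∂μ =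
      ∫⁻ q, ∫⁻ q', f1 q q' ∂μ ∂μ + ∫⁻ q, ∫⁻ q', f2 q q' ∂μ ∂μ + ∫⁻ q, ∫⁻ q', f3 q q' ∂μ ∂μ +
        ∫⁻ q, ∫⁻ q', f4 q q' ∂μ ∂μ := by
  have h12 : Measurable (Function.uncurry fun q q' => f1 q q' + f2 q q') := h1.add h2
  have h123 : Measurable (Function.uncurry fun q q' => f1 q q' + f2 q q' + f3 q q') := h12.add h3
  rw [x2_add μ (fun q q' => f1 q q' + f2 q q' + f3 q q') f4 h123,
    x2_add μ (fun q q' => f1 q q' + f2 q q') f3 h12, x2_add μ f1 f2 h1]

theorem x2_meas_ind {Q : Type} [MeasurableSpace Q] {d : ℕ} (S t : ℝ) (V W : Q → Eu d)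
    (hV : Measurable V) (hW : Measurable W) :
    Measurable (fun p => {w : Eu d | S / 4 ≤ |inner ℝ w (V p)|}.indicator
        (fun w => ENNReal.ofReal (ga d t w)) (W p)) := by
  classical
  have e : (fun p => {w : Eu d | S / 4 ≤ |inner ℝ w (V p)|}.indicator
        (fun w => ENNReal.ofReal (ga d t w)) (W p)) =
      fun p => if S / 4 ≤ |inner ℝ (W p) (V p)| then ENNReal.ofReal (ga d t (W p)) else 0 := by
    funext p
    rw [Set.indicator_apply]
    rfl
  rw [e]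
  refine Measurable.ite ?_ ((x2_meas_ga d t).comp hW) measurable_const
  exact measurableSet_le measurable_const (continuous_abs.measurable.comp (hW.inner hV))

theorem x2_meas_ind1 (d : ℕ) (S t : ℝ) :
    Measurable ({w : Eu d | ‖w‖ ^ 2 ≤ 3 * S / 4}.indicator
        (fun w => ENNReal.ofReal (ga d t w))) :=
  (x2_meas_ga d t).indicator (measurableSet_le (measurable_norm.pow_const 2) measurable_const)

theorem x2_S {d : ℕ} (hd : 32 ≤ d) (h : ℝ) (hh : 0 < h) (hh1 : h ≤ 1) (τ : ℝ) (lam : ENNReal)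
    {Q : Type} [MeasurableSpace Q] (μ : Measure Q) (Y Z : Q → Eu d) (D : Dat d 1 lam μ Y Z)
    (S : ℝ) (hS1 : h / 64 ≤ S) :
    ∫⁻ q, ∫⁻ q', ENNReal.ofReal (ga d (S / d) (Z q' - Z q) /
        (1 + (h * τ * kp S (Y q) (Z q) (Y q') (Z q')) ^ 2) ^ 2) ∂μ ∂μ ≤
      ENNReal.ofReal (256 * (1 / (1 + (h * τ) ^ 2) ^ 2 + Real.exp (-(1 / 2048 * d * h)))) *
        lam * μ univ := by
  have hfin := D.fin
  have hS : 0 < S := by linarith
  have hdpos : (0 : ℝ) < d := by
    have : 0 < d := by omega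
    exact_mod_cast this
  have hd1 : (1 : ℝ) ≤ d := by
    have : 1 ≤ d := by omega
    exact_mod_cast this
  have hSd : 0 < S / d := by positivity
  have hZ := D.mZ
  have hY := D.mY
  have hZ1 : Measurable fun p : Q × Q => Z p.2 - Z p.1 :=
    (hZ.comp measurable_snd).sub (hZ.comp measurable_fst)
  -- the four terms
  have m1 : Measurable (Function.uncurry fun q q' : Q =>
      ENNReal.ofReal (256 / (1 + (h * τ) ^ 2) ^ 2) * ENNReal.ofReal (ga d (S / d) (Z q' - Z q))) :=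
    ((x2_meas_ga d (S / d)).comp hZ1).const_mul _
  have m2 : Measurable (Function.uncurry fun q q' : Q =>
      {w : Eu d | ‖w‖ ^ 2 ≤ 3 * S / 4}.indicator
        (fun w => ENNReal.ofReal (ga d (S / d) w)) (Z q' - Z q)) :=
    (x2_meas_ind1 d S (S / d)).comp hZ1
  have m3 : Measurable (Function.uncurry fun q q' : Q =>
      {w : Eu d | S / 4 ≤ |inner ℝ w (Z q - Y q)|}.indicator
        (fun w => ENNReal.ofReal (ga d (S / d) w)) (Z q' - Z q)) :=
    x2_meas_ind S (S / d) (fun p : Q × Q => Z p.1 - Y p.1) (fun p : Q × Q => Z p.2 - Z p.1)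
      ((hZ.comp measurable_fst).sub (hY.comp measurable_fst)) hZ1
  have m4 : Measurable (Function.uncurry fun q q' : Q =>
      {w : Eu d | S / 4 ≤ |inner ℝ w (Z q' - Y q')|}.indicator
        (fun w => ENNReal.ofReal (ga d (S / d) w)) (Z q' - Z q)) :=
    x2_meas_ind S (S / d) (fun p : Q × Q => Z p.2 - Y p.2) (fun p : Q × Q => Z p.2 - Z p.1)
      ((hZ.comp measurable_snd).sub (hY.comp measurable_snd)) hZ1
  have b1 : ∫⁻ q, ∫⁻ q', (ENNReal.ofReal (256 / (1 + (h * τ) ^ 2) ^ 2) *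
      ENNReal.ofReal (ga d (S / d) (Z q' - Z q))) ∂μ ∂μ ≤
      ENNReal.ofReal (256 / (1 + (h * τ) ^ 2) ^ 2) * lam * μ univ := by
    rw [← lintegral_const]
    refine lintegral_mono fun q => ?_
    have hm : Measurable fun q' => ENNReal.ofReal (ga d (S / d) (Z q' - Z q)) :=
      (x2_meas_ga d (S / d)).comp (hZ.sub_const (Z q))
    rw [lintegral_const_mul _ hm]
    refine mul_le_mul_right (le_trans (D.marg
      (fun z => ENNReal.ofReal (ga d (S / d) (z - Z q)))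
      ((x2_meas_ga d (S / d)).comp (measurable_id.sub_const (Z q)))) ?_) _
    rw [lintegral_ga d (S / d) hSd (Z q), mul_one]
  have b2 : ∫⁻ q, ∫⁻ q', ({w : Eu d | ‖w‖ ^ 2 ≤ 3 * S / 4}.indicator
        (fun w => ENNReal.ofReal (ga d (S / d) w)) (Z q' - Z q)) ∂μ ∂μ ≤
      ENNReal.ofReal (Real.exp (-(d / 100))) * lam * μ univ := by
    rw [← lintegral_const]
    refine lintegral_mono fun q => ?_
    refine le_trans (D.marg (fun z => {w : Eu d | ‖w‖ ^ 2 ≤ 3 * S / 4}.indicator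
        (fun w => ENNReal.ofReal (ga d (S / d) w)) (z - Z q))
      ((x2_meas_ind1 d S (S / d)).comp (measurable_id.sub_const (Z q)))) ?_
    rw [lintegral_sub_right_eq_self, mul_comm]
    exact mul_le_mul_left (tail2 d (by omega) S hS) _
  have b3 : ∫⁻ q, ∫⁻ q', ({w : Eu d | S / 4 ≤ |inner ℝ w (Z q - Y q)|}.indicator
        (fun w => ENNReal.ofReal (ga d (S / d) w)) (Z q' - Z q)) ∂μ ∂μ ≤
      ENNReal.ofReal (2 * Real.exp (-(d * S / 32))) * lam * μ univ := by
    rw [← lintegral_const]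
    refine lintegral_mono fun q => ?_
    refine le_trans (D.marg (fun z => {w : Eu d | S / 4 ≤ |inner ℝ w (Z q - Y q)|}.indicator
        (fun w => ENNReal.ofReal (ga d (S / d) w)) (z - Z q))
      (x2_meas_ind S (S / d) (fun _ => Z q - Y q) (fun z => z - Z q) measurable_const
        (measurable_id.sub_const (Z q)))) ?_
    rw [lintegral_sub_right_eq_self (fun z => {w : Eu d | S / 4 ≤
      |inner ℝ w (Z q - Y q)|}.indicator (fun w => ENNReal.ofReal (ga d (S / d) w)) z), mul_comm]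
    exact mul_le_mul_left (tail1 d (by omega) S hS _ (D.close q)) _
  have b4 : ∫⁻ q, ∫⁻ q', ({w : Eu d | S / 4 ≤ |inner ℝ w (Z q' - Y q')|}.indicator
        (fun w => ENNReal.ofReal (ga d (S / d) w)) (Z q' - Z q)) ∂μ ∂μ ≤
      ENNReal.ofReal (2 * Real.exp (-(d * S / 32))) * lam * μ univ := by
    rw [lintegral_lintegral_swap m4.aemeasurable, ← lintegral_const]
    refine lintegral_mono fun q' => ?_
    refine le_trans (D.marg (fun z => {w : Eu d | S / 4 ≤ |inner ℝ w (Z q' - Y q')|}.indicator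
        (fun w => ENNReal.ofReal (ga d (S / d) w)) (Z q' - z))
      (x2_meas_ind S (S / d) (fun _ => Z q' - Y q') (fun z => Z q' - z) measurable_const
        (measurable_const.sub measurable_id))) ?_
    rw [lintegral_sub_left_eq_self (fun z => {w : Eu d | S / 4 ≤
      |inner ℝ w (Z q' - Y q')|}.indicator (fun w => ENNReal.ofReal (ga d (S / d) w)) z), mul_comm]
    exact mul_le_mul_left (tail1 d (by omega) S hS _ (D.close q')) _
  have hsum : ∫⁻ q, ∫⁻ q', ENNReal.ofReal (ga d (S / d) (Z q' - Z q) /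
        (1 + (h * τ * kp S (Y q) (Z q) (Y q') (Z q')) ^ 2) ^ 2) ∂μ ∂μ ≤
      ENNReal.ofReal (256 / (1 + (h * τ) ^ 2) ^ 2) * lam * μ univ +
      ENNReal.ofReal (Real.exp (-(d / 100))) * lam * μ univ +
      ENNReal.ofReal (2 * Real.exp (-(d * S / 32))) * lam * μ univ +
      ENNReal.ofReal (2 * Real.exp (-(d * S / 32))) * lam * μ univ := by
    refine le_trans (lintegral_mono fun q => lintegral_mono fun q' =>
      x2_pt d hd S hS h τ (Y q) (Z q) (Y q') (Z q')) ?_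
    rw [x2_add3 μ _ _ _ _ m1 m2 m3]
    exact add_le_add (add_le_add (add_le_add b1 b2) b3) b4
  refine le_trans hsum ?_
  rw [← add_mul, ← add_mul, ← add_mul, ← add_mul, ← add_mul, ← add_mul,
    ← ENNReal.ofReal_add (by positivity) (by positivity),
    ← ENNReal.ofReal_add (by positivity) (by positivity),
    ← ENNReal.ofReal_add (by positivity) (by positivity)]
  refine mul_le_mul_left (mul_le_mul_left (ENNReal.ofReal_le_ofReal ?_) _) _
  have e1 : Real.exp (-(d / 100 : ℝ)) ≤ Real.exp (-(1 / 2048 * d * h)) := by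
    apply Real.exp_le_exp.2
    have : (d : ℝ) * h ≤ d := by nlinarith
    linarith
  have e2 : Real.exp (-(d * S / 32 : ℝ)) ≤ Real.exp (-(1 / 2048 * d * h)) := by
    apply Real.exp_le_exp.2
    have : (d : ℝ) * (h / 64) ≤ d * S := mul_le_mul_of_nonneg_left hS1 hdpos.le
    linarith
  have e3 : 256 / (1 + (h * τ) ^ 2) ^ 2 = 256 * (1 / (1 + (h * τ) ^ 2) ^ 2) := by ring
  have e4 := Real.exp_pos (-(1 / 2048 * (d : ℝ) * h))
  rw [e3]
  linarith

theorem x2_measF (d : ℕ) {Q : Type} [MeasurableSpace Q] (h τ : ℝ) (Y Z : Q → Eu d)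
    (hY : Measurable Y) (hZ : Measurable Z) :
    Measurable (fun p : Q × Q × ℝ => ENNReal.ofReal (ga d (p.2.2 / d) (Z p.2.1 - Z p.1) /
        (1 + (h * τ * kp p.2.2 (Y p.1) (Z p.1) (Y p.2.1) (Z p.2.1)) ^ 2) ^ 2)) := by
  have h1 : Measurable fun p : Q × Q × ℝ => Z p.1 := hZ.comp measurable_fst
  have h2 : Measurable fun p : Q × Q × ℝ => Y p.1 := hY.comp measurable_fst
  have h3 : Measurable fun p : Q × Q × ℝ => Z p.2.1 :=
    hZ.comp (measurable_fst.comp measurable_snd)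
  have h4 : Measurable fun p : Q × Q × ℝ => Y p.2.1 :=
    hY.comp (measurable_fst.comp measurable_snd)
  have h5 : Measurable fun p : Q × Q × ℝ => p.2.2 := measurable_snd.comp measurable_snd
  apply Measurable.ennreal_ofReal
  unfold ga kp
  have h6 : Measurable fun p : Q × Q × ℝ =>
      (inner ℝ (Z p.2.1 - Z p.1) ((Z p.1 - Y p.1) - (Z p.2.1 - Y p.2.1)) : ℝ) :=
    (h3.sub h1).inner ((h1.sub h2).sub (h3.sub h4))
  have h7 : Measurable fun p : Q × Q × ℝ => ‖Z p.2.1 - Z p.1‖ := (h3.sub h1).norm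
  have h8 : Measurable fun p : Q × Q × ℝ => (2 * Real.pi * (p.2.2 / d)) ^ (-(d : ℝ) / 2) :=
    (measurable_const.mul (h5.div_const _)).pow_const _
  have h9 : Measurable fun p : Q × Q × ℝ =>
      Real.exp (-‖Z p.2.1 - Z p.1‖ ^ 2 / (2 * (p.2.2 / d))) :=
    Real.measurable_exp.comp (((h7.pow_const 2).neg).div
      (measurable_const.mul (h5.div_const _)))
  refine (h8.mul h9).div ?_
  refine (measurable_const.add ?_).pow_const 2
  refine (measurable_const.mul ?_).pow_const 2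
  exact ((h7.pow_const 2).add h6).div h5

theorem exc : ∃ C c : ℝ, 0 < C ∧ 0 < c ∧ ∀ d : ℕ, 32 ≤ d → ∀ h : ℝ, 0 < h → h ≤ 1 → ∀ τ : ℝ,
    ∀ (lam : ENNReal) {Q : Type} [MeasurableSpace Q] (μ : Measure Q) (Y Z : Q → Eu d),
    Dat d 1 lam μ Y Z →
    ∫⁻ q, ∫⁻ q', (∫⁻ S in Icc (h / 64) (256 * h),
      ENNReal.ofReal (ga d (S / d) (Z q' - Z q) /
        (1 + (h * τ * kp S (Y q) (Z q) (Y q') (Z q')) ^ 2) ^ 2)) ∂μ ∂μ ≤
      ENNReal.ofReal (C * h * (1 / (1 + (h * τ) ^ 2) ^ 2 + Real.exp (-(c * d * h)))) * lam * μ univ := by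
  refine ⟨256 * 256, 1 / 2048, by norm_num, by norm_num, ?_⟩
  intro d hd h hh hh1 τ lam Q _ μ Y Z D
  have hfin := D.fin
  have hF := x2_measF d h τ Y Z D.mY D.mZ
  obtain ⟨F, hFdef⟩ : ∃ F : Q → Q → ℝ → ENNReal, F = fun q q' S =>
      ENNReal.ofReal (ga d (S / d) (Z q' - Z q) /
        (1 + (h * τ * kp S (Y q) (Z q) (Y q') (Z q')) ^ 2) ^ 2) := ⟨_, rfl⟩
  have hF' : Measurable (fun p : Q × Q × ℝ => F p.1 p.2.1 p.2.2) := by
    rw [hFdef]
    exact hF
  have e1 : ∫⁻ q, ∫⁻ q', (∫⁻ S in Icc (h / 64) (256 * h), F q q' S) ∂μ ∂μ =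
      ∫⁻ S in Icc (h / 64) (256 * h), ∫⁻ q, ∫⁻ q', F q q' S ∂μ ∂μ := by
    have e2 : ∀ q, ∫⁻ q', (∫⁻ S in Icc (h / 64) (256 * h), F q q' S) ∂μ =
        ∫⁻ S in Icc (h / 64) (256 * h), ∫⁻ q', F q q' S ∂μ := by
      intro q
      apply lintegral_lintegral_swap
      apply Measurable.aemeasurable
      exact hF'.comp (measurable_const.prodMk measurable_id)
    rw [lintegral_congr e2]
    apply lintegral_lintegral_swap
    apply Measurable.aemeasurable
    have e3 : Measurable fun p : (Q × ℝ) × Q => F p.1.1 p.2 p.1.2 :=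
      hF'.comp ((measurable_fst.comp measurable_fst).prodMk
        (measurable_snd.prodMk (measurable_snd.comp measurable_fst)))
    exact e3.lintegral_prod_right'
  have e4 : ∫⁻ q, ∫⁻ q', (∫⁻ S in Icc (h / 64) (256 * h),
      ENNReal.ofReal (ga d (S / d) (Z q' - Z q) /
        (1 + (h * τ * kp S (Y q) (Z q) (Y q') (Z q')) ^ 2) ^ 2)) ∂μ ∂μ =
      ∫⁻ q, ∫⁻ q', (∫⁻ S in Icc (h / 64) (256 * h), F q q' S) ∂μ ∂μ := by
    simp only [hFdef]
  rw [e4, e1]
  obtain ⟨K, hK⟩ : ∃ K, K = ENNReal.ofReal (256 * (1 / (1 + (h * τ) ^ 2) ^ 2 +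
    Real.exp (-(1 / 2048 * d * h)))) * lam * μ univ := ⟨_, rfl⟩
  have e5 : ∫⁻ S in Icc (h / 64) (256 * h), ∫⁻ q, ∫⁻ q', F q q' S ∂μ ∂μ ≤
      ∫⁻ _S in Icc (h / 64) (256 * h), K := by
    refine setLIntegral_mono' measurableSet_Icc fun S hS => ?_
    rw [hK, hFdef]
    exact x2_S hd h hh hh1 τ lam μ Y Z D S hS.1
  refine le_trans e5 ?_
  rw [setLIntegral_const, Real.volume_Icc]
  have e6 : ENNReal.ofReal (256 * h - h / 64) ≤ ENNReal.ofReal (256 * h) :=
    ENNReal.ofReal_le_ofReal (by linarith)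
  refine le_trans (mul_le_mul_right e6 K) ?_
  have e7 : ENNReal.ofReal (256 * 256 * h * (1 / (1 + (h * τ) ^ 2) ^ 2 +
      Real.exp (-(1 / 2048 * d * h)))) = ENNReal.ofReal (256 * h) *
        ENNReal.ofReal (256 * (1 / (1 + (h * τ) ^ 2) ^ 2 +
    Real.exp (-(1 / 2048 * d * h)))) := by
    rw [← ENNReal.ofReal_mul (by positivity)]
    congr 1
    ring
  rw [e7, hK]
  apply le_of_eq
  ring

end FM954
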