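import Mathlib
import Pool.Agent.Helper954.FM.Base
import Pool.Agent.Helper954.FM.P2
import Pool.Agent.Helper954.FM.X2

set_option autoImplicit false
open MeasureTheory Set Metric
open scoped ENNReal

namespace FM954

/-- the extended nonnegative version of `Nf` -/
noncomputable def cpN (φ : ℝ → ℝ) (d : ℕ) (h : ℝ) (a : Eu d) : ENNReal :=
  ∫⁻ s in Ioi (0 : ℝ), ENNReal.ofReal (φ (s / h) * ga d (s / d) a)

theorem cp_jm (φ : ℝ → ℝ) (hφ : Bmp φ) (d : ℕ) (h : ℝ) :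
    Measurable (fun p : Eu d × ℝ => φ (p.2 / h) * ga d (p.2 / d) p.1) := by
  have hc : Measurable φ := hφ.smooth.continuous.measurable
  unfold ga
  fun_prop

theorem cp_mN (φ : ℝ → ℝ) (hφ : Bmp φ) (d : ℕ) (h : ℝ) : Measurable (cpN φ d h) :=
  Measurable.lintegral_prod_right' (f := fun p : Eu d × ℝ =>
    ENNReal.ofReal (φ (p.2 / h) * ga d (p.2 / d) p.1)) (cp_jm φ hφ d h).ennreal_ofReal

theorem cp_mNf (φ : ℝ → ℝ) (hφ : Bmp φ) (d : ℕ) (h : ℝ) : Measurable (Nf φ d h) :=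
  (StronglyMeasurable.integral_prod_right' (f := fun p : Eu d × ℝ =>
    φ (p.2 / h) * ga d (p.2 / d) p.1) (cp_jm φ hφ d h).stronglyMeasurable).measurable

theorem cp_nn (φ : ℝ → ℝ) (hφ : Bmp φ) (d : ℕ) (hd : 0 < d) (h s : ℝ) (hs : 0 < s) (a : Eu d) :
    0 ≤ φ (s / h) * ga d (s / d) a :=
  mul_nonneg (hφ.nonneg _) (ga_pos d _ (div_pos hs (by exact_mod_cast hd)) a).le

theorem cp_le (φ : ℝ → ℝ) (hφ : Bmp φ) (d : ℕ) (hd : 0 < d) (h : ℝ) (a : Eu d) :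
    ‖Nf φ d h a‖ₑ ≤ cpN φ d h a := by
  unfold Nf cpN
  refine (enorm_integral_le_lintegral_enorm _).trans ?_
  apply setLIntegral_mono' measurableSet_Ioi
  intro s hs
  rw [Real.enorm_of_nonneg (cp_nn φ hφ d hd h s hs a)]

theorem cp_M1 (φ : ℝ → ℝ) (hφ : Bmp φ) (d : ℕ) (hd : 0 < d) (h : ℝ) (z : Eu d) :
    ∫⁻ x, cpN φ d h (x - z) = ∫⁻ s in Ioi (0 : ℝ), ENNReal.ofReal (φ (s / h)) := by
  unfold cpN
  have hm : Measurable (fun p : Eu d × ℝ => ENNReal.ofReal (φ (p.2 / h) * ga d (p.2 / d) (p.1 - z))) := by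
    have h1 := (cp_jm φ hφ d h).ennreal_ofReal
    have h2 : Measurable (fun p : Eu d × ℝ => (p.1 - z, p.2)) := by fun_prop
    exact h1.comp h2
  rw [lintegral_lintegral_swap hm.aemeasurable]
  apply setLIntegral_congr_fun measurableSet_Ioi
  intro s hs
  simp only
  have h3 : ∀ x : Eu d, ENNReal.ofReal (φ (s / h) * ga d (s / d) (x - z))
      = ENNReal.ofReal (φ (s / h)) * ENNReal.ofReal (ga d (s / d) (x - z)) :=
    fun x => ENNReal.ofReal_mul (hφ.nonneg _)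
  simp_rw [h3]
  rw [lintegral_const_mul' _ _ ENNReal.ofReal_ne_top,
    lintegral_ga d _ (div_pos hs (by exact_mod_cast hd)), mul_one]

theorem cp_M2 (φ : ℝ → ℝ) (hφ : Bmp φ) (d : ℕ) (hd : 0 < d) (h : ℝ) (x : Eu d) :
    ∫⁻ z, cpN φ d h (x - z) = ∫⁻ s in Ioi (0 : ℝ), ENNReal.ofReal (φ (s / h)) := by
  unfold cpN
  have hm : Measurable (fun p : Eu d × ℝ => ENNReal.ofReal (φ (p.2 / h) * ga d (p.2 / d) (x - p.1))) := by
    have h1 := (cp_jm φ hφ d h).ennreal_ofReal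
    have h2 : Measurable (fun p : Eu d × ℝ => (x - p.1, p.2)) := by fun_prop
    exact h1.comp h2
  rw [lintegral_lintegral_swap hm.aemeasurable]
  apply setLIntegral_congr_fun measurableSet_Ioi
  intro s hs
  simp only
  have h3 : ∀ z : Eu d, ENNReal.ofReal (φ (s / h) * ga d (s / d) (x - z))
      = ENNReal.ofReal (φ (s / h)) * ENNReal.ofReal (ga d (s / d) (x - z)) :=
    fun x => ENNReal.ofReal_mul (hφ.nonneg _)
  simp_rw [h3]
  rw [lintegral_const_mul' _ _ ENNReal.ofReal_ne_top,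
    lintegral_ga2 d _ (div_pos hs (by exact_mod_cast hd)), mul_one]

theorem cp_Mfin (φ : ℝ → ℝ) (hφ : Bmp φ) (h : ℝ) (hh : 0 < h) :
    ∫⁻ s in Ioi (0 : ℝ), ENNReal.ofReal (φ (s / h)) ≠ ⊤ := by
  obtain ⟨K, hK⟩ := (isCompact_Icc (a := (0 : ℝ)) (b := 128)).exists_bound_of_continuousOn
    hφ.smooth.continuous.continuousOn
  have h1 : ∫⁻ s in Ioi (0 : ℝ), ENNReal.ofReal (φ (s / h)) ≤
      ∫⁻ s in Ioi (0 : ℝ), (Icc (0 : ℝ) (128 * h)).indicator (fun _ => ENNReal.ofReal K) s := by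
    apply setLIntegral_mono' measurableSet_Ioi
    intro s hs
    have hs' : 0 < s := hs
    by_cases hsh : s ≤ 128 * h
    · rw [indicator_of_mem (show s ∈ Icc (0 : ℝ) (128 * h) from ⟨hs'.le, hsh⟩)]
      apply ENNReal.ofReal_le_ofReal
      have := hK (s / h) ⟨(div_pos hs' hh).le, by rwa [div_le_iff₀ hh]⟩
      exact (le_abs_self _).trans this
    · push Not at hsh
      rw [hφ.supp (s / h) (Or.inr (by rwa [lt_div_iff₀ hh])), ENNReal.ofReal_zero]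
      exact zero_le
  have h2 : ∫⁻ s in Ioi (0 : ℝ), (Icc (0 : ℝ) (128 * h)).indicator (fun _ => ENNReal.ofReal K) s
      ≤ ∫⁻ s, (Icc (0 : ℝ) (128 * h)).indicator (fun _ => ENNReal.ofReal K) s :=
    setLIntegral_le_lintegral _ _
  refine ne_top_of_le_ne_top ?_ (h1.trans h2)
  rw [lintegral_indicator_const measurableSet_Icc]
  apply ENNReal.mul_ne_top ENNReal.ofReal_ne_top
  rw [Real.volume_Icc]
  exact ENNReal.ofReal_ne_top

theorem cp_Gle (φ : ℝ → ℝ) (hφ : Bmp φ) (d : ℕ) (hd : 0 < d) (h τ : ℝ) (x y z : Eu d) :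
    ‖Gf φ d h τ x y z‖ₑ ≤ cpN φ d h (x - z) := by
  refine le_trans (le_of_eq ?_) (cp_le φ hφ d hd h (x - z))
  unfold Gf
  rw [enorm_mul]
  have h1 : ‖Complex.exp (Complex.I * ((τ * ‖x - y‖ ^ 2 : ℝ) : ℂ))‖ₑ = 1 := by
    rw [← ofReal_norm_eq_enorm, mul_comm, Complex.norm_exp_ofReal_mul_I, ENNReal.ofReal_one]
  have h2 : ‖((Nf φ d h (x - z) : ℝ) : ℂ)‖ₑ = ‖Nf φ d h (x - z)‖ₑ := by
    rw [← ofReal_norm_eq_enorm, ← ofReal_norm_eq_enorm, Complex.norm_real]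
  rw [h1, mul_one, h2]

theorem corePsi (φ : ℝ → ℝ) (hφ : Bmp φ) : ∃ C c : ℝ, 0 < C ∧ 0 < c ∧ ∀ d : ℕ, 32 ≤ d →
    ∀ h : ℝ, 0 < h → h ≤ 1 → ∀ τ : ℝ,
    ∀ (lam : ENNReal) (_ : lam ≠ ⊤) {Q : Type} [MeasurableSpace Q] (μ : Measure Q) (Y Z : Q → Eu d),
    Dat d 1 lam μ Y Z →
    ∫⁻ x, ‖Psi φ d h μ Y Z τ x‖ₑ ^ 2 ≤
      ENNReal.ofReal (C * h ^ 2 * (1 / (1 + (h * τ) ^ 2) ^ 2 + Real.exp (-(c * d * h)))) * lam *
        μ univ := by
  obtain ⟨C1, hC1, hpair⟩ := pair φ hφ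
  obtain ⟨C2, c, hC2, hc, hexc⟩ := exc
  refine ⟨C1 * C2, c, by positivity, hc, ?_⟩
  intro d hd h hh hh1 τ lam hlam Q _ μ Y Z D
  have hfin : IsFiniteMeasure μ := D.fin
  have hd0 : 0 < d := by omega
  have hY := D.mY
  have hZ := D.mZ
  have hG : Measurable (fun p : Q × Eu d => Gf φ d h τ p.2 (Y p.1) (Z p.1)) := by
    unfold Gf
    have h1 : Measurable (fun p : Q × Eu d => Nf φ d h (p.2 - Z p.1)) :=
      (cp_mNf φ hφ d h).comp (by fun_prop)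
    have h2 : Measurable (fun p : Q × Eu d => (τ * ‖p.2 - Y p.1‖ ^ 2 : ℝ)) := by fun_prop
    exact (Complex.measurable_ofReal.comp h1).mul
      (Complex.measurable_exp.comp ((Complex.measurable_ofReal.comp h2).const_mul _))
  set M : ENNReal := ∫⁻ s in Ioi (0 : ℝ), ENNReal.ofReal (φ (s / h)) with hM
  have hMfin : M ≠ ⊤ := cp_Mfin φ hφ h hh
  have hNm : Measurable (fun p : Eu d × Q => cpN φ d h (p.1 - Z p.2)) :=
    (cp_mN φ hφ d h).comp (by fun_prop)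
  have hb1 : ∀ x, ∫⁻ q, ‖Gf φ d h τ x (Y q) (Z q)‖ₑ ∂μ ≤ ∫⁻ q, cpN φ d h (x - Z q) ∂μ :=
    fun x => lintegral_mono (fun q => cp_Gle φ hφ d hd0 h τ x (Y q) (Z q))
  have hb2 : ∀ x, ∫⁻ q, cpN φ d h (x - Z q) ∂μ ≤ lam * M := by
    intro x
    have h1 := D.marg (fun z => cpN φ d h (x - z)) ((cp_mN φ hφ d h).comp (by fun_prop))
    rw [cp_M2 φ hφ d hd0 h x] at h1
    exact h1
  have hb3 : ∫⁻ x, ∫⁻ q, cpN φ d h (x - Z q) ∂μ = M * μ univ := by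
    rw [lintegral_lintegral_swap hNm.aemeasurable]
    have : ∀ q, ∫⁻ x, cpN φ d h (x - Z q) = M := fun q => cp_M1 φ hφ d hd0 h (Z q)
    simp_rw [this]
    rw [lintegral_const]
  have hint : ∫⁻ x, (∫⁻ q, ‖Gf φ d h τ x (Y q) (Z q)‖ₑ ∂μ) ^ 2 ≠ ⊤ := by
    have h1 : ∫⁻ x, (∫⁻ q, ‖Gf φ d h τ x (Y q) (Z q)‖ₑ ∂μ) ^ 2 ≤
        ∫⁻ x, (lam * M) * ∫⁻ q, cpN φ d h (x - Z q) ∂μ := by
      apply lintegral_mono
      intro x
      simp only
      rw [sq]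
      exact mul_le_mul' ((hb1 x).trans (hb2 x)) (hb1 x)
    rw [lintegral_const_mul' _ _ (ENNReal.mul_ne_top hlam hMfin), hb3] at h1
    refine ne_top_of_le_ne_top ?_ h1
    exact ENNReal.mul_ne_top (ENNReal.mul_ne_top hlam hMfin)
      (ENNReal.mul_ne_top hMfin (measure_ne_top μ univ))
  have key := open_square (volume : Measure (Eu d)) μ (fun q x => Gf φ d h τ x (Y q) (Z q)) hG hint
  refine le_trans key ?_
  have hp : ∀ q q', ‖∫ x, Gf φ d h τ x (Y q) (Z q) * (starRingEnd ℂ) (Gf φ d h τ x (Y q') (Z q'))‖ₑ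
      ≤ ENNReal.ofReal (C1 * h) * ∫⁻ S in Icc (h / 64) (256 * h),
      ENNReal.ofReal (ga d (S / d) (Z q' - Z q) /
        (1 + (h * τ * kp S (Y q) (Z q) (Y q') (Z q')) ^ 2) ^ 2) := by
    intro q q'
    have h1 := hpair d (by omega) h hh τ (Y q) (Z q) (Y q') (Z q')
    rw [← ofReal_norm_eq_enorm]
    refine (ENNReal.ofReal_le_ofReal h1).trans ?_
    rw [ENNReal.ofReal_mul (by positivity)]
    gcongr
    refine (Real.ofReal_le_enorm _).trans ?_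
    refine (enorm_integral_le_lintegral_enorm _).trans ?_
    apply setLIntegral_mono' measurableSet_Icc
    intro S hS
    have hS0 : 0 < S := lt_of_lt_of_le (by positivity) hS.1
    have hg := ga_pos d (S / d) (div_pos hS0 (by exact_mod_cast hd0)) (Z q' - Z q)
    rw [Real.enorm_of_nonneg (by positivity)]
  calc ∫⁻ q, ∫⁻ q', ‖∫ x, Gf φ d h τ x (Y q) (Z q) *
        (starRingEnd ℂ) (Gf φ d h τ x (Y q') (Z q'))‖ₑ ∂μ ∂μ
      ≤ ∫⁻ q, ∫⁻ q', (ENNReal.ofReal (C1 * h) * ∫⁻ S in Icc (h / 64) (256 * h),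
      ENNReal.ofReal (ga d (S / d) (Z q' - Z q) /
        (1 + (h * τ * kp S (Y q) (Z q) (Y q') (Z q')) ^ 2) ^ 2)) ∂μ ∂μ :=
        lintegral_mono (fun q => lintegral_mono (fun q' => hp q q'))
    _ = ENNReal.ofReal (C1 * h) * ∫⁻ q, ∫⁻ q', (∫⁻ S in Icc (h / 64) (256 * h),
      ENNReal.ofReal (ga d (S / d) (Z q' - Z q) /
        (1 + (h * τ * kp S (Y q) (Z q) (Y q') (Z q')) ^ 2) ^ 2)) ∂μ ∂μ := by
        rw [← lintegral_const_mul' _ _ ENNReal.ofReal_ne_top]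
        congr 1
        funext q
        rw [lintegral_const_mul' _ _ ENNReal.ofReal_ne_top]
    _ ≤ ENNReal.ofReal (C1 * h) * (ENNReal.ofReal (C2 * h * (1 / (1 + (h * τ) ^ 2) ^ 2 +
        Real.exp (-(c * d * h)))) * lam * μ univ) := by
        gcongr
        exact hexc d hd h hh hh1 τ lam μ Y Z D
    _ = ENNReal.ofReal (C1 * C2 * h ^ 2 * (1 / (1 + (h * τ) ^ 2) ^ 2 +
        Real.exp (-(c * d * h)))) * lam * μ univ := by
        rw [← mul_assoc, ← mul_assoc, ← ENNReal.ofReal_mul (by positivity)]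
        congr 3
        ring

end FM954
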