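import Mathlib
import Pool.Agent.Helper954.FM.Base

set_option autoImplicit false
open MeasureTheory Set Metric
open scoped ENNReal

namespace FM954

theorem wcs_mga (d : ℕ) {Q : Type} [MeasurableSpace Q] (Z : Q → Eu d) (hZ : Measurable Z) :
    Measurable (fun p : (Q × ℝ) × Eu d => ga d (p.1.2 / d) (p.2 - Z p.1.1)) := by
  unfold ga
  have h1 : Measurable (fun p : (Q × ℝ) × Eu d => p.1.2 / (d : ℝ)) :=
    (measurable_snd.comp measurable_fst).div_const _
  have h2 : Measurable (fun p : (Q × ℝ) × Eu d => p.2 - Z p.1.1) :=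
    measurable_snd.sub (hZ.comp (measurable_fst.comp measurable_fst))
  exact ((h1.const_mul _).pow_const _).mul
    (Real.measurable_exp.comp (((h2.norm.pow_const 2).neg).div (h1.const_mul _)))

theorem wcs (d : ℕ) (hd : 1 ≤ d) (lam : ENNReal) {Q : Type} [MeasurableSpace Q] (μ : Measure Q)
    (Y Z : Q → Eu d) (hD : Dat d 1 lam μ Y Z) (A : Q → Eu d → ℝ → ENNReal)
    (hA : Measurable (fun p : Q × Eu d × ℝ => A p.1 p.2.1 p.2.2)) (ρ : ℝ → ℝ) (hρ : Measurable ρ)
    (hρ0 : ∀ s, 0 < s → 0 < ρ s) :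
    ∫⁻ x, (∫⁻ q, (∫⁻ s in Ioi (0 : ℝ), A q x s * ENNReal.ofReal (ga d (s / d) (x - Z q) / s)) ∂μ) ^ 2 ≤
      lam * (∫⁻ s in Ioi (0 : ℝ), ENNReal.ofReal (ρ s / s)) *
        ∫⁻ q, (∫⁻ s in Ioi (0 : ℝ), ENNReal.ofReal ((ρ s * s)⁻¹) *
          ∫⁻ x, A q x s ^ 2 * ENNReal.ofReal (ga d (s / d) (x - Z q))) ∂μ := by
  have := hD.fin
  have hd0 : (0:ℝ) < d := by exact_mod_cast (lt_of_lt_of_le Nat.zero_lt_one hd)
  have hmga := wcs_mga d Z hD.mZ
  have hms : Measurable (fun p : (Q × ℝ) × Eu d => p.1.2) := measurable_snd.comp measurable_fst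
  have hmρ : Measurable (fun p : (Q × ℝ) × Eu d => ρ p.1.2) := hρ.comp hms
  have hmA : Measurable (fun p : (Q × ℝ) × Eu d => A p.1.1 p.2 p.1.2) :=
    hA.comp ((measurable_fst.comp measurable_fst).prodMk (measurable_snd.prodMk hms))
  obtain ⟨g, hg⟩ : ∃ g : (Q × ℝ) → Eu d → ENNReal,
    g = fun p x => ENNReal.ofReal (ρ p.2 * ga d (p.2 / d) (x - Z p.1) / p.2) := ⟨_, rfl⟩
  obtain ⟨φ, hφ⟩ : ∃ φ : (Q × ℝ) → Eu d → ENNReal,
    φ = fun p x => A p.1 x p.2 * ENNReal.ofReal ((ρ p.2)⁻¹) := ⟨_, rfl⟩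
  have hgm : Measurable (fun p : (Q × ℝ) × Eu d => g p.1 p.2) := by
    rw [hg]
    exact ((hmρ.mul hmga).div hms).ennreal_ofReal
  have hφm : Measurable (fun p : (Q × ℝ) × Eu d => φ p.1 p.2) := by
    rw [hφ]
    exact hmA.mul (hmρ.inv.ennreal_ofReal)
  have hga0 : ∀ s : ℝ, 0 < s → ∀ y : Eu d, 0 < ga d (s / d) y := fun s hs y =>
    ga_pos d _ (div_pos hs hd0) y
  have hrr : ∀ s : ℝ, 0 < s → ENNReal.ofReal (ρ s) * ENNReal.ofReal ((ρ s)⁻¹) = 1 := by
    intro s hs
    rw [← ENNReal.ofReal_mul (hρ0 s hs).le, mul_inv_cancel₀ (hρ0 s hs).ne', ENNReal.ofReal_one]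
  -- first identity
  have id1 : ∀ (q : Q) (s : ℝ) (x : Eu d), 0 < s →
      g (q, s) x * φ (q, s) x = A q x s * ENNReal.ofReal (ga d (s / d) (x - Z q) / s) := by
    intro q s x hs
    rw [hg, hφ]
    show ENNReal.ofReal (ρ s * ga d (s / d) (x - Z q) / s) * (A q x s * ENNReal.ofReal ((ρ s)⁻¹)) = _
    rw [mul_div_assoc, ENNReal.ofReal_mul (hρ0 s hs).le]
    calc ENNReal.ofReal (ρ s) * ENNReal.ofReal (ga d (s / d) (x - Z q) / s) *
          (A q x s * ENNReal.ofReal ((ρ s)⁻¹))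
        = (ENNReal.ofReal (ρ s) * ENNReal.ofReal ((ρ s)⁻¹)) *
          (A q x s * ENNReal.ofReal (ga d (s / d) (x - Z q) / s)) := by ring
      _ = _ := by rw [hrr s hs, one_mul]
  have id2 : ∀ (q : Q) (s : ℝ) (x : Eu d), 0 < s →
      g (q, s) x * φ (q, s) x ^ 2 = ENNReal.ofReal ((ρ s * s)⁻¹) *
        (A q x s ^ 2 * ENNReal.ofReal (ga d (s / d) (x - Z q))) := by
    intro q s x hs
    rw [pow_two, ← mul_assoc, id1 q s x hs, hφ]
    show A q x s * ENNReal.ofReal (ga d (s / d) (x - Z q) / s) * (A q x s * ENNReal.ofReal ((ρ s)⁻¹)) = _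
    rw [div_eq_mul_inv, ENNReal.ofReal_mul (hga0 s hs _).le, mul_inv,
      ENNReal.ofReal_mul (inv_pos.2 (hρ0 s hs)).le]
    ring
  have hl : ∀ x, ∫⁻ p, g p x ∂(μ.prod (volume.restrict (Ioi (0:ℝ)))) ≤
      lam * ∫⁻ s in Ioi (0 : ℝ), ENNReal.ofReal (ρ s / s) := by
    intro x
    have hgx : Measurable (fun p : Q × ℝ => g p x) := hgm.comp (measurable_id.prodMk measurable_const)
    rw [lintegral_prod_symm _ hgx.aemeasurable]
    have hms2 : Measurable (fun s : ℝ => ENNReal.ofReal (ρ s / s)) :=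
      (hρ.div measurable_id).ennreal_ofReal
    rw [← lintegral_const_mul lam hms2]
    apply setLIntegral_mono' measurableSet_Ioi
    intro s hs
    have hs' : 0 < s := hs
    have h1 : ∀ q, g (q, s) x = ENNReal.ofReal (ρ s / s) * ENNReal.ofReal (ga d (s / d) (x - Z q)) := by
      intro q
      rw [hg]
      show ENNReal.ofReal (ρ s * ga d (s / d) (x - Z q) / s) = _
      rw [← ENNReal.ofReal_mul (div_pos (hρ0 s hs') hs').le]
      congr 1
      ring
    simp_rw [h1]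
    have hFm : Measurable (fun z : Eu d => ENNReal.ofReal (ga d (s / d) (x - z))) :=
      ((continuous_ga d (s / d)).measurable.comp (measurable_const.sub measurable_id)).ennreal_ofReal
    have hFZ : Measurable (fun q : Q => ENNReal.ofReal (ga d (s / d) (x - Z q))) := hFm.comp hD.mZ
    rw [lintegral_const_mul _ hFZ, mul_comm lam]
    apply mul_le_mul_right
    have h2 := hD.marg (fun z => ENNReal.ofReal (ga d (s / d) (x - z))) hFm
    rw [lintegral_ga2 d (s / d) (div_pos hs' hd0) x, mul_one] at h2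
    exact h2
  have key := cs_avg (X := Eu d) (Q := Q × ℝ) (volume : Measure (Eu d))
    (μ.prod (volume.restrict (Ioi (0:ℝ)))) g φ hgm hφm _ hl
  have eL : ∀ x : Eu d, ∫⁻ p, g p x * φ p x ∂(μ.prod (volume.restrict (Ioi (0:ℝ)))) =
      ∫⁻ q, (∫⁻ s in Ioi (0 : ℝ), A q x s * ENNReal.ofReal (ga d (s / d) (x - Z q) / s)) ∂μ := by
    intro x
    have hgx : Measurable (fun p : Q × ℝ => g p x * φ p x) :=
      (hgm.mul hφm).comp (measurable_id.prodMk measurable_const)
    rw [lintegral_prod _ hgx.aemeasurable]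
    apply lintegral_congr
    intro q
    apply setLIntegral_congr_fun measurableSet_Ioi
    intro s hs
    exact id1 q s x hs
  have eR : ∫⁻ p, (∫⁻ x, g p x * φ p x ^ 2) ∂(μ.prod (volume.restrict (Ioi (0:ℝ)))) =
      ∫⁻ q, (∫⁻ s in Ioi (0 : ℝ), ENNReal.ofReal ((ρ s * s)⁻¹) *
          ∫⁻ x, A q x s ^ 2 * ENNReal.ofReal (ga d (s / d) (x - Z q))) ∂μ := by
    have hgx : Measurable (fun p : Q × ℝ => ∫⁻ x, g p x * φ p x ^ 2) :=
      Measurable.lintegral_prod_right' (hgm.mul (hφm.pow_const 2))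
    rw [lintegral_prod _ hgx.aemeasurable]
    apply lintegral_congr
    intro q
    apply setLIntegral_congr_fun measurableSet_Ioi
    intro s hs
    dsimp only
    have h3 : ∀ x, g (q, s) x * φ (q, s) x ^ 2 = ENNReal.ofReal ((ρ s * s)⁻¹) *
        (A q x s ^ 2 * ENNReal.ofReal (ga d (s / d) (x - Z q))) := fun x => id2 q s x hs
    simp_rw [h3]
    rw [lintegral_const_mul]
    have hA2 : Measurable (fun x : Eu d => A q x s) :=
      hA.comp (measurable_const.prodMk (measurable_id.prodMk measurable_const))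
    have hg2 : Measurable (fun x : Eu d => ENNReal.ofReal (ga d (s / d) (x - Z q))) :=
      ((continuous_ga d (s / d)).measurable.comp (measurable_id.sub measurable_const)).ennreal_ofReal
    exact (hA2.pow_const 2).mul hg2
  simp_rw [eL] at key
  rw [eR] at key
  exact key

end FM954
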