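import Mathlib
import Pool.Agent.Helper954.FM.Base

set_option autoImplicit false
open MeasureTheory Set Metric
open scoped ENNReal

namespace FM954

theorem mom_aux (d : ℕ) (t : ℝ) (ht : 0 < t) (v : Eu d) (f : Eu d → ℝ) (C : ℝ) (hC : 0 ≤ C)
    (b : ℝ) (hb : b ^ 2 * t * ‖v‖ ^ 2 = 1)
    (hf : ∀ x : Eu d, f x ≤ C * (Real.exp (b * inner ℝ x v) + Real.exp (-b * inner ℝ x v))) :
    ∫⁻ x : Eu d, ENNReal.ofReal (f x) * ENNReal.ofReal (ga d t x) ≤
      ENNReal.ofReal (C * (2 * Real.exp (1 / 2))) := by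
  have hgc := continuous_ga d t
  have hm : ∀ c : ℝ, Measurable fun x : Eu d =>
      ENNReal.ofReal (ga d t x * Real.exp (c * inner ℝ x v)) := by
    intro c
    apply ENNReal.measurable_ofReal.comp
    apply Continuous.measurable
    fun_prop
  have h1 := lint_ga_exp d t ht b v
  have h2 := lint_ga_exp d t ht (-b) v
  rw [show b ^ 2 * t * ‖v‖ ^ 2 / 2 = 1 / 2 by rw [hb]] at h1
  rw [show (-b) ^ 2 * t * ‖v‖ ^ 2 / 2 = 1 / 2 by rw [neg_sq, hb]] at h2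
  calc ∫⁻ x : Eu d, ENNReal.ofReal (f x) * ENNReal.ofReal (ga d t x)
      ≤ ∫⁻ x : Eu d, ENNReal.ofReal C * (ENNReal.ofReal (ga d t x * Real.exp (b * inner ℝ x v)) +
          ENNReal.ofReal (ga d t x * Real.exp (-b * inner ℝ x v))) := by
        refine lintegral_mono fun x => ?_
        have hg := (ga_pos d t ht x).le
        rw [← ENNReal.ofReal_add (by positivity) (by positivity), ← ENNReal.ofReal_mul hC,
          ← ENNReal.ofReal_mul' hg]
        apply ENNReal.ofReal_le_ofReal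
        have h3 := mul_le_mul_of_nonneg_right (hf x) hg
        refine h3.trans (le_of_eq ?_)
        ring
    _ = ENNReal.ofReal C * (ENNReal.ofReal (Real.exp (1 / 2)) + ENNReal.ofReal (Real.exp (1 / 2))) := by
        rw [lintegral_const_mul' _ _ ENNReal.ofReal_ne_top, lintegral_add_left (hm b), h1, h2]
    _ = ENNReal.ofReal (C * (2 * Real.exp (1 / 2))) := by
        rw [← ENNReal.ofReal_add (by positivity) (by positivity), ← ENNReal.ofReal_mul hC]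
        congr 1
        ring

theorem mom_cosh2 (r : ℝ) : r ^ 2 ≤ Real.exp r + Real.exp (-r) := by
  have h := le_hasSum (Real.hasSum_cosh r) 1 (fun j _ => by rw [pow_mul]; positivity)
  rw [Real.cosh_eq] at h
  norm_num [Nat.factorial] at h
  linarith

theorem mom_cosh4 (r : ℝ) : r ^ 4 ≤ 12 * (Real.exp r + Real.exp (-r)) := by
  have h := le_hasSum (Real.hasSum_cosh r) 2 (fun j _ => by rw [pow_mul]; positivity)
  rw [Real.cosh_eq] at h
  norm_num [Nat.factorial] at h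
  linarith

theorem mom_exp : Real.exp (1 / 2) ≤ 5 / 3 := by
  have h1 : Real.exp (1 / 2) ^ 2 = Real.exp 1 := by
    rw [← Real.exp_nat_mul]; norm_num
  have h2 := Real.exp_one_lt_d9
  have h3 := Real.exp_pos (1 / 2)
  nlinarith

theorem mom_b (t : ℝ) (ht : 0 < t) (s : ℝ) (hs : 0 < s) :
    ∃ b : ℝ, 0 < b ∧ b ^ 2 * t * s ^ 2 = 1 := by
  refine ⟨1 / (√t * s), by positivity, ?_⟩
  rw [div_pow, mul_pow, Real.sq_sqrt ht.le]
  field_simp

theorem mom2 (d : ℕ) (t : ℝ) (ht : 0 < t) (v : Eu d) :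
    ∫⁻ x : Eu d, ENNReal.ofReal ((inner ℝ x v) ^ 2) * ENNReal.ofReal (ga d t x) ≤
      ENNReal.ofReal (4 * t * ‖v‖ ^ 2) := by 
  rcases eq_or_ne v 0 with rfl | hv
  · simp
  have hs : 0 < ‖v‖ := norm_pos_iff.2 hv
  obtain ⟨b, hb0, hb⟩ := mom_b t ht ‖v‖ hs
  refine (mom_aux d t ht v (fun x => (inner ℝ x v) ^ 2) (t * ‖v‖ ^ 2) (by positivity) b hb ?_).trans ?_
  · intro x
    have h1 := mom_cosh2 (b * inner ℝ x v)
    have h2 : (inner ℝ x v : ℝ) ^ 2 = (t * ‖v‖ ^ 2) * (b * inner ℝ x v) ^ 2 := by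
      calc (inner ℝ x v : ℝ) ^ 2 = (b ^ 2 * t * ‖v‖ ^ 2) * (inner ℝ x v) ^ 2 := by rw [hb, one_mul]
        _ = _ := by ring
    show (inner ℝ x v : ℝ) ^ 2 ≤ _
    rw [h2, neg_mul]
    exact mul_le_mul_of_nonneg_left h1 (by positivity)
  · apply ENNReal.ofReal_le_ofReal
    have h3 := mom_exp
    have h4 : 0 ≤ t * ‖v‖ ^ 2 := by positivity
    nlinarith

theorem mom4 (d : ℕ) (t : ℝ) (ht : 0 < t) (v : Eu d) :
    ∫⁻ x : Eu d, ENNReal.ofReal ((inner ℝ x v) ^ 4) * ENNReal.ofReal (ga d t x) ≤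
      ENNReal.ofReal (40 * t ^ 2 * ‖v‖ ^ 4) := by 
  rcases eq_or_ne v 0 with rfl | hv
  · simp
  have hs : 0 < ‖v‖ := norm_pos_iff.2 hv
  obtain ⟨b, hb0, hb⟩ := mom_b t ht ‖v‖ hs
  refine (mom_aux d t ht v (fun x => (inner ℝ x v) ^ 4) (12 * (t ^ 2 * ‖v‖ ^ 4)) (by positivity)
    b hb ?_).trans ?_
  · intro x
    have h1 := mom_cosh4 (b * inner ℝ x v)
    have h2 : (inner ℝ x v : ℝ) ^ 4 = (t ^ 2 * ‖v‖ ^ 4) * (b * inner ℝ x v) ^ 4 := by
      calc (inner ℝ x v : ℝ) ^ 4 = (b ^ 2 * t * ‖v‖ ^ 2) ^ 2 * (inner ℝ x v) ^ 4 := by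
            rw [hb, one_pow, one_mul]
        _ = _ := by ring
    show (inner ℝ x v : ℝ) ^ 4 ≤ _
    rw [h2, neg_mul]
    have h5 := mul_le_mul_of_nonneg_left h1 (by positivity : 0 ≤ t ^ 2 * ‖v‖ ^ 4)
    refine h5.trans (le_of_eq ?_)
    ring
  · apply ENNReal.ofReal_le_ofReal
    have h3 := mom_exp
    have h4 : 0 ≤ t ^ 2 * ‖v‖ ^ 4 := by positivity
    nlinarith

end FM954
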