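import Mathlib
import Pool.Agent.Helper954.FM.Base
import Pool.Agent.Helper954.FM.E2

set_option autoImplicit false
open MeasureTheory Set Metric
open scoped ENNReal

namespace FM954

theorem awint_int4 {d : ℕ} {s c : ℝ} {v : Eu d} (hs : 0 < s) (hd : 0 < d) (hc : 0 ≤ c) (hv : ‖v‖ ≤ 1)
    (g : Eu d → ENNReal) (hg : ∀ x, g x ≤ ENNReal.ofReal (c * (inner ℝ x v) ^ 4)) :
    ∫⁻ x : Eu d, g x * ENNReal.ofReal (ga d (s / d) x) ≤ ENNReal.ofReal (c * (40 * (s / d) ^ 2)) := by
  have hd' : (0:ℝ) < d := by exact_mod_cast hd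
  calc ∫⁻ x : Eu d, g x * ENNReal.ofReal (ga d (s / d) x)
      ≤ ∫⁻ x : Eu d, ENNReal.ofReal c *
          (ENNReal.ofReal ((inner ℝ x v) ^ 4) * ENNReal.ofReal (ga d (s / d) x)) := by
        apply lintegral_mono
        intro x
        simp only
        rw [← mul_assoc, ← ENNReal.ofReal_mul hc]
        gcongr
        exact hg x
    _ = ENNReal.ofReal c * ∫⁻ x : Eu d,
          (ENNReal.ofReal ((inner ℝ x v) ^ 4) * ENNReal.ofReal (ga d (s / d) x)) := by
        rw [lintegral_const_mul' _ _ ENNReal.ofReal_ne_top]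
    _ ≤ ENNReal.ofReal c * ENNReal.ofReal (40 * (s / d) ^ 2 * ‖v‖ ^ 4) := by
        gcongr
        exact mom4 d (s / d) (by positivity) v
    _ ≤ ENNReal.ofReal (c * (40 * (s / d) ^ 2)) := by
        rw [← ENNReal.ofReal_mul hc]
        apply ENNReal.ofReal_le_ofReal
        apply mul_le_mul_of_nonneg_left _ hc
        have h1 : ‖v‖ ^ 4 ≤ 1 := pow_le_one₀ (norm_nonneg v) hv
        have h2 : 0 ≤ 40 * (s / d) ^ 2 := by positivity
        nlinarith

theorem awint_int2 {d : ℕ} {s c c0 : ℝ} {v : Eu d} (hs : 0 < s) (hd : 0 < d) (hc : 0 ≤ c) (hc0 : 0 ≤ c0)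
    (hv : ‖v‖ ≤ 1)
    (g : Eu d → ENNReal) (hg : ∀ x, g x ≤ ENNReal.ofReal (c0 + c * (inner ℝ x v) ^ 2)) :
    ∫⁻ x : Eu d, g x * ENNReal.ofReal (ga d (s / d) x) ≤ ENNReal.ofReal (c0 + c * (4 * (s / d))) := by
  have hd' : (0:ℝ) < d := by exact_mod_cast hd
  have h0 := lintegral_ga d (s / d) (by positivity) 0
  simp only [sub_zero] at h0
  calc ∫⁻ x : Eu d, g x * ENNReal.ofReal (ga d (s / d) x)
      ≤ ∫⁻ x : Eu d, (ENNReal.ofReal c0 * ENNReal.ofReal (ga d (s / d) x) + ENNReal.ofReal c *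
          (ENNReal.ofReal ((inner ℝ x v) ^ 2) * ENNReal.ofReal (ga d (s / d) x))) := by
        apply lintegral_mono
        intro x
        simp only
        rw [← mul_assoc, ← ENNReal.ofReal_mul hc, ← add_mul, ← ENNReal.ofReal_add hc0 (by positivity)]
        gcongr
        exact hg x
    _ = ENNReal.ofReal c0 * 1 + ENNReal.ofReal c * ∫⁻ x : Eu d,
          (ENNReal.ofReal ((inner ℝ x v) ^ 2) * ENNReal.ofReal (ga d (s / d) x)) := by
        rw [lintegral_add_left, lintegral_const_mul' _ _ ENNReal.ofReal_ne_top,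
          lintegral_const_mul' _ _ ENNReal.ofReal_ne_top, h0]
        exact ((continuous_ga d (s / d)).measurable.ennreal_ofReal).const_mul _
    _ ≤ ENNReal.ofReal c0 * 1 + ENNReal.ofReal c * ENNReal.ofReal (4 * (s / d) * ‖v‖ ^ 2) := by
        gcongr
        exact mom2 d (s / d) (by positivity) v
    _ ≤ ENNReal.ofReal (c0 + c * (4 * (s / d))) := by
        rw [← ENNReal.ofReal_mul hc, mul_one, ← ENNReal.ofReal_add hc0 (by positivity)]
        apply ENNReal.ofReal_le_ofReal
        have h1 : ‖v‖ ^ 2 ≤ 1 := pow_le_one₀ (norm_nonneg v) hv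
        have h2 : 0 ≤ 4 * (s / d) := by positivity
        have h3 : 4 * (s / d) * ‖v‖ ^ 2 ≤ 4 * (s / d) := by nlinarith
        have h4 := mul_le_mul_of_nonneg_left h3 hc
        linarith

theorem awint : ∃ C : ℝ, 0 < C ∧ ∀ d : ℕ, 32 ≤ d → ∀ h : ℝ, 24 / d ≤ h → h ≤ 1 → ∀ s : ℝ, 0 < s →
    ∀ v : Eu d, ‖v‖ ≤ 1 →
    ∫⁻ x : Eu d, Aw d h s (‖x‖ ^ 2) (‖x‖ ^ 2 + 2 * inner ℝ x v) ^ 2 * ENNReal.ofReal (ga d (s / d) x) ≤
      ENNReal.ofReal (C * min (s / h) (h / s)) := by
  refine ⟨3000000, by norm_num, ?_⟩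
  intro d hd h hh h1 s hs v hv
  have hd0 : 0 < d := by omega
  have hdR : (0:ℝ) < d := by exact_mod_cast hd0
  have hh0 : 0 < h := lt_of_lt_of_le (by positivity) hh
  have hsq : ∀ t : ℝ, 0 < t → (ENNReal.ofReal (d * t)) ^ 2 = ENNReal.ofReal ((d * t) ^ 2) := by
    intro t ht
    rw [ENNReal.ofReal_pow (by positivity)]
  rcases lt_or_ge (64 * h) s with hA | hA
  · -- case A
    have hb := awint_int4 (c := 625 * d ^ 2 * h ^ 2 / s ^ 4) hs hd0 (by positivity) hv
      (fun x => Aw d h s (‖x‖ ^ 2) (‖x‖ ^ 2 + 2 * inner ℝ x v) ^ 2) (by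
        intro x
        simp only [Aw]
        split_ifs with hc
        · obtain ⟨-, hX1, hX2, ht0, ht1, -⟩ := hc
          rw [hsq _ ht0]
          apply ENNReal.ofReal_le_ofReal
          set X := ‖x‖ ^ 2
          set p := inner ℝ x v
          have hp : s / 5 ≤ -p := by linarith
          have hp4 : (s / 5) ^ 4 ≤ p ^ 4 := by
            have : (s / 5) ^ 4 ≤ (-p) ^ 4 := pow_le_pow_left₀ (by positivity) hp 4
            have e : (-p) ^ 4 = p ^ 4 := by ring
            rwa [e] at this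
          have ht2 : (d * (X + 2 * p)) ^ 2 ≤ (d * h) ^ 2 := by
            apply pow_le_pow_left₀ (by positivity)
            exact mul_le_mul_of_nonneg_left ht1 hdR.le
          calc (d * (X + 2 * p)) ^ 2 ≤ (d * h) ^ 2 := ht2
            _ = 625 * d ^ 2 * h ^ 2 / s ^ 4 * (s / 5) ^ 4 := by field_simp; ring
            _ ≤ 625 * d ^ 2 * h ^ 2 / s ^ 4 * p ^ 4 := by
                apply mul_le_mul_of_nonneg_left hp4 (by positivity)
        · simp)
    refine hb.trans (ENNReal.ofReal_le_ofReal ?_)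
    have hm : min (s / h) (h / s) = h / s := by
      apply min_eq_right
      rw [div_le_div_iff₀ hs hh0]
      nlinarith
    rw [hm]
    have e : 625 * (d:ℝ) ^ 2 * h ^ 2 / s ^ 4 * (40 * (s / d) ^ 2) = 25000 * (h / s) ^ 2 := by
      field_simp; ring
    rw [e]
    have h3 : h / s ≤ 1 := by rw [div_le_one hs]; linarith
    have h4 : 0 ≤ h / s := by positivity
    nlinarith
  rcases lt_or_ge s (h / 64) with hB | hB
  · have hm : min (s / h) (h / s) = s / h := by
      apply min_eq_left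
      rw [div_le_div_iff₀ hh0 hs]
      nlinarith
    have h3 : s / h ≤ 1 := by rw [div_le_one hh0]; linarith
    have h4 : 0 ≤ s / h := by positivity
    rw [hm]
    rcases le_or_gt h (100 / d) with hC | hC
    · -- case C
      have hb := awint_int2 (c0 := 8 * d ^ 2 * s ^ 2) (c := 8 * d ^ 2) hs hd0 (by positivity)
        (by positivity) hv
        (fun x => Aw d h s (‖x‖ ^ 2) (‖x‖ ^ 2 + 2 * inner ℝ x v) ^ 2) (by
          intro x
          simp only [Aw]
          split_ifs with hc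
          · obtain ⟨-, hX1, hX2, ht0, ht1, -⟩ := hc
            rw [hsq _ ht0]
            apply ENNReal.ofReal_le_ofReal
            have hX0 : 0 ≤ ‖x‖ ^ 2 := by positivity
            set X := ‖x‖ ^ 2
            set p := inner ℝ x v
            have h5 : X ^ 2 ≤ 4 * s ^ 2 := by nlinarith
            have h6 : (X + 2 * p) ^ 2 ≤ 8 * s ^ 2 + 8 * p ^ 2 := by
              nlinarith [sq_nonneg (X - 2 * p)]
            calc (d * (X + 2 * p)) ^ 2 = d ^ 2 * (X + 2 * p) ^ 2 := by ring
              _ ≤ d ^ 2 * (8 * s ^ 2 + 8 * p ^ 2) := by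
                  apply mul_le_mul_of_nonneg_left h6 (by positivity)
              _ = _ := by ring
          · simp)
      refine hb.trans (ENNReal.ofReal_le_ofReal ?_)
      have h7 : d * h ≤ 100 := by
        rw [le_div_iff₀ hdR] at hC; linarith
      have h8 : d * s ≤ 100 * (s / h) := by
        calc d * s = (d * h) * (s / h) := by field_simp
          _ ≤ 100 * (s / h) := mul_le_mul_of_nonneg_right h7 h4
      have e : 8 * (d:ℝ) ^ 2 * s ^ 2 + 8 * d ^ 2 * (4 * (s / d)) = 8 * (d * s) ^ 2 + 32 * (d * s) := by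
        field_simp; ring
      rw [e]
      have h9 : 0 ≤ d * s := by positivity
      have h10 : (d * s) ^ 2 ≤ (100 * (s / h)) ^ 2 := pow_le_pow_left₀ h9 h8 2
      nlinarith
    · -- case B
      have hb := awint_int4 (c := 65536 * d ^ 2 / h ^ 2) hs hd0 (by positivity) hv
        (fun x => Aw d h s (‖x‖ ^ 2) (‖x‖ ^ 2 + 2 * inner ℝ x v) ^ 2) (by
          intro x
          simp only [Aw]
          split_ifs with hc
          · obtain ⟨-, hX1, hX2, ht0, ht1, ht2⟩ := hc
            rw [hsq _ ht0]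
            apply ENNReal.ofReal_le_ofReal
            have ht3 : h / 16 ≤ ‖x‖ ^ 2 + 2 * inner ℝ x v := by
              rcases ht2 with h | h
              · exact h
              · linarith
            set X := ‖x‖ ^ 2
            set p := inner ℝ x v
            have hp1 : X + 2 * p ≤ 4 * p := by linarith
            have hp2 : h / 64 ≤ p := by linarith
            have hp3 : (h / 64) ^ 2 ≤ p ^ 2 := pow_le_pow_left₀ (by positivity) hp2 2
            have hp4 : (X + 2 * p) ^ 2 ≤ (4 * p) ^ 2 := pow_le_pow_left₀ ht0.le hp1 2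
            calc (d * (X + 2 * p)) ^ 2 = d ^ 2 * (X + 2 * p) ^ 2 := by ring
              _ ≤ d ^ 2 * (4 * p) ^ 2 := by
                  apply mul_le_mul_of_nonneg_left hp4 (by positivity)
              _ = 65536 * d ^ 2 / h ^ 2 * p ^ 2 * (h / 64) ^ 2 := by field_simp; ring
              _ ≤ 65536 * d ^ 2 / h ^ 2 * p ^ 2 * p ^ 2 := by
                  apply mul_le_mul_of_nonneg_left hp3 (by positivity)
              _ = 65536 * d ^ 2 / h ^ 2 * p ^ 4 := by ring
          · simp)
      refine hb.trans (ENNReal.ofReal_le_ofReal ?_)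
      have e : 65536 * (d:ℝ) ^ 2 / h ^ 2 * (40 * (s / d) ^ 2) = 2621440 * (s / h) ^ 2 := by
        field_simp; ring
      rw [e]
      nlinarith
  · -- middle
    have h0 : ∀ x : Eu d, Aw d h s (‖x‖ ^ 2) (‖x‖ ^ 2 + 2 * inner ℝ x v) = 0 := by
      intro x
      rw [Aw, if_neg]
      rintro ⟨h | h, -⟩ <;> linarith
    simp [h0]

end FM954
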