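import Mathlib
import Pool.Agent.Helper954.FM.Base

set_option autoImplicit false
open MeasureTheory Set Metric
open scoped ENNReal

namespace FM954

theorem mint (h : ℝ) (hh : 0 < h) :
    ∫⁻ s in Ioi (0 : ℝ), ENNReal.ofReal (Real.sqrt (min (s / h) (h / s)) / s) ≤ ENNReal.ofReal 4 := by
  have hsh : 0 < Real.sqrt h := Real.sqrt_pos.2 hh
  have hhalf : ∀ s : ℝ, 0 < s → s ^ (-(1/2) : ℝ) = (Real.sqrt s)⁻¹ := by
    intro s hs
    rw [Real.rpow_neg hs.le, Real.sqrt_eq_rpow]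
  have p1 : ∀ s ∈ Ioc (0:ℝ) h, Real.sqrt (min (s / h) (h / s)) / s ≤
      (Real.sqrt h)⁻¹ * s ^ (-(1/2) : ℝ) := by
    intro s hs
    have hs0 : 0 < s := hs.1
    have hss : 0 < Real.sqrt s := Real.sqrt_pos.2 hs0
    have h1 : Real.sqrt (min (s / h) (h / s)) ≤ Real.sqrt (s / h) :=
      Real.sqrt_le_sqrt (min_le_left _ _)
    rw [hhalf s hs0, div_le_iff₀ hs0]
    refine h1.trans (le_of_eq ?_)
    rw [Real.sqrt_div hs0.le]
    have h2 : s = Real.sqrt s * Real.sqrt s := (Real.mul_self_sqrt hs0.le).symm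
    rw [mul_assoc]
    have h3 : (Real.sqrt s)⁻¹ * s = Real.sqrt s := by
      nth_rewrite 2 [h2]
      rw [← mul_assoc, inv_mul_cancel₀ hss.ne', one_mul]
    rw [h3]
    ring
  have p2 : ∀ s ∈ Ioi h, Real.sqrt (min (s / h) (h / s)) / s ≤
      Real.sqrt h * s ^ (-(3/2) : ℝ) := by
    intro s hs
    have hs0 : 0 < s := hh.trans hs
    have hss : 0 < Real.sqrt s := Real.sqrt_pos.2 hs0
    have h1 : Real.sqrt (min (s / h) (h / s)) ≤ Real.sqrt (h / s) :=
      Real.sqrt_le_sqrt (min_le_right _ _)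
    have h4 : s ^ (-(3/2) : ℝ) = (Real.sqrt s)⁻¹ * s⁻¹ := by
      have e : (-(3/2) : ℝ) = -(1/2) + -1 := by norm_num
      rw [e, Real.rpow_add hs0, hhalf s hs0, Real.rpow_neg_one]
    rw [h4, div_le_iff₀ hs0]
    refine h1.trans (le_of_eq ?_)
    rw [Real.sqrt_div hh.le, mul_assoc, mul_assoc, inv_mul_cancel₀ hs0.ne', mul_one]
    rfl
  have i1 : IntegrableOn (fun s : ℝ => (Real.sqrt h)⁻¹ * s ^ (-(1/2) : ℝ)) (Ioc 0 h) := by
    have := (intervalIntegral.intervalIntegrable_rpow' (a := 0) (b := h)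
      (show (-1:ℝ) < -(1/2) by norm_num))
    rw [intervalIntegrable_iff_integrableOn_Ioc_of_le hh.le] at this
    exact this.const_mul _
  have v1 : ∫ s in Ioc (0:ℝ) h, (Real.sqrt h)⁻¹ * s ^ (-(1/2) : ℝ) = 2 := by
    rw [integral_const_mul, ← intervalIntegral.integral_of_le hh.le,
      integral_rpow (Or.inl (by norm_num))]
    have e : (-(1/2) : ℝ) + 1 = 1/2 := by norm_num
    rw [e, Real.zero_rpow (by norm_num), sub_zero, ← Real.sqrt_eq_rpow]
    field_simp
  have i2 : IntegrableOn (fun s : ℝ => Real.sqrt h * s ^ (-(3/2) : ℝ)) (Ioi h) :=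
    (integrableOn_Ioi_rpow_of_lt (by norm_num) hh).const_mul _
  have v2 : ∫ s in Ioi h, Real.sqrt h * s ^ (-(3/2) : ℝ) = 2 := by
    rw [integral_const_mul, integral_Ioi_rpow_of_lt (by norm_num) hh]
    have e : (-(3/2) : ℝ) + 1 = -(1/2) := by norm_num
    rw [e, hhalf h hh]
    field_simp
  have b1 : ∫⁻ s in Ioc (0:ℝ) h, ENNReal.ofReal (Real.sqrt (min (s / h) (h / s)) / s) ≤
      ENNReal.ofReal 2 := by
    rw [← v1, ofReal_integral_eq_lintegral_ofReal i1]
    · exact setLIntegral_mono' measurableSet_Ioc (fun s hs => ENNReal.ofReal_le_ofReal (p1 s hs))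
    · filter_upwards [ae_restrict_mem measurableSet_Ioc] with s hs
      exact mul_nonneg (inv_nonneg.2 hsh.le) (Real.rpow_nonneg hs.1.le _)
  have b2 : ∫⁻ s in Ioi h, ENNReal.ofReal (Real.sqrt (min (s / h) (h / s)) / s) ≤
      ENNReal.ofReal 2 := by
    rw [← v2, ofReal_integral_eq_lintegral_ofReal i2]
    · exact setLIntegral_mono' measurableSet_Ioi (fun s hs => ENNReal.ofReal_le_ofReal (p2 s hs))
    · filter_upwards [ae_restrict_mem measurableSet_Ioi] with s hs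
      exact mul_nonneg hsh.le (Real.rpow_nonneg (hh.trans hs).le _)
  rw [← Ioc_union_Ioi_eq_Ioi hh.le]
  refine (lintegral_union_le _ _ _).trans ?_
  refine (add_le_add b1 b2).trans (le_of_eq ?_)
  rw [← ENNReal.ofReal_add (by norm_num) (by norm_num)]
  norm_num

end FM954
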