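import Mathlib
import Pool.Agent.Helper954.FM.Base
import Pool.Agent.Helper954.FM.E1
import Pool.Agent.Helper954.FM.E3
import Pool.Agent.Helper954.FM.E4

set_option autoImplicit false
open MeasureTheory Set Metric
open scoped ENNReal

namespace FM954

theorem epart : ∃ C : ℝ, 0 < C ∧ ∀ d : ℕ, 32 ≤ d → ∀ h : ℝ, 24 / d ≤ h → h ≤ 1 →
    ∀ (lam : ENNReal) {Q : Type} [MeasurableSpace Q] (μ : Measure Q) (Y Z : Q → Eu d),
    Dat d 1 lam μ Y Z →
    ∫⁻ x, (∫⁻ q, (∫⁻ s in Ioi (0 : ℝ), Aw d h s (‖x - Z q‖ ^ 2) (‖x - Y q‖ ^ 2 - ‖Z q - Y q‖ ^ 2) *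
      ENNReal.ofReal (ga d (s / d) (x - Z q) / s)) ∂μ) ^ 2 ≤ ENNReal.ofReal C * lam * μ univ := by
  obtain ⟨C, hC, hint⟩ := awint
  refine ⟨16 * C, by positivity, ?_⟩
  intro d hd h h1 h2 lam Q _ μ Y Z hD
  have hh : 0 < h := by
    have : (0:ℝ) < 24 / d := by
      have : (0:ℝ) < d := by exact_mod_cast (by omega : 0 < d)
      positivity
    linarith
  have hmY := hD.mY
  have hmZ := hD.mZ
  set ρ : ℝ → ℝ := fun s => Real.sqrt (min (s / h) (h / s)) with hρdef
  have hρm : Measurable ρ := by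
    apply Measurable.sqrt
    apply Measurable.min
    · exact measurable_id.div_const h
    · exact measurable_const.div measurable_id
  have hρ0 : ∀ s, 0 < s → 0 < ρ s := by
    intro s hs
    apply Real.sqrt_pos.mpr
    exact lt_min (by positivity) (by positivity)
  have hA : Measurable (fun p : Q × Eu d × ℝ => Aw d h p.2.2 (‖p.2.1 - Z p.1‖ ^ 2)
      (‖p.2.1 - Y p.1‖ ^ 2 - ‖Z p.1 - Y p.1‖ ^ 2)) := by
    have m1 : Measurable (fun p : Q × Eu d × ℝ => p.2.2) := measurable_snd.comp measurable_snd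
    have mx : Measurable (fun p : Q × Eu d × ℝ => p.2.1) := measurable_fst.comp measurable_snd
    have mY' : Measurable (fun p : Q × Eu d × ℝ => Y p.1) := hmY.comp measurable_fst
    have mZ' : Measurable (fun p : Q × Eu d × ℝ => Z p.1) := hmZ.comp measurable_fst
    have m2 : Measurable (fun p : Q × Eu d × ℝ => ‖p.2.1 - Z p.1‖ ^ 2) :=
      ((mx.sub mZ').norm).pow_const 2
    have m3 : Measurable (fun p : Q × Eu d × ℝ => ‖p.2.1 - Y p.1‖ ^ 2 - ‖Z p.1 - Y p.1‖ ^ 2) :=
      (((mx.sub mY').norm).pow_const 2).sub (((mZ'.sub mY').norm).pow_const 2)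
    unfold Aw
    apply Measurable.ite
    · refine MeasurableSet.inter (MeasurableSet.union (measurableSet_lt m1 measurable_const)
        (measurableSet_lt measurable_const m1)) ?_
      refine MeasurableSet.inter (measurableSet_le m2 (m1.const_mul 2)) ?_
      refine MeasurableSet.inter (measurableSet_le m1 (m2.const_mul 2)) ?_
      refine MeasurableSet.inter (measurableSet_lt measurable_const m3) ?_
      refine MeasurableSet.inter (measurableSet_le m3 measurable_const) ?_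
      exact MeasurableSet.union (measurableSet_le measurable_const m3) (MeasurableSet.const _)
    · exact (m3.const_mul (d:ℝ)).ennreal_ofReal
    · exact measurable_const
  have hw := wcs d (by omega) lam μ Y Z hD (fun q x s => Aw d h s (‖x - Z q‖ ^ 2)
    (‖x - Y q‖ ^ 2 - ‖Z q - Y q‖ ^ 2)) hA ρ hρm hρ0
  refine hw.trans ?_
  have hinner : ∀ q : Q, ∀ s : ℝ, 0 < s → ∫⁻ x : Eu d, (Aw d h s (‖x - Z q‖ ^ 2)
      (‖x - Y q‖ ^ 2 - ‖Z q - Y q‖ ^ 2)) ^ 2 * ENNReal.ofReal (ga d (s / d) (x - Z q)) ≤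
      ENNReal.ofReal (C * min (s / h) (h / s)) := by
    intro q s hs
    have e1 : ∀ x : Eu d, ‖x - Y q‖ ^ 2 - ‖Z q - Y q‖ ^ 2 =
        ‖x - Z q‖ ^ 2 + 2 * inner ℝ (x - Z q) (Z q - Y q) := by
      intro x
      have : x - Y q = (x - Z q) + (Z q - Y q) := by abel
      rw [this, norm_add_sq_real]
      ring
    simp_rw [e1]
    rw [lintegral_sub_right_eq_self (fun x : Eu d => (Aw d h s (‖x‖ ^ 2)
      (‖x‖ ^ 2 + 2 * inner ℝ x (Z q - Y q))) ^ 2 * ENNReal.ofReal (ga d (s / d) x)) (Z q)]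
    exact hint d hd h h1 h2 s hs (Z q - Y q) (hD.close q)
  have h3 : ∀ q : Q, (∫⁻ s in Ioi (0 : ℝ), ENNReal.ofReal ((ρ s * s)⁻¹) *
          ∫⁻ x, (Aw d h s (‖x - Z q‖ ^ 2) (‖x - Y q‖ ^ 2 - ‖Z q - Y q‖ ^ 2)) ^ 2 *
            ENNReal.ofReal (ga d (s / d) (x - Z q))) ≤ ENNReal.ofReal (4 * C) := by
    intro q
    calc (∫⁻ s in Ioi (0 : ℝ), ENNReal.ofReal ((ρ s * s)⁻¹) *
          ∫⁻ x, (Aw d h s (‖x - Z q‖ ^ 2) (‖x - Y q‖ ^ 2 - ‖Z q - Y q‖ ^ 2)) ^ 2 *
            ENNReal.ofReal (ga d (s / d) (x - Z q)))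
        ≤ ∫⁻ s in Ioi (0 : ℝ), ENNReal.ofReal C * ENNReal.ofReal (ρ s / s) := by
          apply setLIntegral_mono' measurableSet_Ioi
          intro s hs
          have hs' : 0 < s := hs
          calc ENNReal.ofReal ((ρ s * s)⁻¹) *
              ∫⁻ x, (Aw d h s (‖x - Z q‖ ^ 2) (‖x - Y q‖ ^ 2 - ‖Z q - Y q‖ ^ 2)) ^ 2 *
              ENNReal.ofReal (ga d (s / d) (x - Z q)) ≤
              ENNReal.ofReal ((ρ s * s)⁻¹) * ENNReal.ofReal (C * min (s / h) (h / s)) := by
                gcongr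
                exact hinner q s hs'
            _ = ENNReal.ofReal C * ENNReal.ofReal (ρ s / s) := by
                have hρs := hρ0 s hs'
                rw [← ENNReal.ofReal_mul (by positivity), ← ENNReal.ofReal_mul hC.le]
                congr 1
                have hsq : min (s / h) (h / s) = ρ s ^ 2 := by
                  rw [hρdef]
                  simp only
                  rw [Real.sq_sqrt]
                  exact le_min (by positivity) (by positivity)
                rw [hsq]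
                field_simp
      _ = ENNReal.ofReal C * ∫⁻ s in Ioi (0 : ℝ), ENNReal.ofReal (ρ s / s) := by
          rw [lintegral_const_mul]
          exact (hρm.div measurable_id).ennreal_ofReal
      _ ≤ ENNReal.ofReal C * ENNReal.ofReal 4 := by
          gcongr
          exact mint h hh
      _ = ENNReal.ofReal (4 * C) := by
          rw [← ENNReal.ofReal_mul hC.le]
          congr 1
          ring
  calc lam * (∫⁻ s in Ioi (0 : ℝ), ENNReal.ofReal (ρ s / s)) *
        ∫⁻ q, (∫⁻ s in Ioi (0 : ℝ), ENNReal.ofReal ((ρ s * s)⁻¹) *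
          ∫⁻ x, (Aw d h s (‖x - Z q‖ ^ 2) (‖x - Y q‖ ^ 2 - ‖Z q - Y q‖ ^ 2)) ^ 2 *
            ENNReal.ofReal (ga d (s / d) (x - Z q))) ∂μ
      ≤ lam * ENNReal.ofReal 4 * ∫⁻ q, ENNReal.ofReal (4 * C) ∂μ := by
        gcongr with q
        · exact mint h hh
        · exact h3 q
    _ = ENNReal.ofReal (16 * C) * lam * μ univ := by
        rw [lintegral_const]
        have : ENNReal.ofReal (16 * C) = ENNReal.ofReal 4 * ENNReal.ofReal (4 * C) := by
          rw [← ENNReal.ofReal_mul (by norm_num)]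
          congr 1
          ring
        rw [this]
        ring

end FM954
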