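import Mathlib
import Pool.Agent.Helper954.FM.Base

set_option autoImplicit false
open MeasureTheory Set Metric
open scoped ENNReal

namespace FM954

theorem j17010_gauss (d : ℕ) (hd : 0 < d) (w : ℝ) :
    (((d : ℝ) * Real.exp (-((d : ℝ) ^ 2 * w ^ 2 / 2)) : ℝ) : ℂ) =
      ((1 / Real.sqrt (2 * Real.pi) : ℝ) : ℂ) *
        ∫ τ : ℝ, ((Real.exp (-(τ ^ 2 / (2 * (d : ℝ) ^ 2))) : ℝ) : ℂ) *
          Complex.exp (Complex.I * ((τ * w : ℝ) : ℂ)) := by
  have hd0 : (0 : ℝ) < d := by exact_mod_cast hd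
  have hpi := Real.pi_pos
  set b : ℝ := 1 / (2 * (d : ℝ) ^ 2) with hb
  have hb0 : 0 < b := by positivity
  have key := fourierIntegral_gaussian (b := (b : ℂ)) (by rw [Complex.ofReal_re]; exact hb0)
    (w : ℂ)
  have e1 : (∫ τ : ℝ, ((Real.exp (-(τ ^ 2 / (2 * (d : ℝ) ^ 2))) : ℝ) : ℂ) *
      Complex.exp (Complex.I * ((τ * w : ℝ) : ℂ))) =
      ∫ τ : ℝ, Complex.exp (Complex.I * (w : ℂ) * (τ : ℂ)) *
        Complex.exp (-(b : ℂ) * (τ : ℂ) ^ 2) := by
    refine integral_congr_ae (Filter.Eventually.of_forall fun τ => ?_)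
    change ((Real.exp (-(τ ^ 2 / (2 * (d : ℝ) ^ 2))) : ℝ) : ℂ) *
      Complex.exp (Complex.I * ((τ * w : ℝ) : ℂ)) = Complex.exp (Complex.I * (w : ℂ) * (τ : ℂ)) *
        Complex.exp (-(b : ℂ) * (τ : ℂ) ^ 2)
    rw [mul_comm]
    congr 1
    · congr 1
      push_cast
      ring
    · rw [Complex.ofReal_exp]
      congr 1
      rw [hb]
      push_cast
      ring
  rw [e1, key]
  have e2 : ((Real.pi : ℂ) / (b : ℂ)) ^ (1 / 2 : ℂ) =
      ((Real.sqrt (2 * Real.pi) * d : ℝ) : ℂ) := by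
    have h1 : ((Real.pi : ℂ) / (b : ℂ)) = ((2 * Real.pi * (d : ℝ) ^ 2 : ℝ) : ℂ) := by
      rw [← Complex.ofReal_div]
      congr 1
      rw [hb]
      field_simp
    have h2 : (1 / 2 : ℂ) = ((1 / 2 : ℝ) : ℂ) := by push_cast; ring
    rw [h1, h2, ← Complex.ofReal_cpow (by positivity)]
    congr 1
    rw [← Real.sqrt_eq_rpow, Real.sqrt_mul (by positivity), Real.sqrt_sq hd0.le]
  have e3 : Complex.exp (-(w : ℂ) ^ 2 / (4 * (b : ℂ))) =
      ((Real.exp (-((d : ℝ) ^ 2 * w ^ 2 / 2)) : ℝ) : ℂ) := by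
    rw [Complex.ofReal_exp]
    congr 1
    rw [← Complex.ofReal_pow, ← Complex.ofReal_neg]
    have : (4 * (b : ℂ)) = ((4 * b : ℝ) : ℂ) := by push_cast; ring
    rw [this, ← Complex.ofReal_div]
    congr 1
    rw [hb]
    field_simp
    ring
  rw [e2, e3, ← Complex.ofReal_mul, ← Complex.ofReal_mul]
  congr 1
  have hs : Real.sqrt (2 * Real.pi) ≠ 0 := (Real.sqrt_pos.2 (by positivity)).ne'
  field_simp

theorem j17010_nn (φ : ℝ → ℝ) (hφ : Bmp φ) (d : ℕ) (hd : 0 < d) (h : ℝ) (a : Eu d) :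
    0 ≤ Nf φ d h a := by
  refine setIntegral_nonneg measurableSet_Ioi fun s hs => ?_
  have hd0 : (0 : ℝ) < d := by exact_mod_cast hd
  exact mul_nonneg (hφ.nonneg _) (ga_pos d _ (div_pos hs hd0) a).le

theorem j17010_bd (φ : ℝ → ℝ) (hφ : Bmp φ) (d : ℕ) (hd : 0 < d) (h : ℝ) (hh : 0 < h) :
    ∃ C : ℝ, ∀ a : Eu d, Nf φ d h a ≤ C := by
  have hd0 : (0 : ℝ) < d := by exact_mod_cast hd
  obtain ⟨M, hM⟩ : ∃ M : ℝ, ∀ r ∈ Icc (1 / 128 : ℝ) 128, φ r ≤ M := by
    obtain ⟨M, hM⟩ := (isCompact_Icc (a := (1 / 128 : ℝ)) (b := 128)).bddAbove_image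
      hφ.smooth.continuous.continuousOn
    exact ⟨M, fun r hr => hM ⟨r, hr, rfl⟩⟩
  set G : ℝ := (2 * Real.pi * (h / 128 / d)) ^ (-(d : ℝ) / 2) with hG
  have hpi := Real.pi_pos
  have hG0 : 0 ≤ G := Real.rpow_nonneg (by positivity) _
  have hM0 : 0 ≤ M := (hφ.nonneg 1).trans (hM 1 ⟨by norm_num, by norm_num⟩)
  refine ⟨∫ s in Ioi (0 : ℝ), (Icc (h / 128) (128 * h)).indicator (fun _ => M * G) s,
    fun a => ?_⟩
  have hint : Integrable ((Icc (h / 128) (128 * h)).indicator (fun _ => M * G))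
      (volume.restrict (Ioi (0 : ℝ))) := by
    refine Integrable.restrict ?_
    rw [integrable_indicator_iff measurableSet_Icc]
    exact integrableOn_const (by
      rw [Real.volume_Icc]
      exact ENNReal.ofReal_ne_top)
  refine (le_abs_self _).trans ?_
  rw [← Real.norm_eq_abs]
  refine norm_integral_le_of_norm_le hint ?_
  rw [ae_restrict_iff' measurableSet_Ioi]
  refine Filter.Eventually.of_forall fun s hs => ?_
  have hs0 : 0 < s := hs
  have hga := ga_pos d (s / d) (div_pos hs0 hd0) a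
  rw [Real.norm_eq_abs, abs_of_nonneg (mul_nonneg (hφ.nonneg _) hga.le)]
  by_cases hsI : s ∈ Icc (h / 128) (128 * h)
  · rw [indicator_of_mem hsI]
    refine mul_le_mul (hM _ ⟨?_, ?_⟩) ?_ hga.le hM0
    · rw [le_div_iff₀ hh]
      have := hsI.1
      linarith
    · rw [div_le_iff₀ hh]
      exact hsI.2
    · unfold ga
      have h1 : Real.exp (-‖a‖ ^ 2 / (2 * (s / d))) ≤ 1 := by
        rw [Real.exp_le_one_iff]
        have : 0 ≤ ‖a‖ ^ 2 / (2 * (s / d)) := by positivity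
        rw [neg_div]
        linarith
      have h2 : (2 * Real.pi * (s / d)) ^ (-(d : ℝ) / 2) ≤ G := by
        refine Real.rpow_le_rpow_of_nonpos (by positivity) ?_ ?_
        · refine mul_le_mul_of_nonneg_left ?_ (by positivity)
          exact div_le_div_of_nonneg_right hsI.1 hd0.le
        · have : 0 ≤ (d : ℝ) / 2 := by positivity
          rw [neg_div]
          linarith
      calc (2 * Real.pi * (s / d)) ^ (-(d : ℝ) / 2) * Real.exp (-‖a‖ ^ 2 / (2 * (s / d)))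
          ≤ G * 1 := mul_le_mul h2 h1 (Real.exp_pos _).le hG0
        _ = G := mul_one G
  · rw [indicator_of_notMem hsI, hφ.supp (s / h) ?_, zero_mul]
    rw [mem_Icc, not_and_or] at hsI
    rcases hsI with h1 | h1
    · left
      rw [div_lt_iff₀ hh]
      have := not_le.1 h1
      linarith
    · right
      rw [lt_div_iff₀ hh]
      exact not_le.1 h1

theorem j17010_meas (φ : ℝ → ℝ) (hφ : Bmp φ) (d : ℕ) (h : ℝ) :
    Measurable (fun a : Eu d => Nf φ d h a) := by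
  have hm : Measurable (fun p : Eu d × ℝ => φ (p.2 / h) * ga d (p.2 / d) p.1) := by
    refine Measurable.mul ?_ ?_
    · exact hφ.smooth.continuous.measurable.comp (measurable_snd.div_const h)
    · unfold ga
      refine Measurable.mul ?_ ?_
      · exact (measurable_const.mul (measurable_snd.div_const _)).pow_const _
      · refine Real.measurable_exp.comp ?_
        exact (measurable_fst.norm.pow_const 2).neg.div
          (measurable_const.mul (measurable_snd.div_const _))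
  exact (hm.stronglyMeasurable.integral_prod_right' (ν := volume.restrict (Ioi (0 : ℝ)))).measurable

theorem four (φ : ℝ → ℝ) (hφ : Bmp φ) (d : ℕ) (hd : 32 ≤ d) (h : ℝ) (hh : 0 < h) (R : ℝ)
    (lam : ENNReal) {Q : Type} [MeasurableSpace Q] (μ : Measure Q) (Y Z : Q → Eu d)
    (hD : Dat d 1 lam μ Y Z) (x : Eu d) :
    ∫⁻ q, ENNReal.ofReal (Nf φ d h (x - Z q) * Hd d R (‖x - Y q‖ ^ 2)) ∂μ ≤
      ∫⁻ τ : ℝ, ENNReal.ofReal (Real.exp (-(τ ^ 2 / (2 * (d : ℝ) ^ 2)))) * ‖Psi φ d h μ Y Z τ x‖ₑ := by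
  have hd1 : 0 < d := by omega
  have hd0 : (0 : ℝ) < d := by exact_mod_cast hd1
  have hfin := hD.fin
  obtain ⟨C, hC⟩ := j17010_bd φ hφ d hd1 h hh
  set N : Q → ℝ := fun q => Nf φ d h (x - Z q) with hN
  have hN0 : ∀ q, 0 ≤ N q := fun q => j17010_nn φ hφ d hd1 h _
  have hNC : ∀ q, N q ≤ C := fun q => hC _
  have hNm : Measurable N := (j17010_meas φ hφ d h).comp (measurable_const.sub hD.mZ)
  have hNi : Integrable N μ := Integrable.of_bound hNm.aestronglyMeasurable C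
    (Filter.Eventually.of_forall fun q => by
      rw [Real.norm_eq_abs, abs_of_nonneg (hN0 q)]
      exact hNC q)
  set W : Q → ℝ := fun q => ‖x - Y q‖ ^ 2 - R ^ 2 with hW
  have hWm : Measurable W := ((measurable_const.sub hD.mY).norm.pow_const 2).sub_const _
  have hHd : ∀ q, Hd d R (‖x - Y q‖ ^ 2) =
      (d : ℝ) * Real.exp (-((d : ℝ) ^ 2 * W q ^ 2 / 2)) := fun q => rfl
  have hHm : Measurable (fun q => (d : ℝ) * Real.exp (-((d : ℝ) ^ 2 * W q ^ 2 / 2))) :=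
    (Real.measurable_exp.comp (((hWm.pow_const 2).const_mul _).div_const 2).neg).const_mul _
  have hH0 : ∀ q, 0 ≤ (d : ℝ) * Real.exp (-((d : ℝ) ^ 2 * W q ^ 2 / 2)) := fun q => by
    positivity
  have hH1 : ∀ q, (d : ℝ) * Real.exp (-((d : ℝ) ^ 2 * W q ^ 2 / 2)) ≤ d := fun q => by
    have : Real.exp (-((d : ℝ) ^ 2 * W q ^ 2 / 2)) ≤ 1 := by
      rw [Real.exp_le_one_iff]
      have : 0 ≤ (d : ℝ) ^ 2 * W q ^ 2 / 2 := by positivity
      linarith
    calc (d : ℝ) * Real.exp (-((d : ℝ) ^ 2 * W q ^ 2 / 2)) ≤ d * 1 :=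
          mul_le_mul_of_nonneg_left this hd0.le
      _ = d := mul_one _
  have hC0 : ∀ q : Q, 0 ≤ C := fun q => (hN0 q).trans (hNC q)
  have hNHi : Integrable (fun q => N q * ((d : ℝ) * Real.exp (-((d : ℝ) ^ 2 * W q ^ 2 / 2)))) μ := by
    refine Integrable.of_bound (hNm.mul hHm).aestronglyMeasurable (C * d)
      (Filter.Eventually.of_forall fun q => ?_)
    rw [Real.norm_eq_abs, abs_of_nonneg (mul_nonneg (hN0 q) (hH0 q))]
    exact mul_le_mul (hNC q) (hH1 q) (hH0 q) (hC0 q)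
  have hleft : ∫⁻ q, ENNReal.ofReal (Nf φ d h (x - Z q) * Hd d R (‖x - Y q‖ ^ 2)) ∂μ =
      ‖((∫ q, N q * ((d : ℝ) * Real.exp (-((d : ℝ) ^ 2 * W q ^ 2 / 2))) ∂μ : ℝ) : ℂ)‖ₑ := by
    have h1 := ofReal_integral_eq_lintegral_ofReal hNHi
      (Filter.Eventually.of_forall fun q => mul_nonneg (hN0 q) (hH0 q))
    have h2 : 0 ≤ ∫ q, N q * ((d : ℝ) * Real.exp (-((d : ℝ) ^ 2 * W q ^ 2 / 2))) ∂μ :=
      integral_nonneg fun q => mul_nonneg (hN0 q) (hH0 q)
    calc ∫⁻ q, ENNReal.ofReal (Nf φ d h (x - Z q) * Hd d R (‖x - Y q‖ ^ 2)) ∂μ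
        = ENNReal.ofReal (∫ q, N q * ((d : ℝ) * Real.exp (-((d : ℝ) ^ 2 * W q ^ 2 / 2))) ∂μ) :=
          h1.symm
      _ = _ := by
        rw [← ofReal_norm, Complex.norm_real, Real.norm_eq_abs, abs_of_nonneg h2]
  rw [hleft]
  set κ : ℝ := 1 / Real.sqrt (2 * Real.pi) with hκ
  have hκ0 : 0 ≤ κ := by positivity
  have hκ1 : κ ≤ 1 := by
    rw [hκ, div_le_one (Real.sqrt_pos.2 (by positivity))]
    rw [Real.one_le_sqrt]
    have := Real.pi_gt_three
    linarith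
  set E : ℝ → ℝ := fun τ => Real.exp (-(τ ^ 2 / (2 * (d : ℝ) ^ 2))) with hE
  have hEi : Integrable E := by
    have hb : (0 : ℝ) < 1 / (2 * (d : ℝ) ^ 2) := by positivity
    have := integrable_exp_neg_mul_sq hb
    have e : E = fun τ => Real.exp (-(1 / (2 * (d : ℝ) ^ 2)) * τ ^ 2) := by
      funext τ
      rw [hE]
      change Real.exp _ = Real.exp _
      congr 1
      ring
    rw [e]
    exact this
  have hEm : Measurable E := by
    rw [hE]
    fun_prop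
  -- the function on the product
  set F : Q → ℝ → ℂ := fun q τ => (N q : ℂ) * ((E τ : ℂ) *
    Complex.exp (Complex.I * ((τ * W q : ℝ) : ℂ))) with hF
  have hFm : Measurable (Function.uncurry F) := by
    have m1 : Measurable (fun p : Q × ℝ => (N p.1 : ℂ)) :=
      Complex.measurable_ofReal.comp (hNm.comp measurable_fst)
    have m2 : Measurable (fun p : Q × ℝ => (E p.2 : ℂ)) :=
      Complex.measurable_ofReal.comp (hEm.comp measurable_snd)
    have m3 : Measurable (fun p : Q × ℝ => Complex.exp (Complex.I * ((p.2 * W p.1 : ℝ) : ℂ))) :=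
      Complex.measurable_exp.comp (measurable_const.mul (Complex.measurable_ofReal.comp
        (measurable_snd.mul (hWm.comp measurable_fst))))
    exact m1.mul (m2.mul m3)
  have hnexp : ∀ y : ℝ, ‖Complex.exp (Complex.I * (y : ℂ))‖ = 1 := fun y => by
    rw [mul_comm]
    exact Complex.norm_exp_ofReal_mul_I y
  have hFi : Integrable (Function.uncurry F) (μ.prod volume) := by
    refine Integrable.mono' (hNi.mul_prod hEi) hFm.aestronglyMeasurable
      (Filter.Eventually.of_forall fun p => ?_)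
    obtain ⟨q, τ⟩ := p
    change ‖(N q : ℂ) * ((E τ : ℂ) * Complex.exp (Complex.I * ((τ * W q : ℝ) : ℂ)))‖ ≤ N q * E τ
    rw [norm_mul, norm_mul, hnexp, mul_one, Complex.norm_real, Complex.norm_real,
      Real.norm_eq_abs, Real.norm_eq_abs, abs_of_nonneg (hN0 q),
      abs_of_nonneg (Real.exp_pos _).le]
  have hmain : ((∫ q, N q * ((d : ℝ) * Real.exp (-((d : ℝ) ^ 2 * W q ^ 2 / 2))) ∂μ : ℝ) : ℂ) =
      (κ : ℂ) * ∫ τ : ℝ, (E τ : ℂ) * (Complex.exp (Complex.I * ((-(τ * R ^ 2) : ℝ) : ℂ)) *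
        Psi φ d h μ Y Z τ x) := by
    have h1 : ((∫ q, N q * ((d : ℝ) * Real.exp (-((d : ℝ) ^ 2 * W q ^ 2 / 2))) ∂μ : ℝ) : ℂ) =
        ∫ q, ((κ : ℂ) * ∫ τ : ℝ, F q τ) ∂μ := by
      refine integral_complex_ofReal.symm.trans ?_
      refine integral_congr_ae (Filter.Eventually.of_forall fun q => ?_)
      change ((N q * ((d : ℝ) * Real.exp (-((d : ℝ) ^ 2 * W q ^ 2 / 2))) : ℝ) : ℂ) =
        (κ : ℂ) * ∫ τ, (N q : ℂ) * ((E τ : ℂ) *
          Complex.exp (Complex.I * ((τ * W q : ℝ) : ℂ)))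
      rw [Complex.ofReal_mul, j17010_gauss d hd1 (W q), integral_const_mul]
      ring
    rw [h1, integral_const_mul, integral_integral_swap hFi]
    congr 1
    refine integral_congr_ae (Filter.Eventually.of_forall fun τ => ?_)
    change ∫ q, (N q : ℂ) * ((E τ : ℂ) * Complex.exp (Complex.I * ((τ * W q : ℝ) : ℂ))) ∂μ =
      (E τ : ℂ) * (Complex.exp (Complex.I * ((-(τ * R ^ 2) : ℝ) : ℂ)) *
        ∫ q, Gf φ d h τ x (Y q) (Z q) ∂μ)
    rw [← integral_const_mul, ← integral_const_mul]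
    refine integral_congr_ae (Filter.Eventually.of_forall fun q => ?_)
    change (N q : ℂ) * ((E τ : ℂ) * Complex.exp (Complex.I * ((τ * W q : ℝ) : ℂ))) =
      (E τ : ℂ) * (Complex.exp (Complex.I * ((-(τ * R ^ 2) : ℝ) : ℂ)) *
        ((N q : ℂ) * Complex.exp (Complex.I * ((τ * ‖x - Y q‖ ^ 2 : ℝ) : ℂ))))
    have e : Complex.exp (Complex.I * ((τ * W q : ℝ) : ℂ)) =
        Complex.exp (Complex.I * ((-(τ * R ^ 2) : ℝ) : ℂ)) *
        Complex.exp (Complex.I * ((τ * ‖x - Y q‖ ^ 2 : ℝ) : ℂ)) := by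
      rw [← Complex.exp_add]
      congr 1
      rw [hW]
      push_cast
      ring
    rw [e]
    ring
  rw [hmain, enorm_mul]
  have hκe : ‖(κ : ℂ)‖ₑ ≤ 1 := by
    rw [← ofReal_norm, Complex.norm_real, Real.norm_eq_abs, abs_of_nonneg hκ0]
    exact ENNReal.ofReal_le_one.2 hκ1
  calc ‖(κ : ℂ)‖ₑ * ‖∫ τ : ℝ, (E τ : ℂ) * (Complex.exp (Complex.I * ((-(τ * R ^ 2) : ℝ) : ℂ)) *
        Psi φ d h μ Y Z τ x)‖ₑ
      ≤ 1 * ∫⁻ τ : ℝ, ‖(E τ : ℂ) * (Complex.exp (Complex.I * ((-(τ * R ^ 2) : ℝ) : ℂ)) *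
        Psi φ d h μ Y Z τ x)‖ₑ :=
        mul_le_mul' hκe (enorm_integral_le_lintegral_enorm _)
    _ = ∫⁻ τ : ℝ, ENNReal.ofReal (Real.exp (-(τ ^ 2 / (2 * (d : ℝ) ^ 2)))) *
        ‖Psi φ d h μ Y Z τ x‖ₑ := by
        rw [one_mul]
        refine lintegral_congr fun τ => ?_
        rw [enorm_mul, enorm_mul]
        have e1 : ‖Complex.exp (Complex.I * ((-(τ * R ^ 2) : ℝ) : ℂ))‖ₑ = 1 := by
          rw [← ofReal_norm, hnexp, ENNReal.ofReal_one]
        have e2 : ‖(E τ : ℂ)‖ₑ = ENNReal.ofReal (Real.exp (-(τ ^ 2 / (2 * (d : ℝ) ^ 2)))) := by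
          rw [← ofReal_norm, Complex.norm_real, Real.norm_eq_abs,
            abs_of_nonneg (Real.exp_pos _).le]
        rw [e1, e2, one_mul]

end FM954
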