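import Mathlib
import Pool.Agent.Helper954.FM.Base

set_option autoImplicit false
open MeasureTheory Set Metric
open scoped ENNReal

namespace FM954

theorem ga_lower (d : ℕ) (hd : 32 ≤ d) (a : Eu d) (ha : a ≠ 0) (s : ℝ) (h1 : ‖a‖ ^ 2 ≤ s)
    (h2 : s ≤ ‖a‖ ^ 2 * (1 + 1 / Real.sqrt d)) :
    ((d : ℝ) / (2 * Real.pi * Real.exp 1)) ^ ((d : ℝ) / 2) * (‖a‖ ^ d)⁻¹ * Real.exp (-(1 / 2))
      / (2 * ‖a‖ ^ 2) ≤ ga d (s / d) a / s := by
  have hD : (32 : ℝ) ≤ d := by exact_mod_cast hd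
  have hD0 : (0 : ℝ) < d := by linarith
  have hr : 0 < ‖a‖ := norm_pos_iff.2 ha
  set r := ‖a‖ with hrdef
  have hr2 : 0 < r ^ 2 := by positivity
  have hs : 0 < s := lt_of_lt_of_le hr2 h1
  have hsq : 0 < Real.sqrt d := Real.sqrt_pos.2 hD0
  have hsq1 : 1 ≤ Real.sqrt d := by
    rw [Real.one_le_sqrt]; linarith
  have hpi := Real.pi_pos
  -- the ratio
  set u := s / r ^ 2 with hu
  have hu1 : 1 ≤ u := by rw [hu, le_div_iff₀ hr2]; linarith
  have hu0 : 0 < u := by linarith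
  have hu2 : u ≤ 1 + 1 / Real.sqrt d := by
    rw [hu, div_le_iff₀ hr2]; linarith
  have hsu : s = r ^ 2 * u := by rw [hu]; field_simp
  have hlog : Real.log u ≤ u - 1 := Real.log_le_sub_one_of_pos hu0
  have hη : (u - 1) ^ 2 ≤ 1 / d := by
    have h3 : u - 1 ≤ 1 / Real.sqrt d := by linarith
    have h4 : (u - 1) ^ 2 ≤ (1 / Real.sqrt d) ^ 2 := by
      apply pow_le_pow_left₀ (by linarith) h3
    rwa [div_pow, one_pow, Real.sq_sqrt hD0.le] at h4
  have hkey : Real.log u + 1 / u - 1 ≤ 1 / d := by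
    have h5 : u - 1 + 1 / u - 1 = (u - 1) ^ 2 / u := by field_simp; ring
    have h6 : (u - 1) ^ 2 / u ≤ (u - 1) ^ 2 := div_le_self (sq_nonneg _) hu1
    linarith
  have hga : Real.exp (-((d : ℝ) / 2) * (Real.log (2 * Real.pi * (r ^ 2 / d)) + 1) - 1 / 2)
      ≤ ga d (s / d) a := by
    unfold ga
    rw [← hrdef]
    have hpos : 0 < 2 * Real.pi * (s / d) := by positivity
    rw [Real.rpow_def_of_pos hpos, ← Real.exp_add]
    apply Real.exp_le_exp.2
    have e1 : 2 * Real.pi * (s / d) = (2 * Real.pi * (r ^ 2 / d)) * u := by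
      rw [hsu]; ring
    rw [e1, Real.log_mul (by positivity) hu0.ne']
    have e2 : -r ^ 2 / (2 * (s / d)) = -((d : ℝ) / 2) * (1 / u) := by
      rw [hsu]; field_simp
    rw [e2]
    have h7 : (d : ℝ) / 2 * (Real.log u + 1 / u - 1) ≤ (d : ℝ) / 2 * (1 / d) := by gcongr
    have h8 : (d : ℝ) / 2 * (1 / d) = 1 / 2 := by field_simp
    rw [h8] at h7
    have h9 : -(d : ℝ) / 2 = -((d : ℝ) / 2) := by ring
    rw [h9]
    nlinarith [h7]
  have hexp : ((d : ℝ) / (2 * Real.pi * Real.exp 1)) ^ ((d : ℝ) / 2) * (r ^ d)⁻¹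
      * Real.exp (-(1 / 2))
      = Real.exp (-((d : ℝ) / 2) * (Real.log (2 * Real.pi * (r ^ 2 / d)) + 1) - 1 / 2) := by
    have hpos : 0 < (d : ℝ) / (2 * Real.pi * Real.exp 1) := by positivity
    have e3 : (r ^ d)⁻¹ = Real.exp (-(d : ℝ) * Real.log r) := by
      rw [neg_mul, Real.exp_neg, ← Real.log_pow, Real.exp_log (by positivity)]
    rw [Real.rpow_def_of_pos hpos, e3, ← Real.exp_add, ← Real.exp_add]
    congr 1
    have e4 : Real.log ((d : ℝ) / (2 * Real.pi * Real.exp 1))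
        = Real.log d - (Real.log (2 * Real.pi) + 1) := by
      rw [Real.log_div (by positivity) (by positivity), Real.log_mul (by positivity)
        (Real.exp_pos _).ne', Real.log_exp]
    have e5 : Real.log (2 * Real.pi * (r ^ 2 / d))
        = Real.log (2 * Real.pi) + 2 * Real.log r - Real.log d := by
      rw [Real.log_mul (by positivity) (by positivity), Real.log_div (by positivity) hD0.ne',
        Real.log_pow]
      push_cast
      ring
    rw [e4, e5]
    ring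
  rw [hexp]
  have hs2 : s ≤ 2 * r ^ 2 := by
    have h10 : 1 / Real.sqrt d ≤ 1 := by
      rw [div_le_one hsq]; exact hsq1
    nlinarith [h2, hr2, h10]
  have hgapos : 0 ≤ ga d (s / d) a := (Real.exp_pos _).le.trans hga
  calc Real.exp (-((d : ℝ) / 2) * (Real.log (2 * Real.pi * (r ^ 2 / d)) + 1) - 1 / 2) / (2 * r ^ 2)
      ≤ ga d (s / d) a / (2 * r ^ 2) := by gcongr
    _ ≤ ga d (s / d) a / s := by gcongr

theorem kern0 : ∃ C : ℝ, 0 < C ∧ ∀ d : ℕ, 32 ≤ d → ∀ a : Eu d, a ≠ 0 →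
    ENNReal.ofReal ((‖a‖ ^ d)⁻¹) * (volume (ball (0 : Eu d) 1))⁻¹ ≤
      ENNReal.ofReal (C * d) * ∫⁻ s in Ioi (0 : ℝ),
        {s : ℝ | ‖a‖ ^ 2 ≤ 2 * s ∧ s ≤ 2 * ‖a‖ ^ 2}.indicator
          (fun s => ENNReal.ofReal (ga d (s / d) a / s)) s := by
  obtain ⟨C0, hC0, hV⟩ := vol_ball_lower
  refine ⟨2 * C0 * Real.exp (1 / 2), by positivity, ?_⟩
  intro d hd a ha
  have hD : (32 : ℝ) ≤ d := by exact_mod_cast hd
  have hD0 : (0 : ℝ) < d := by linarith
  have hr : 0 < ‖a‖ := norm_pos_iff.2 ha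
  have hsq : 0 < Real.sqrt d := Real.sqrt_pos.2 hD0
  have hsq1 : 1 ≤ Real.sqrt d := by
    rw [Real.one_le_sqrt]; linarith
  have hpi := Real.pi_pos
  have hV1 := hV d (by omega)
  set r := ‖a‖ with hrdef
  have hr2 : 0 < r ^ 2 := by positivity
  set V := volume (ball (0 : Eu d) 1) with hVdef
  set B : ℝ := ((d : ℝ) / (2 * Real.pi * Real.exp 1)) ^ ((d : ℝ) / 2) with hB
  have hBpos : 0 < B := by positivity
  have hVr : 0 < V.toReal := by
    by_contra hcon
    have h0 : V.toReal = 0 := le_antisymm (not_lt.1 hcon) ENNReal.toReal_nonneg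
    rw [h0, mul_zero] at hV1
    linarith
  have hVne : V ≠ ⊤ := by
    intro h
    rw [h] at hVr
    simp at hVr
  have hVinv : V⁻¹ = ENNReal.ofReal (V.toReal)⁻¹ := by
    rw [ENNReal.ofReal_inv_of_pos hVr, ENNReal.ofReal_toReal hVne]
  have hL : ENNReal.ofReal ((r ^ d)⁻¹) * V⁻¹ ≤ ENNReal.ofReal ((r ^ d)⁻¹ * (C0 * Real.sqrt d * B)) := by
    rw [hVinv, ← ENNReal.ofReal_mul (by positivity)]
    apply ENNReal.ofReal_le_ofReal
    have : (V.toReal)⁻¹ ≤ C0 * Real.sqrt d * B := by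
      rw [inv_le_iff_one_le_mul₀ hVr]
      exact hV1
    gcongr
  refine hL.trans ?_
  set c : ℝ := B * (r ^ d)⁻¹ * Real.exp (-(1 / 2)) / (2 * r ^ 2) with hc
  have hcpos : 0 < c := by positivity
  set h : ℝ := 1 / Real.sqrt d with hh
  have hhpos : 0 < h := by positivity
  have hh1 : h ≤ 1 := by rw [hh, div_le_one hsq]; exact hsq1
  have hint : ENNReal.ofReal (c * (r ^ 2 * h)) ≤ ∫⁻ s in Ioi (0 : ℝ),
        {s : ℝ | r ^ 2 ≤ 2 * s ∧ s ≤ 2 * r ^ 2}.indicator
          (fun s => ENNReal.ofReal (ga d (s / d) a / s)) s := by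
    calc ENNReal.ofReal (c * (r ^ 2 * h))
        = ENNReal.ofReal c * volume (Icc (r ^ 2) (r ^ 2 * (1 + h))) := by
          rw [Real.volume_Icc, ← ENNReal.ofReal_mul hcpos.le]
          congr 1
          ring
      _ = ∫⁻ _ in Icc (r ^ 2) (r ^ 2 * (1 + h)), ENNReal.ofReal c := by
          rw [setLIntegral_const]
      _ ≤ ∫⁻ s in Icc (r ^ 2) (r ^ 2 * (1 + h)),
            {s : ℝ | r ^ 2 ≤ 2 * s ∧ s ≤ 2 * r ^ 2}.indicator
            (fun s => ENNReal.ofReal (ga d (s / d) a / s)) s := by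
          apply setLIntegral_mono' measurableSet_Icc
          intro s hs
          have hs2 : s ≤ 2 * r ^ 2 := by
            have := hs.2
            nlinarith
          have hmem : s ∈ {s : ℝ | r ^ 2 ≤ 2 * s ∧ s ≤ 2 * r ^ 2} := by
            refine ⟨?_, hs2⟩
            have := hs.1
            linarith
          rw [indicator_of_mem hmem]
          apply ENNReal.ofReal_le_ofReal
          exact ga_lower d hd a ha s hs.1 hs.2
      _ ≤ _ := by
          apply lintegral_mono_set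
          intro s hs
          exact lt_of_lt_of_le hr2 hs.1
  calc ENNReal.ofReal ((r ^ d)⁻¹ * (C0 * Real.sqrt d * B))
      = ENNReal.ofReal (2 * C0 * Real.exp (1 / 2) * d) * ENNReal.ofReal (c * (r ^ 2 * h)) := by
        rw [← ENNReal.ofReal_mul (by positivity)]
        congr 1
        rw [hc, hh]
        have e1 : Real.exp (-(1 / 2)) = (Real.exp (1 / 2))⁻¹ := Real.exp_neg _
        have e2 : (d : ℝ) = Real.sqrt d * Real.sqrt d := (Real.mul_self_sqrt hD0.le).symm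
        rw [e1]
        have hE : Real.exp (1 / 2) ≠ 0 := (Real.exp_pos _).ne'
        have hrd : r ^ d ≠ 0 := by positivity
        have e3 : 2 * C0 * Real.exp (1 / 2) * (d : ℝ) *
            (B * (r ^ d)⁻¹ * (Real.exp (1 / 2))⁻¹ / (2 * r ^ 2) * (r ^ 2 * (1 / Real.sqrt d)))
            = C0 * B * (r ^ d)⁻¹ * ((d : ℝ) / Real.sqrt d) := by
          field_simp
        rw [e3, Real.div_sqrt]
        ring
    _ ≤ _ := by gcongr

end FM954
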