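import Mathlib
import Pool.Agent.Helper954.FM.Base
import Pool.Agent.Helper954.FM.K0

set_option autoImplicit false
open MeasureTheory Set Metric
open scoped ENNReal

namespace FM954

theorem kern_vol (d : ℕ) (hd : 1 ≤ d) (R : ℝ) (hR : 0 < R) :
    (volume (shell d R))⁻¹ =
      ENNReal.ofReal (2 * (R ^ d)⁻¹) * (volume (ball (0 : Eu d) 1))⁻¹ := by
  have hV0 : volume (ball (0 : Eu d) 1) ≠ 0 := (measure_ball_pos _ _ one_pos).ne'
  have hV1 : volume (ball (0 : Eu d) 1) ≠ ⊤ := measure_ball_lt_top.ne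
  have hRd : 0 < R ^ d := by positivity
  rw [volume_shell d hd R hR, Measure.addHaar_ball_of_pos _ _ hR, finrank_euclideanSpace_fin,
    div_eq_mul_inv, ENNReal.mul_inv (Or.inr (by simp)) (Or.inr (by simp)), inv_inv,
    ENNReal.mul_inv (Or.inr hV1) (Or.inr hV0), ← ENNReal.ofReal_inv_of_pos hRd,
    ENNReal.ofReal_mul (by norm_num)]
  have h2 : ENNReal.ofReal 2 = 2 := by norm_num
  rw [h2]
  ring

theorem kern_Pk (d : ℕ) (hd : 32 ≤ d) (R : ℝ) (hR : 1 / 2 ≤ R) (X Z : Eu d)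
    (hX : X ∈ shell d R) (hXZ : X ≠ Z) (hlt : ‖Z‖ ^ 2 < ‖X‖ ^ 2) :
    Pk d X Z ≤ R ^ d * (5 * (‖X‖ ^ 2 - ‖Z‖ ^ 2)) * (‖X - Z‖ ^ d)⁻¹ := by
  obtain ⟨h1, h2⟩ := hX
  have hq := qd_ge d (by omega)
  have hd' : (32 : ℝ) ≤ d := by exact_mod_cast hd
  have hlog := Real.log_two_lt_d9
  have hlog0 : 0 < Real.log 2 := Real.log_pos (by norm_num)
  have h3 : Real.log 2 / d ≤ 0.03 := by
    rw [div_le_iff₀ (by linarith)]
    linarith
  have hq2 : 0.97 ≤ qd d := by linarith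
  have hX1 : 0.485 < ‖X‖ := by nlinarith
  have hu : 1 ≤ 5 * ‖X‖ ^ 2 := by nlinarith
  have hu0 : 0 < ‖X‖ ^ 2 := by nlinarith
  have hw : 0 < ‖X - Z‖ ^ d := pow_pos (norm_pos_iff.mpr (sub_ne_zero.mpr hXZ)) d
  have hd0 : 0 < ‖X‖ ^ 2 - ‖Z‖ ^ 2 := by linarith
  have e : Pk d X Z = ‖X‖ ^ d * ((‖X‖ ^ 2 - ‖Z‖ ^ 2) / ‖X‖ ^ 2) * (‖X - Z‖ ^ d)⁻¹ := by
    unfold Pk
    rw [div_eq_mul_inv, mul_inv, div_eq_mul_inv]
    ring
  rw [e]
  have h4 : ‖X‖ ^ d ≤ R ^ d := pow_le_pow_left₀ (norm_nonneg _) h2.le d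
  have h5 : (‖X‖ ^ 2 - ‖Z‖ ^ 2) / ‖X‖ ^ 2 ≤ 5 * (‖X‖ ^ 2 - ‖Z‖ ^ 2) := by
    rw [div_le_iff₀ hu0]
    nlinarith
  have h6 : 0 ≤ (‖X‖ ^ 2 - ‖Z‖ ^ 2) / ‖X‖ ^ 2 := by positivity
  have h7 : 0 ≤ R ^ d := by positivity
  exact mul_le_mul_of_nonneg_right (mul_le_mul h4 h5 h6 h7) (by positivity)

theorem kern : ∃ C : ℝ, 0 < C ∧ ∀ d : ℕ, 32 ≤ d → ∀ R : ℝ, 1 / 2 ≤ R → R ≤ 1 → ∀ x y z : Eu d,
    bs d R (x - y) * ENNReal.ofReal (Pk d (x - y) (z - y)) ≤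
      (shell d R).indicator (fun _ => (1 : ENNReal)) (x - y) *
        ENNReal.ofReal (C * d * (‖x - y‖ ^ 2 - ‖z - y‖ ^ 2)) *
        ∫⁻ s in Ioi (0 : ℝ), {s : ℝ | ‖x - z‖ ^ 2 ≤ 2 * s ∧ s ≤ 2 * ‖x - z‖ ^ 2}.indicator
          (fun s => ENNReal.ofReal (ga d (s / d) (x - z) / s)) s := by
  obtain ⟨C0, hC0, hk⟩ := kern0
  refine ⟨10 * C0, by positivity, ?_⟩
  intro d hd R hR hR1 x y z
  obtain ⟨I, hI⟩ : ∃ I, I = ∫⁻ s in Ioi (0 : ℝ),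
      {s : ℝ | ‖x - z‖ ^ 2 ≤ 2 * s ∧ s ≤ 2 * ‖x - z‖ ^ 2}.indicator
          (fun s => ENNReal.ofReal (ga d (s / d) (x - z) / s)) s := ⟨_, rfl⟩
  rw [← hI]
  by_cases hsh : x - y ∈ shell d R
  swap
  · unfold bs
    rw [indicator_of_notMem hsh, zero_mul]
    exact zero_le
  unfold bs
  rw [indicator_of_mem hsh, indicator_of_mem hsh, one_mul]
  by_cases hxz : x = z
  · have h0 : Pk d (x - y) (z - y) = 0 := by
      unfold Pk
      rw [hxz, sub_self (z - y), norm_zero, zero_pow (by omega), mul_zero, div_zero]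
    rw [h0, ENNReal.ofReal_zero, mul_zero]
    exact zero_le
  rcases le_or_gt (‖x - y‖ ^ 2) (‖z - y‖ ^ 2) with hle | hlt
  · have h0 : Pk d (x - y) (z - y) ≤ 0 := by
      unfold Pk
      apply div_nonpos_of_nonpos_of_nonneg
      · exact mul_nonpos_of_nonneg_of_nonpos (by positivity) (by linarith)
      · positivity
    rw [ENNReal.ofReal_of_nonpos h0, mul_zero]
    exact zero_le
  have hR0 : 0 < R := by linarith
  have hP := kern_Pk d hd R hR (x - y) (z - y) hsh (fun h => hxz (sub_left_injective h)) hlt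
  rw [sub_sub_sub_cancel_right] at hP
  have hker := hk d hd (x - z) (sub_ne_zero.mpr hxz)
  rw [← hI] at hker
  rw [kern_vol d (by omega) R hR0]
  have hRd : 0 < R ^ d := by positivity
  have hd0 : 0 < ‖x - y‖ ^ 2 - ‖z - y‖ ^ 2 := by linarith
  calc ENNReal.ofReal (2 * (R ^ d)⁻¹) * (volume (ball (0 : Eu d) 1))⁻¹ *
        ENNReal.ofReal (Pk d (x - y) (z - y))
      ≤ ENNReal.ofReal (2 * (R ^ d)⁻¹) * (volume (ball (0 : Eu d) 1))⁻¹ *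
        ENNReal.ofReal (R ^ d * (5 * (‖x - y‖ ^ 2 - ‖z - y‖ ^ 2)) * (‖x - z‖ ^ d)⁻¹) := by
        gcongr
    _ = ENNReal.ofReal (10 * (‖x - y‖ ^ 2 - ‖z - y‖ ^ 2)) *
        (ENNReal.ofReal ((‖x - z‖ ^ d)⁻¹) * (volume (ball (0 : Eu d) 1))⁻¹) := by
        have e1 : ∀ A V' B : ENNReal, A * V' * B = (A * B) * V' := by
          intro A V' B; ring
        rw [e1, ← ENNReal.ofReal_mul (by positivity),
          ← mul_assoc (ENNReal.ofReal (10 * (‖x - y‖ ^ 2 - ‖z - y‖ ^ 2))),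
          ← ENNReal.ofReal_mul (by positivity)]
        congr 2
        field_simp
        ring
    _ ≤ ENNReal.ofReal (10 * (‖x - y‖ ^ 2 - ‖z - y‖ ^ 2)) *
        (ENNReal.ofReal (C0 * d) * I) := by
        gcongr
    _ = ENNReal.ofReal (10 * C0 * d * (‖x - y‖ ^ 2 - ‖z - y‖ ^ 2)) * I := by
        rw [← mul_assoc, ← ENNReal.ofReal_mul (by positivity)]
        congr 2
        ring

end FM954
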