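import Mathlib
import Pool.Agent.Helper954.FM.Base
import Pool.Agent.Helper954.FM.K1

set_option autoImplicit false
open MeasureTheory Set Metric
open scoped ENNReal

namespace FM954

theorem fm_g_cont (d : ℕ) (hd : 32 ≤ d) (φ : ℝ → ℝ) (hφ : Bmp φ) (h : ℝ) (hh : 0 < h) (a : Eu d) :
    Integrable (fun s : ℝ => φ (s / h) * ga d (s / d) a) := by
  have hdpos : (0 : ℝ) < d := by
    have : 0 < d := by omega
    exact_mod_cast this
  have hI : IntegrableOn (fun s : ℝ => φ (s / h) * ga d (s / d) a) (Icc (h / 128) (128 * h)) := by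
    apply ContinuousOn.integrableOn_compact isCompact_Icc
    apply ContinuousOn.mul
    · exact (hφ.smooth.continuous.comp (by fun_prop)).continuousOn
    · unfold ga
      apply ContinuousOn.mul
      · apply ContinuousOn.rpow_const (by fun_prop)
        intro s hs
        left
        have : 0 < s := lt_of_lt_of_le (by positivity) hs.1
        positivity
      · apply Real.continuous_exp.comp_continuousOn
        apply ContinuousOn.div (by fun_prop) (by fun_prop)
        intro s hs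
        have : 0 < s := lt_of_lt_of_le (by positivity) hs.1
        positivity
  apply hI.integrable_of_forall_notMem_eq_zero
  intro s hs
  have : φ (s / h) = 0 := by
    apply hφ.supp
    by_contra hcon
    push Not at hcon
    apply hs
    constructor
    · have := hcon.1
      rw [le_div_iff₀ hh] at this
      linarith
    · have := hcon.2
      rw [div_le_iff₀ hh] at this
      linarith
  rw [this, zero_mul]

theorem split : ∃ C : ℝ, 0 < C ∧ ∀ φ : ℝ → ℝ, Bmp φ → ∀ d : ℕ, 32 ≤ d → ∀ h : ℝ, 24 / d ≤ h → h ≤ 1 →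
    ∀ R : ℝ, 1 / 2 ≤ R → R ≤ 1 → ∀ x y z : Eu d, cls d h (R ^ 2 - ‖z - y‖ ^ 2) →
    bs d R (x - y) * ENNReal.ofReal (Pk d (x - y) (z - y)) ≤
      ENNReal.ofReal C * (ENNReal.ofReal (Nf φ d h (x - z) * Hd d R (‖x - y‖ ^ 2)) +
        ∫⁻ s in Ioi (0 : ℝ), Aw d h s (‖x - z‖ ^ 2) (‖x - y‖ ^ 2 - ‖z - y‖ ^ 2) *
          ENNReal.ofReal (ga d (s / d) (x - z) / s)) := by
  obtain ⟨C1, hC1, hk⟩ := kern
  refine ⟨3 * C1, by positivity, ?_⟩
  intro φ hφ d hd h hh h1 R hR hR1 x y z hcls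
  have hdpos : (0 : ℝ) < d := by
    have : 0 < d := by omega
    exact_mod_cast this
  have hhpos : 0 < h := lt_of_lt_of_le (by positivity) hh
  refine (hk d hd R hR hR1 x y z).trans ?_
  set t : ℝ := ‖x - y‖ ^ 2 - ‖z - y‖ ^ 2 with ht
  set a : Eu d := x - z with ha
  by_cases hX : x - y ∈ shell d R
  swap
  · rw [indicator_of_notMem hX, zero_mul, zero_mul]
    exact bot_le
  rw [indicator_of_mem hX, one_mul]
  rcases le_or_gt t 0 with ht0 | ht0
  · rw [ENNReal.ofReal_of_nonpos (by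
      have : 0 ≤ C1 * d := by positivity
      nlinarith), zero_mul]
    exact bot_le
  -- estimates
  have hq0 := qd_pos d
  have hq1 := qd_lt_one d (by omega)
  have hq := qd_ge d (by omega)
  have hRpos : 0 < R := by linarith
  obtain ⟨hX1, hX2⟩ := hX
  have hXn := norm_nonneg (x - y)
  have hu1 : ‖x - y‖ ^ 2 < R ^ 2 := by gcongr
  have hu2 : (qd d * R) ^ 2 < ‖x - y‖ ^ 2 := by gcongr
  have hlog : Real.log 2 / d ≤ 0.7 / d := by
    have := Real.log_two_lt_d9
    gcongr
    linarith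
  have hdiff : R ^ 2 - ‖x - y‖ ^ 2 ≤ 1.4 / d := by
    have e1 : R ^ 2 - ‖x - y‖ ^ 2 ≤ (1 - qd d ^ 2) * R ^ 2 := by
      rw [mul_pow] at hu2
      linarith
    have e2 : (1 - qd d ^ 2) ≤ 2 * (1 - qd d) := by nlinarith [sq_nonneg (1 - qd d)]
    have e3 : 0 ≤ 1 - qd d ^ 2 := by nlinarith
    have e4 : R ^ 2 ≤ 1 := by nlinarith
    have e5 : (1 - qd d ^ 2) * R ^ 2 ≤ 1 - qd d ^ 2 := mul_le_of_le_one_right e3 e4
    have e6 : (1.4 : ℝ) / d = 2 * (0.7 / d) := by ring
    rw [e6]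
    linarith
  have htl : t < R ^ 2 - ‖z - y‖ ^ 2 := by rw [ht]; linarith
  have hth : t ≤ h := by
    have := hcls.2.1
    linarith
  have hor : h / 16 ≤ t ∨ h ≤ 100 / d := by
    rcases hcls.2.2 with h8 | h100
    · left
      have e1 : R ^ 2 - ‖z - y‖ ^ 2 - t ≤ 1.4 / d := by rw [ht]; linarith
      have e2 : (24 : ℝ) / d = 24 * (1 / d) := by ring
      have e3 : (1.4 : ℝ) / d = 1.4 * (1 / d) := by ring
      rw [e2] at hh
      rw [e3] at e1
      have e4 : 0 < 1 / (d : ℝ) := by positivity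
      linarith
    · exact Or.inr h100
  have hga : ∀ s : ℝ, 0 < s → 0 < ga d (s / d) a := fun s hs => ga_pos d _ (by positivity) a
  -- pointwise bound
  have hpt : ∀ s ∈ Ioi (0 : ℝ), ENNReal.ofReal (C1 * d * t) *
      {s : ℝ | ‖a‖ ^ 2 ≤ 2 * s ∧ s ≤ 2 * ‖a‖ ^ 2}.indicator
          (fun s => ENNReal.ofReal (ga d (s / d) a / s)) s ≤
      ENNReal.ofReal (C1 * d) * ENNReal.ofReal (φ (s / h) * ga d (s / d) a) +
      ENNReal.ofReal C1 * (Aw d h s (‖a‖ ^ 2) t * ENNReal.ofReal (ga d (s / d) a / s)) := by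
    intro s hs
    have hs0 : 0 < s := hs
    by_cases hW : s ∈ {s : ℝ | ‖a‖ ^ 2 ≤ 2 * s ∧ s ≤ 2 * ‖a‖ ^ 2}
    swap
    · rw [indicator_of_notMem hW, mul_zero]
      exact bot_le
    rw [indicator_of_mem hW]
    obtain ⟨hW1, hW2⟩ := hW
    by_cases hB : s < h / 64 ∨ 64 * h < s
    · have hA : Aw d h s (‖a‖ ^ 2) t = ENNReal.ofReal (d * t) := by
        unfold Aw
        rw [if_pos ⟨hB, hW1, hW2, ht0, hth, hor⟩]
      rw [hA]
      refine le_trans (le_of_eq ?_) le_add_self
      rw [← mul_assoc, ← ENNReal.ofReal_mul hC1.le]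
      congr 2
      ring
    · push Not at hB
      refine le_trans ?_ le_self_add
      rw [← ENNReal.ofReal_mul (by positivity), ← ENNReal.ofReal_mul (by positivity)]
      apply ENNReal.ofReal_le_ofReal
      have hbig : 64 ≤ φ (s / h) := by
        apply hφ.big
        · rw [le_div_iff₀ hhpos]; linarith [hB.1]
        · rw [div_le_iff₀ hhpos]; linarith [hB.2]
      have hhs : h / s ≤ φ (s / h) := by
        refine le_trans ?_ hbig
        rw [div_le_iff₀ hs0]
        linarith [hB.1]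
      have hg := hga s hs0
      calc C1 * d * t * (ga d (s / d) a / s) ≤ C1 * d * h * (ga d (s / d) a / s) := by
            gcongr
        _ = C1 * d * ((h / s) * ga d (s / d) a) := by ring
        _ ≤ C1 * d * (φ (s / h) * ga d (s / d) a) := by gcongr
  have hint := fm_g_cont d hd φ hφ h hhpos a
  have hnn : ∀ s ∈ Ioi (0 : ℝ), 0 ≤ φ (s / h) * ga d (s / d) a := fun s hs =>
    mul_nonneg (hφ.nonneg _) (hga s hs).le
  have hNf0 : 0 ≤ Nf φ d h a := setIntegral_nonneg measurableSet_Ioi hnn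
  have hNf : ∫⁻ s in Ioi (0 : ℝ), ENNReal.ofReal (φ (s / h) * ga d (s / d) a) =
      ENNReal.ofReal (Nf φ d h a) := by
    unfold Nf
    rw [ofReal_integral_eq_lintegral_ofReal hint.integrableOn]
    exact (ae_restrict_iff' measurableSet_Ioi).2 (Filter.Eventually.of_forall hnn)
  have hmeas : Measurable (fun s : ℝ => ENNReal.ofReal (C1 * d) *
      ENNReal.ofReal (φ (s / h) * ga d (s / d) a)) := by
    have hφm : Measurable φ := hφ.smooth.continuous.measurable
    unfold ga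
    fun_prop
  calc ENNReal.ofReal (C1 * d * t) *
        ∫⁻ s in Ioi (0 : ℝ), {s : ℝ | ‖a‖ ^ 2 ≤ 2 * s ∧ s ≤ 2 * ‖a‖ ^ 2}.indicator
          (fun s => ENNReal.ofReal (ga d (s / d) a / s)) s
      = ∫⁻ s in Ioi (0 : ℝ), ENNReal.ofReal (C1 * d * t) *
          {s : ℝ | ‖a‖ ^ 2 ≤ 2 * s ∧ s ≤ 2 * ‖a‖ ^ 2}.indicator
          (fun s => ENNReal.ofReal (ga d (s / d) a / s)) s := by
        rw [lintegral_const_mul' _ _ ENNReal.ofReal_ne_top]
    _ ≤ ∫⁻ s in Ioi (0 : ℝ), (ENNReal.ofReal (C1 * d) * ENNReal.ofReal (φ (s / h) * ga d (s / d) a) +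
          ENNReal.ofReal C1 * (Aw d h s (‖a‖ ^ 2) t * ENNReal.ofReal (ga d (s / d) a / s))) :=
        setLIntegral_mono' measurableSet_Ioi hpt
    _ = ENNReal.ofReal (C1 * d) * ENNReal.ofReal (Nf φ d h a) + ENNReal.ofReal C1 *
          ∫⁻ s in Ioi (0 : ℝ), Aw d h s (‖a‖ ^ 2) t * ENNReal.ofReal (ga d (s / d) a / s) := by
        rw [lintegral_add_left hmeas, lintegral_const_mul' _ _ ENNReal.ofReal_ne_top,
          lintegral_const_mul' _ _ ENNReal.ofReal_ne_top, hNf]
    _ ≤ ENNReal.ofReal (3 * C1) * (ENNReal.ofReal (Nf φ d h a * Hd d R (‖x - y‖ ^ 2)) +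
        ∫⁻ s in Ioi (0 : ℝ), Aw d h s (‖a‖ ^ 2) t * ENNReal.ofReal (ga d (s / d) a / s)) := by
        rw [mul_add]
        gcongr ?_ + ?_ * _
        · rw [← ENNReal.ofReal_mul (by positivity), ← ENNReal.ofReal_mul (by positivity)]
          apply ENNReal.ofReal_le_ofReal
          have hH : (d : ℝ) ≤ 3 * Hd d R (‖x - y‖ ^ 2) := by
            unfold Hd
            have e1 : (d : ℝ) ^ 2 * (‖x - y‖ ^ 2 - R ^ 2) ^ 2 ≤ 1.96 := by
              have e0 : 0 ≤ R ^ 2 - ‖x - y‖ ^ 2 := by linarith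
              have e2 : (d : ℝ) * (R ^ 2 - ‖x - y‖ ^ 2) ≤ 1.4 := by
                rw [le_div_iff₀ hdpos] at hdiff
                linarith
              have e3 : 0 ≤ (d : ℝ) * (R ^ 2 - ‖x - y‖ ^ 2) := by positivity
              calc (d : ℝ) ^ 2 * (‖x - y‖ ^ 2 - R ^ 2) ^ 2 = ((d : ℝ) * (R ^ 2 - ‖x - y‖ ^ 2)) ^ 2 := by
                    ring
                _ ≤ 1.4 ^ 2 := by gcongr
                _ = 1.96 := by norm_num
            have e4 : Real.exp (-1) ≤ Real.exp (-((d : ℝ) ^ 2 * (‖x - y‖ ^ 2 - R ^ 2) ^ 2 / 2)) := by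
              apply Real.exp_le_exp.2
              linarith
            have e5 : (1 : ℝ) / 3 ≤ Real.exp (-1) := by
              rw [Real.exp_neg, ← one_div]
              apply one_div_le_one_div_of_le (Real.exp_pos 1)
              exact (Real.exp_one_lt_d9.le).trans (by norm_num)
            have e6 := e5.trans e4
            nlinarith
          calc C1 * d * Nf φ d h a ≤ C1 * (3 * Hd d R (‖x - y‖ ^ 2)) * Nf φ d h a := by gcongr
            _ = 3 * C1 * (Nf φ d h a * Hd d R (‖x - y‖ ^ 2)) := by ring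
        · exact ENNReal.ofReal_le_ofReal (by linarith)

end FM954
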