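import Mathlib
import Pool.Agent.Helper954.FM.Base
import Pool.Agent.Helper954.FM.C1

set_option autoImplicit false
open MeasureTheory Set Metric
open scoped ENNReal

namespace FM954

theorem meas_Nf (φ : ℝ → ℝ) (hφ : Bmp φ) (d : ℕ) (h : ℝ) : Measurable (Nf φ d h) := by
  have h1 : Measurable φ := hφ.smooth.continuous.measurable
  have h2 : StronglyMeasurable
      (Function.uncurry fun (a : Eu d) (s : ℝ) => φ (s / h) * ga d (s / d) a) := by
    apply Measurable.stronglyMeasurable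
    unfold Function.uncurry ga
    fun_prop
  exact (StronglyMeasurable.integral_prod_right (ν := volume.restrict (Ioi (0 : ℝ))) h2).measurable

theorem meas_Psi (φ : ℝ → ℝ) (hφ : Bmp φ) (d : ℕ) (h : ℝ) {Q : Type} [MeasurableSpace Q]
    (μ : Measure Q) [SFinite μ] (Y Z : Q → Eu d) (hY : Measurable Y) (hZ : Measurable Z) :
    Measurable (fun p : ℝ × Eu d => ‖Psi φ d h μ Y Z p.1 p.2‖ₑ) := by
  have h1 := meas_Nf φ hφ d h
  have h2 : StronglyMeasurable (fun p : (ℝ × Eu d) × Q => Gf φ d h p.1.1 p.1.2 (Y p.2) (Z p.2)) := by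
    apply Measurable.stronglyMeasurable
    unfold Gf
    fun_prop
  exact (StronglyMeasurable.integral_prod_right' (ν := μ) h2).enorm

theorem cs_aux (g ρ : ℝ → ℝ) (hg : Measurable g) (hρ : Measurable ρ) (g0 : ∀ t, 0 ≤ g t)
    (ρ0 : ∀ t, 0 < ρ t) (u : ℝ → ENNReal) (hu : Measurable u) :
    (∫⁻ t, ENNReal.ofReal (g t) * u t) ^ 2 ≤
      (∫⁻ t, ENNReal.ofReal (g t * ρ t)) * ∫⁻ t, ENNReal.ofReal (g t / ρ t) * u t ^ 2 := by
  have m1 : Measurable (fun t => ENNReal.ofReal (√(g t * ρ t))) := by fun_prop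
  have m2 : Measurable (fun t => ENNReal.ofReal (√(g t / ρ t)) * u t) := by fun_prop
  have h1 := ENNReal.lintegral_mul_le_Lp_mul_Lq volume Real.HolderConjugate.two_two
    m1.aemeasurable m2.aemeasurable
  have e1 : ∀ t, ((fun t => ENNReal.ofReal (√(g t * ρ t))) * fun t =>
      ENNReal.ofReal (√(g t / ρ t)) * u t) t = ENNReal.ofReal (g t) * u t := by
    intro t
    show ENNReal.ofReal (√(g t * ρ t)) * (ENNReal.ofReal (√(g t / ρ t)) * u t) = _
    rw [← mul_assoc, ← ENNReal.ofReal_mul (Real.sqrt_nonneg _),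
      ← Real.sqrt_mul (mul_nonneg (g0 t) (ρ0 t).le)]
    congr 2
    rw [show g t * ρ t * (g t / ρ t) = g t ^ 2 by have := (ρ0 t).ne'; field_simp]
    exact Real.sqrt_sq (g0 t)
  have e2 : ∀ t, ENNReal.ofReal (√(g t * ρ t)) ^ (2 : ℝ) = ENNReal.ofReal (g t * ρ t) := by
    intro t
    rw [ENNReal.rpow_two, ← ENNReal.ofReal_pow (Real.sqrt_nonneg _),
      Real.sq_sqrt (mul_nonneg (g0 t) (ρ0 t).le)]
  have e3 : ∀ t, (ENNReal.ofReal (√(g t / ρ t)) * u t) ^ (2 : ℝ) =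
      ENNReal.ofReal (g t / ρ t) * u t ^ 2 := by
    intro t
    rw [ENNReal.rpow_two, mul_pow, ← ENNReal.ofReal_pow (Real.sqrt_nonneg _),
      Real.sq_sqrt (div_nonneg (g0 t) (ρ0 t).le)]
  simp only [e1, e2, e3] at h1
  have h2 := pow_le_pow_left₀ zero_le h1 2
  refine h2.trans (le_of_eq ?_)
  rw [mul_pow, ← ENNReal.rpow_two, ← ENNReal.rpow_mul, ← ENNReal.rpow_two, ← ENNReal.rpow_mul]
  norm_num

theorem kap_int (h : ℝ) (hh : 0 < h) :
    ∫⁻ t : ℝ, ENNReal.ofReal (h / (1 + (h * t) ^ 2)) = ENNReal.ofReal Real.pi := by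
  have hi : Integrable (fun t : ℝ => (1 + (h * t) ^ 2)⁻¹) :=
    (integrable_inv_one_add_sq).comp_mul_left' hh.ne'
  have hi2 : Integrable (fun t : ℝ => h / (1 + (h * t) ^ 2)) := by
    simp only [div_eq_mul_inv]
    exact hi.const_mul h
  rw [← ofReal_integral_eq_lintegral_ofReal hi2 (Filter.Eventually.of_forall fun t => by positivity)]
  congr 1
  simp only [div_eq_mul_inv]
  rw [integral_const_mul, MeasureTheory.Measure.integral_comp_mul_left (fun t : ℝ => (1 + t ^ 2)⁻¹) h,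
    integral_univ_inv_one_add_sq, abs_of_pos (inv_pos.2 hh), smul_eq_mul, ← mul_assoc,
    mul_inv_cancel₀ hh.ne', one_mul]

theorem gau_int (d : ℝ) (hd : 0 < d) :
    ∫⁻ t : ℝ, ENNReal.ofReal (Real.exp (-(t ^ 2 / (2 * d ^ 2)))) =
      ENNReal.ofReal (d * √(2 * Real.pi)) := by
  have hb : 0 < 1 / (2 * d ^ 2) := by positivity
  have e1 : ∀ t : ℝ, Real.exp (-(t ^ 2 / (2 * d ^ 2))) = Real.exp (-(1 / (2 * d ^ 2)) * t ^ 2) := by
    intro t
    congr 1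
    ring
  simp only [e1]
  rw [← ofReal_integral_eq_lintegral_ofReal (integrable_exp_neg_mul_sq hb)
    (Filter.Eventually.of_forall fun t => by positivity), integral_gaussian]
  congr 1
  rw [show Real.pi / (1 / (2 * d ^ 2)) = d ^ 2 * (2 * Real.pi) by field_simp,
    Real.sqrt_mul (by positivity), Real.sqrt_sq hd.le]

theorem r2_exp (c r : ℝ) (hc : 0 < c) (hr : 0 ≤ r) : r ^ 2 * Real.exp (-(c * r)) ≤ 2 / c ^ 2 := by
  have h1 := Real.quadratic_le_exp_of_nonneg (mul_nonneg hc.le hr)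
  have h2 : (c * r) ^ 2 / 2 ≤ Real.exp (c * r) := by
    have := mul_nonneg hc.le hr
    linarith
  rw [Real.exp_neg, ← div_eq_mul_inv, div_le_div_iff₀ (Real.exp_pos _) (by positivity)]
  nlinarith

noncomputable def gW (d : ℕ) (τ : ℝ) : ℝ := Real.exp (-(τ ^ 2 / (2 * (d : ℝ) ^ 2)))

noncomputable def rW (d : ℕ) (h τ : ℝ) : ℝ := h / (1 + (h * τ) ^ 2) + 1 / d

theorem gW_meas (d : ℕ) : Measurable (gW d) := by unfold gW; fun_prop

theorem rW_meas (d : ℕ) (h : ℝ) : Measurable (rW d h) := by unfold rW; fun_prop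

theorem gW_nonneg (d : ℕ) (τ : ℝ) : 0 ≤ gW d τ := (Real.exp_pos _).le

theorem gW_le_one (d : ℕ) (τ : ℝ) : gW d τ ≤ 1 := by
  unfold gW
  rw [Real.exp_le_one_iff]
  have : 0 ≤ τ ^ 2 / (2 * (d : ℝ) ^ 2) := by positivity
  linarith

theorem rW_pos (d : ℕ) (hd : (0 : ℝ) < d) (h : ℝ) (hh : 0 < h) (τ : ℝ) : 0 < rW d h τ := by
  unfold rW; positivity

theorem hA_aux (d : ℕ) (hd0 : (0 : ℝ) < d) (h : ℝ) (hh : 0 < h) :
    ∫⁻ τ, ENNReal.ofReal (gW d τ * rW d h τ) ≤ ENNReal.ofReal (Real.pi + √(2 * Real.pi)) := by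
  have hpi := Real.pi_pos
  have hgm := gW_meas d
  have hgint : ∫⁻ τ, ENNReal.ofReal (gW d τ) = ENNReal.ofReal (d * √(2 * Real.pi)) :=
    gau_int d hd0
  calc ∫⁻ τ, ENNReal.ofReal (gW d τ * rW d h τ)
      ≤ ∫⁻ τ, (ENNReal.ofReal (h / (1 + (h * τ) ^ 2)) +
          ENNReal.ofReal (1 / d) * ENNReal.ofReal (gW d τ)) := by
        refine lintegral_mono fun τ => ?_
        have e1 : gW d τ * rW d h τ ≤ h / (1 + (h * τ) ^ 2) + 1 / d * gW d τ := by
          unfold rW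
          have : gW d τ * (h / (1 + (h * τ) ^ 2)) ≤ h / (1 + (h * τ) ^ 2) :=
            mul_le_of_le_one_left (by positivity) (gW_le_one d τ)
          linarith
        refine (ENNReal.ofReal_le_ofReal e1).trans (le_of_eq ?_)
        rw [ENNReal.ofReal_add (by positivity) (mul_nonneg (by positivity) (gW_nonneg d τ)),
          ENNReal.ofReal_mul (by positivity)]
    _ = ENNReal.ofReal (Real.pi + √(2 * Real.pi)) := by
        rw [lintegral_add_left (by fun_prop), lintegral_const_mul _ (by fun_prop), kap_int h hh,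
          hgint, ← ENNReal.ofReal_mul (by positivity), ← ENNReal.ofReal_add (by positivity)
          (by positivity)]
        congr 2
        field_simp

theorem hB_pt (d : ℕ) (hd0 : (0 : ℝ) < d) (h : ℝ) (hh : 0 < h) (C0 X : ℝ) (hC0 : 0 < C0)
    (hX : 0 ≤ X) (τ : ℝ) :
    gW d τ / rW d h τ * (C0 * h ^ 2 * (1 / (1 + (h * τ) ^ 2) ^ 2 + X))
      ≤ C0 * (h / (1 + (h * τ) ^ 2)) + C0 * (d * h ^ 2 * X) * gW d τ := by
  obtain ⟨κ, hκ⟩ : ∃ κ, κ = h / (1 + (h * τ) ^ 2) := ⟨_, rfl⟩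
  have hκ0 : 0 < κ := by rw [hκ]; positivity
  have hρκ : rW d h τ = κ + 1 / d := by rw [hκ]; rfl
  have hρ0 := rW_pos d hd0 h hh τ
  have hg0 := gW_nonneg d τ
  have e2 : h ^ 2 * (1 / (1 + (h * τ) ^ 2) ^ 2) = κ ^ 2 := by
    rw [hκ, div_pow]; ring
  have e3 : gW d τ / rW d h τ * κ ^ 2 ≤ κ := by
    have h1 : κ ^ 2 / rW d h τ ≤ κ := by
      rw [div_le_iff₀ hρ0, hρκ]
      have : 0 < κ * (1 / d) := by positivity
      nlinarith
    calc gW d τ / rW d h τ * κ ^ 2 = gW d τ * (κ ^ 2 / rW d h τ) := by ring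
      _ ≤ 1 * (κ ^ 2 / rW d h τ) :=
        mul_le_mul_of_nonneg_right (gW_le_one d τ) (div_nonneg (by positivity) hρ0.le)
      _ ≤ κ := by rw [one_mul]; exact h1
  have e4 : gW d τ / rW d h τ ≤ d * gW d τ := by
    rw [div_le_iff₀ hρ0, hρκ]
    have h1 : d * gW d τ * (κ + 1 / d) = d * gW d τ * κ + gW d τ := by field_simp
    rw [h1]
    have : 0 ≤ d * gW d τ * κ := mul_nonneg (mul_nonneg hd0.le hg0) hκ0.le
    linarith
  rw [← hκ]
  calc gW d τ / rW d h τ * (C0 * h ^ 2 * (1 / (1 + (h * τ) ^ 2) ^ 2 + X))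
      = C0 * (gW d τ / rW d h τ * (h ^ 2 * (1 / (1 + (h * τ) ^ 2) ^ 2))) +
        C0 * (h ^ 2 * X) * (gW d τ / rW d h τ) := by ring
    _ ≤ C0 * κ + C0 * (h ^ 2 * X) * (d * gW d τ) := by
      rw [e2]
      exact add_le_add (mul_le_mul_of_nonneg_left e3 hC0.le)
        (mul_le_mul_of_nonneg_left e4 (by positivity))
    _ = _ := by ring

theorem hB_aux (d : ℕ) (hd0 : (0 : ℝ) < d) (h : ℝ) (hh : 0 < h) (C0 c : ℝ) (hC0 : 0 < C0)
    (hc : 0 < c) :
    ∫⁻ τ, ENNReal.ofReal (gW d τ / rW d h τ) *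
      ENNReal.ofReal (C0 * h ^ 2 * (1 / (1 + (h * τ) ^ 2) ^ 2 + Real.exp (-(c * d * h)))) ≤
      ENNReal.ofReal (C0 * (Real.pi + √(2 * Real.pi) * (2 / c ^ 2))) := by
  have hpi := Real.pi_pos
  have hgm := gW_meas d
  have hgint : ∫⁻ τ, ENNReal.ofReal (gW d τ) = ENNReal.ofReal (d * √(2 * Real.pi)) :=
    gau_int d hd0
  obtain ⟨X, hX⟩ : ∃ X, X = Real.exp (-(c * d * h)) := ⟨_, rfl⟩
  have hX0 : 0 ≤ X := by rw [hX]; positivity
  rw [← hX]
  calc ∫⁻ τ, ENNReal.ofReal (gW d τ / rW d h τ) *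
    ENNReal.ofReal (C0 * h ^ 2 * (1 / (1 + (h * τ) ^ 2) ^ 2 + X))
      ≤ ∫⁻ τ, (ENNReal.ofReal C0 * ENNReal.ofReal (h / (1 + (h * τ) ^ 2)) +
          ENNReal.ofReal (C0 * (d * h ^ 2 * X)) * ENNReal.ofReal (gW d τ)) := by
        refine lintegral_mono fun τ => ?_
        rw [← ENNReal.ofReal_mul (div_nonneg (gW_nonneg d τ) (rW_pos d hd0 h hh τ).le)]
        refine (ENNReal.ofReal_le_ofReal (hB_pt d hd0 h hh C0 X hC0 hX0 τ)).trans (le_of_eq ?_)
        rw [ENNReal.ofReal_add (by positivity) (mul_nonneg (by positivity) (gW_nonneg d τ)),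
          ENNReal.ofReal_mul (by positivity), ENNReal.ofReal_mul (by positivity)]
    _ = ENNReal.ofReal (C0 * Real.pi + C0 * (d * h ^ 2 * X) * (d * √(2 * Real.pi))) := by
        rw [lintegral_add_left (by fun_prop), lintegral_const_mul _ (by fun_prop),
          lintegral_const_mul _ (by fun_prop), kap_int h hh, hgint,
          ← ENNReal.ofReal_mul (by positivity), ← ENNReal.ofReal_mul (by positivity),
          ← ENNReal.ofReal_add (by positivity) (by positivity)]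
    _ ≤ ENNReal.ofReal (C0 * (Real.pi + √(2 * Real.pi) * (2 / c ^ 2))) := by
        apply ENNReal.ofReal_le_ofReal
        have h1 := r2_exp c (d * h) hc (by positivity)
        have h2 : C0 * (d * h ^ 2 * X) * (d * √(2 * Real.pi)) =
            C0 * √(2 * Real.pi) * ((d * h) ^ 2 * Real.exp (-(c * (d * h)))) := by
          rw [hX, show c * (d * h) = c * d * h by ring]
          ring
        rw [h2]
        have h3 := mul_le_mul_of_nonneg_left h1 (show 0 ≤ C0 * √(2 * Real.pi) by positivity)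
        calc _ ≤ C0 * Real.pi + C0 * √(2 * Real.pi) * (2 / c ^ 2) := by linarith
          _ = _ := by ring

theorem ton_aux {E : Type} [MeasurableSpace E] (ν : Measure E) [SFinite ν] (g ρ : ℝ → ℝ)
    (hg : Measurable g) (hρ : Measurable ρ) (g0 : ∀ t, 0 ≤ g t)
    (ρ0 : ∀ t, 0 < ρ t) (u : ℝ → E → ENNReal) (hu : Measurable (fun p : ℝ × E => u p.1 p.2))
    (A L : ENNReal) (hA : ∫⁻ t, ENNReal.ofReal (g t * ρ t) ≤ A) (hA' : A ≠ ⊤) (hL : L ≠ ⊤)
    (w : ℝ → ENNReal) (hw : ∀ t, ∫⁻ x, u t x ^ 2 ∂ν ≤ w t * L) (K : ENNReal)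
    (hK : ∫⁻ t, ENNReal.ofReal (g t / ρ t) * w t ≤ K) :
    ∫⁻ x, (∫⁻ t : ℝ, ENNReal.ofReal (g t) * u t x) ^ 2 ∂ν ≤ A * (K * L) := by
  have hmτ : ∀ x, Measurable (fun τ : ℝ => u τ x) := fun x =>
    hu.comp (measurable_id.prodMk measurable_const)
  have hmx : ∀ τ, Measurable (fun x => u τ x) := fun τ =>
    hu.comp (measurable_const.prodMk measurable_id)
  have hcs : ∀ x, (∫⁻ τ : ℝ, ENNReal.ofReal (g τ) * u τ x) ^ 2 ≤
      A * ∫⁻ τ, ENNReal.ofReal (g τ / ρ τ) * u τ x ^ 2 := fun x =>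
    (cs_aux g ρ hg hρ g0 ρ0 _ (hmτ x)).trans (mul_le_mul_left hA _)
  have hmj : Measurable (fun p : E × ℝ => ENNReal.ofReal (g p.2 / ρ p.2) * u p.2 p.1 ^ 2) := by
    have h1 : Measurable (fun p : E × ℝ => u p.2 p.1) := hu.comp measurable_swap
    fun_prop
  calc ∫⁻ x, (∫⁻ τ : ℝ, ENNReal.ofReal (g τ) * u τ x) ^ 2 ∂ν
      ≤ ∫⁻ x, (A * ∫⁻ τ, ENNReal.ofReal (g τ / ρ τ) * u τ x ^ 2) ∂ν := lintegral_mono hcs
    _ = A * ∫⁻ x, (∫⁻ τ, ENNReal.ofReal (g τ / ρ τ) * u τ x ^ 2) ∂ν :=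
        lintegral_const_mul' _ _ hA'
    _ = A * ∫⁻ τ, (∫⁻ x, ENNReal.ofReal (g τ / ρ τ) * u τ x ^ 2 ∂ν) := by
        rw [lintegral_lintegral_swap hmj.aemeasurable]
    _ ≤ A * ∫⁻ τ, (ENNReal.ofReal (g τ / ρ τ) * w τ) * L := by
        refine mul_le_mul_right (lintegral_mono fun τ => ?_) _
        rw [lintegral_const_mul' _ _ ENNReal.ofReal_ne_top, mul_assoc]
        exact mul_le_mul_right (hw τ) _
    _ = A * ((∫⁻ τ, (ENNReal.ofReal (g τ / ρ τ) * w τ)) * L) := by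
        rw [lintegral_mul_const' _ _ hL]
    _ ≤ A * (K * L) := mul_le_mul_right (mul_le_mul_left hK _) _

theorem wT (φ : ℝ → ℝ) (hφ : Bmp φ) : ∃ C : ℝ, 0 < C ∧ ∀ d : ℕ, 32 ≤ d →
    ∀ h : ℝ, 0 < h → h ≤ 1 →
    ∀ (lam : ENNReal) (_ : lam ≠ ⊤) {Q : Type} [MeasurableSpace Q] (μ : Measure Q) (Y Z : Q → Eu d),
    Dat d 1 lam μ Y Z →
    ∫⁻ x, (∫⁻ τ : ℝ, ENNReal.ofReal (Real.exp (-(τ ^ 2 / (2 * (d : ℝ) ^ 2)))) *
      ‖Psi φ d h μ Y Z τ x‖ₑ) ^ 2 ≤ ENNReal.ofReal C * lam * μ univ := by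
  obtain ⟨C0, c, hC0, hc, hcore⟩ := corePsi φ hφ
  have hpi := Real.pi_pos
  refine ⟨(Real.pi + √(2 * Real.pi)) * (C0 * (Real.pi + √(2 * Real.pi) * (2 / c ^ 2))),
    by positivity, ?_⟩
  intro d hd h hh hh1 lam hlam Q _ μ Y Z hD
  have hfin := hD.fin
  have hd0 : (0 : ℝ) < d := by
    have : (32 : ℝ) ≤ d := by exact_mod_cast hd
    linarith
  have h1 := ton_aux (volume : Measure (Eu d)) (gW d) (rW d h) (gW_meas d) (rW_meas d h)
    (gW_nonneg d) (rW_pos d hd0 h hh) (fun τ x => ‖Psi φ d h μ Y Z τ x‖ₑ)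
    (meas_Psi φ hφ d h μ Y Z hD.mY hD.mZ) _ (lam * μ univ) (hA_aux d hd0 h hh)
    ENNReal.ofReal_ne_top (ENNReal.mul_ne_top hlam (measure_ne_top _ _)) _
    (fun τ => (hcore d hd h hh hh1 τ lam hlam μ Y Z hD).trans (le_of_eq (mul_assoc _ _ _)))
    _ (hB_aux d hd0 h hh C0 c hC0 hc)
  refine h1.trans (le_of_eq ?_)
  rw [← mul_assoc, ← mul_assoc, ← ENNReal.ofReal_mul (by positivity)]

end FM954
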