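import Mathlib
import Pool.Agent.Helper954.FM.Base
import Pool.Agent.Helper954.FM.B
import Pool.Agent.Helper954.FM.K2
import Pool.Agent.Helper954.FM.E5
import Pool.Agent.Helper954.FM.F
import Pool.Agent.Helper954.FM.W

set_option autoImplicit false
open MeasureTheory Set Metric
open scoped ENNReal

namespace FM954

theorem oct : ∃ C : ℝ, 0 < C ∧ ∀ d : ℕ, 32 ≤ d → ∀ h : ℝ, 24 / d ≤ h → h ≤ 1 →
    ∀ (lam : ENNReal), lam ≠ ⊤ → ∀ P : Eu d → Eu d → ENNReal,
    Measurable (fun q : Eu d × Eu d => P q.1 q.2) →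
    (∀ y z, P y z ≠ 0 → ‖z - y‖ ≤ 1) → (∀ y z, P y z ≠ ⊤) →
    (∀ z, ∫⁻ y, P y z ≤ lam) → (∫⁻ y, ∫⁻ z, P y z ≠ ⊤) →
    ∃ w : Eu d → ENNReal, Measurable w ∧
      (∀ x, ∀ R : ℝ, 1 / 2 ≤ R → R ≤ 1 →
        ∫⁻ y, ∫⁻ z, P y z * ({l : ℝ | cls d h l}.indicator (fun _ => (1 : ENNReal)) (R ^ 2 - ‖z - y‖ ^ 2) *
          (bs d R (x - y) * ENNReal.ofReal (Pk d (x - y) (z - y)))) ≤ w x) ∧
      ∫⁻ x, w x ^ 2 ≤ ENNReal.ofReal C * lam * ∫⁻ y, ∫⁻ z, P y z := by
  obtain ⟨C1, hC1, hsplit⟩ := split
  obtain ⟨C2, hC2, hepart⟩ := epart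
  obtain ⟨φ, hφ⟩ := bmp_ex
  obtain ⟨C3, hC3, hwT⟩ := wT φ hφ
  refine ⟨C1 ^ 2 * (4 * (C3 + C2)), by positivity, ?_⟩
  intro d hd h hh hh1 lam hlam P hP hs hf hm hfin
  obtain ⟨μ, Y, Z, hD, hμ, hint⟩ := rnP d 1 one_pos lam hlam P hP hs hf hm hfin
  have hfinμ : IsFiniteMeasure μ := hD.fin
  have hmY := hD.mY
  have hmZ := hD.mZ
  have hdpos : (0 : ℝ) < d := by
    have : 0 < d := by omega
    exact_mod_cast this
  have hh0 : 0 < h := lt_of_lt_of_le (by positivity) hh
  have hφc : Continuous φ := hφ.smooth.continuous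
  -- measurability of the Gaussian
  have hga : Measurable (fun p : Eu d × ℝ => ga d (p.2 / d) p.1) := by
    unfold ga
    apply Measurable.mul
    · exact (((measurable_const.mul (measurable_snd.div_const _))).pow_const _)
    · fun_prop
  have hNf : Measurable (Nf φ d h) := by
    unfold Nf
    have h1 : StronglyMeasurable (fun p : Eu d × ℝ => φ (p.2 / h) * ga d (p.2 / d) p.1) := by
      apply Measurable.stronglyMeasurable
      apply Measurable.mul _ hga
      exact hφc.measurable.comp (measurable_snd.div_const _)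
    exact (h1.integral_prod_right' (ν := volume.restrict (Ioi (0:ℝ)))).measurable
  have hPsi : Measurable (fun p : Eu d × ℝ => ‖Psi φ d h μ Y Z p.2 p.1‖ₑ) := by
    unfold Psi
    have h1 : StronglyMeasurable (fun p : (Eu d × ℝ) × (Eu d × Eu d) =>
        Gf φ d h p.1.2 p.1.1 (Y p.2) (Z p.2)) := by
      apply Measurable.stronglyMeasurable
      unfold Gf
      have hY' : Measurable (fun p : (Eu d × ℝ) × (Eu d × Eu d) => Y p.2) := hmY.comp measurable_snd
      have hZ' : Measurable (fun p : (Eu d × ℝ) × (Eu d × Eu d) => Z p.2) := hmZ.comp measurable_snd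
      apply Measurable.mul
      · exact Complex.measurable_ofReal.comp (hNf.comp (measurable_fst.fst.sub hZ'))
      · apply Complex.measurable_exp.comp
        apply Measurable.mul measurable_const
        apply Complex.measurable_ofReal.comp
        exact measurable_fst.snd.mul ((measurable_fst.fst.sub hY').norm.pow_const 2)
    exact (h1.integral_prod_right' (ν := μ)).measurable.enorm
  set wa : Eu d → ENNReal := fun x => ∫⁻ τ : ℝ,
    ENNReal.ofReal (Real.exp (-(τ ^ 2 / (2 * (d : ℝ) ^ 2)))) * ‖Psi φ d h μ Y Z τ x‖ₑ with hwa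
  set wb : Eu d → ENNReal := fun x => ∫⁻ q, (∫⁻ s in Ioi (0 : ℝ),
    Aw d h s (‖x - Z q‖ ^ 2) (‖x - Y q‖ ^ 2 - ‖Z q - Y q‖ ^ 2) *
      ENNReal.ofReal (ga d (s / d) (x - Z q) / s)) ∂μ with hwb
  have mwa : Measurable wa := by
    apply Measurable.lintegral_prod_right' (f := fun p : Eu d × ℝ =>
      ENNReal.ofReal (Real.exp (-(p.2 ^ 2 / (2 * (d : ℝ) ^ 2)))) * ‖Psi φ d h μ Y Z p.2 p.1‖ₑ)
    apply Measurable.mul _ hPsi
    fun_prop
  have hAw : Measurable (fun p : ℝ × ℝ × ℝ => Aw d h p.1 p.2.1 p.2.2) := by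
    unfold Aw
    apply Measurable.ite
    · apply MeasurableSet.inter
      · apply MeasurableSet.union
        · exact measurableSet_lt measurable_fst measurable_const
        · exact measurableSet_lt measurable_const measurable_fst
      apply MeasurableSet.inter
      · exact measurableSet_le measurable_snd.fst (measurable_const.mul measurable_fst)
      apply MeasurableSet.inter
      · exact measurableSet_le measurable_fst (measurable_const.mul measurable_snd.fst)
      apply MeasurableSet.inter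
      · exact measurableSet_lt measurable_const measurable_snd.snd
      apply MeasurableSet.inter
      · exact measurableSet_le measurable_snd.snd measurable_const
      apply MeasurableSet.union
      · exact measurableSet_le measurable_const measurable_snd.snd
      · exact MeasurableSet.const _
    · exact ENNReal.measurable_ofReal.comp (measurable_const.mul measurable_snd.snd)
    · exact measurable_const
  have hinner : Measurable (fun p : (Eu d × (Eu d × Eu d)) × ℝ =>
      Aw d h p.2 (‖p.1.1 - Z p.1.2‖ ^ 2) (‖p.1.1 - Y p.1.2‖ ^ 2 - ‖Z p.1.2 - Y p.1.2‖ ^ 2) *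
      ENNReal.ofReal (ga d (p.2 / d) (p.1.1 - Z p.1.2) / p.2)) := by
    have hY' : Measurable (fun p : (Eu d × (Eu d × Eu d)) × ℝ => Y p.1.2) :=
      hmY.comp measurable_fst.snd
    have hZ' : Measurable (fun p : (Eu d × (Eu d × Eu d)) × ℝ => Z p.1.2) :=
      hmZ.comp measurable_fst.snd
    have hx' : Measurable (fun p : (Eu d × (Eu d × Eu d)) × ℝ => p.1.1) := measurable_fst.fst
    have hs' : Measurable (fun p : (Eu d × (Eu d × Eu d)) × ℝ => p.2) := measurable_snd
    apply Measurable.mul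
    · exact hAw.comp (hs'.prodMk (((hx'.sub hZ').norm.pow_const 2).prodMk
        (((hx'.sub hY').norm.pow_const 2).sub ((hZ'.sub hY').norm.pow_const 2))))
    · apply ENNReal.measurable_ofReal.comp
      exact (hga.comp ((hx'.sub hZ').prodMk hs')).div hs'
  have hinner2 : Measurable (fun p : Eu d × (Eu d × Eu d) => ∫⁻ s in Ioi (0 : ℝ),
      Aw d h s (‖p.1 - Z p.2‖ ^ 2) (‖p.1 - Y p.2‖ ^ 2 - ‖Z p.2 - Y p.2‖ ^ 2) *
      ENNReal.ofReal (ga d (s / d) (p.1 - Z p.2) / s)) :=
    Measurable.lintegral_prod_right' (ν := volume.restrict (Ioi (0:ℝ))) hinner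
  have mwb : Measurable wb := Measurable.lintegral_prod_right' (ν := μ) hinner2
  refine ⟨fun x => ENNReal.ofReal C1 * (wa x + wb x), (mwa.add mwb).const_mul _, ?_, ?_⟩
  · intro x R hR hR1
    have hcls : MeasurableSet {l : ℝ | cls d h l} := by
      unfold cls
      apply MeasurableSet.inter measurableSet_Ioi
      apply MeasurableSet.inter measurableSet_Iic
      apply MeasurableSet.union
      · exact measurableSet_Ici
      · exact MeasurableSet.const _
    set Fn : Eu d → Eu d → ENNReal := fun y z =>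
      ({l : ℝ | cls d h l}.indicator (fun _ => (1 : ENNReal)) (R ^ 2 - ‖z - y‖ ^ 2) *
          (bs d R (x - y) * ENNReal.ofReal (Pk d (x - y) (z - y)))) with hFn
    have mF : Measurable (fun q : Eu d × Eu d => Fn q.1 q.2) := by
      apply Measurable.mul
      · exact (measurable_const.indicator hcls).comp
          (measurable_const.sub ((measurable_snd.sub measurable_fst).norm.pow_const 2))
      · apply Measurable.mul
        · exact (measurable_bs d R (measurableSet_shell d R)).comp (measurable_const.sub measurable_fst)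
        · apply ENNReal.measurable_ofReal.comp
          unfold Pk
          fun_prop
    rw [← hint Fn mF]
    have hA : Measurable (fun q : Eu d × Eu d =>
        ENNReal.ofReal (Nf φ d h (x - Z q) * Hd d R (‖x - Y q‖ ^ 2))) := by
      apply ENNReal.measurable_ofReal.comp
      apply Measurable.mul
      · exact hNf.comp (measurable_const.sub hmZ)
      · unfold Hd
        have h5 : Measurable (fun q : Eu d × Eu d => ‖x - Y q‖ ^ 2) :=
          (measurable_const.sub hmY).norm.pow_const 2
        fun_prop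
    calc ∫⁻ q, Fn (Y q) (Z q) ∂μ
        ≤ ∫⁻ q, ENNReal.ofReal C1 * (ENNReal.ofReal (Nf φ d h (x - Z q) * Hd d R (‖x - Y q‖ ^ 2)) +
          ∫⁻ s in Ioi (0 : ℝ), Aw d h s (‖x - Z q‖ ^ 2) (‖x - Y q‖ ^ 2 - ‖Z q - Y q‖ ^ 2) *
          ENNReal.ofReal (ga d (s / d) (x - Z q) / s)) ∂μ := by
          apply lintegral_mono
          intro q
          simp only [hFn]
          by_cases hc : cls d h (R ^ 2 - ‖Z q - Y q‖ ^ 2)
          · rw [Set.indicator_of_mem (by exact hc), one_mul]
            exact hsplit φ hφ d hd h hh hh1 R hR hR1 x (Y q) (Z q) hc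
          · rw [Set.indicator_of_notMem (by exact hc), zero_mul]
            exact bot_le
      _ = ENNReal.ofReal C1 * (∫⁻ q, ENNReal.ofReal (Nf φ d h (x - Z q) * Hd d R (‖x - Y q‖ ^ 2)) ∂μ
          + wb x) := by
          rw [lintegral_const_mul' _ _ ENNReal.ofReal_ne_top, lintegral_add_left hA]
      _ ≤ ENNReal.ofReal C1 * (wa x + wb x) := by
          gcongr
          exact four φ hφ d hd h hh0 R lam μ Y Z hD x
  · have h1 : ∀ x, (ENNReal.ofReal C1 * (wa x + wb x)) ^ 2
        ≤ ENNReal.ofReal C1 ^ 2 * 4 * (wa x ^ 2 + wb x ^ 2) := by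
      intro x
      rw [mul_pow, mul_assoc]
      gcongr
      have h2 : wa x + wb x ≤ 2 * max (wa x) (wb x) := by
        rw [two_mul]
        exact add_le_add (le_max_left _ _) (le_max_right _ _)
      calc (wa x + wb x) ^ 2 ≤ (2 * max (wa x) (wb x)) ^ 2 := by gcongr
        _ = 4 * (max (wa x) (wb x)) ^ 2 := by rw [mul_pow]; norm_num
        _ ≤ 4 * (wa x ^ 2 + wb x ^ 2) := by
          gcongr
          rcases max_choice (wa x) (wb x) with hmx | hmx
          · rw [hmx]; exact le_self_add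
          · rw [hmx]; exact le_add_self
    calc ∫⁻ x, (ENNReal.ofReal C1 * (wa x + wb x)) ^ 2
        ≤ ∫⁻ x, ENNReal.ofReal C1 ^ 2 * 4 * (wa x ^ 2 + wb x ^ 2) := lintegral_mono h1
      _ = ENNReal.ofReal C1 ^ 2 * 4 * ((∫⁻ x, wa x ^ 2) + (∫⁻ x, wb x ^ 2)) := by
          have h3 : ∫⁻ x, ENNReal.ofReal C1 ^ 2 * 4 * (wa x ^ 2 + wb x ^ 2)
              = ENNReal.ofReal C1 ^ 2 * 4 * ∫⁻ x, (wa x ^ 2 + wb x ^ 2) :=
            lintegral_const_mul _ ((mwa.pow_const 2).add (mwb.pow_const 2))
          rw [h3, lintegral_add_left (mwa.pow_const 2)]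
      _ ≤ ENNReal.ofReal C1 ^ 2 * 4 * (ENNReal.ofReal C3 * lam * μ univ
          + ENNReal.ofReal C2 * lam * μ univ) := by
          gcongr
          · exact hwT d hd h hh0 hh1 lam hlam μ Y Z hD
          · exact hepart d hd h hh hh1 lam μ Y Z hD
      _ = ENNReal.ofReal (C1 ^ 2 * (4 * (C3 + C2))) * lam * ∫⁻ y, ∫⁻ z, P y z := by
          rw [← hμ, ENNReal.ofReal_mul (by positivity), ENNReal.ofReal_mul (by norm_num),
            ENNReal.ofReal_add hC3.le hC2.le, ENNReal.ofReal_pow hC1.le]
          norm_num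
          ring

end FM954
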