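import Mathlib
import Pool.Agent.Helper954.FM.Base
import Pool.Agent.Helper954.FM.OCT

set_option autoImplicit false
open MeasureTheory Set Metric
open scoped ENNReal

namespace FM954

theorem octR : ∃ C : ℝ, 0 < C ∧ ∀ d : ℕ, 32 ≤ d → ∀ h : ℝ, 24 / d ≤ h → h ≤ 1 → ∀ T : ℝ, 0 < T →
    ∀ (lam : ENNReal), lam ≠ ⊤ → ∀ P : Eu d → Eu d → ENNReal,
    Measurable (fun q : Eu d × Eu d => P q.1 q.2) →
    (∀ y z, P y z ≠ 0 → ‖z - y‖ ≤ T) → (∀ y z, P y z ≠ ⊤) →
    (∀ z, ∫⁻ y, P y z ≤ lam) → (∫⁻ y, ∫⁻ z, P y z ≠ ⊤) →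
    ∃ w : Eu d → ENNReal, Measurable w ∧
      (∀ x, ∀ R : ℝ, T / 2 ≤ R → R ≤ T →
        ∫⁻ y, ∫⁻ z, P y z * ({l : ℝ | cls d h l}.indicator (fun _ => (1 : ENNReal))
          ((R ^ 2 - ‖z - y‖ ^ 2) / T ^ 2) *
          (bs d R (x - y) * ENNReal.ofReal (Pk d (x - y) (z - y)))) ≤ w x) ∧
      ∫⁻ x, w x ^ 2 ≤ ENNReal.ofReal C * lam * ∫⁻ y, ∫⁻ z, P y z := by
  obtain ⟨C, hC, hunit⟩ := oct
  refine ⟨C, hC, ?_⟩
  intro d hd h hh1 hh2 T hT lam hlam P hPm hPsupp hPtop hPmarg hPint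
  have hTd : (0 : ℝ) < T ^ d := by positivity
  set P' : Eu d → Eu d → ENNReal := fun y z => ENNReal.ofReal (T ^ d) * P (T • y) (T • z) with hP'
  have hP'm : Measurable (fun q : Eu d × Eu d => P' q.1 q.2) := by
    have hm : Measurable (fun q : Eu d × Eu d => ((T • q.1, T • q.2) : Eu d × Eu d)) := by fun_prop
    exact (hPm.comp hm).const_mul _
  have hP'supp : ∀ y z, P' y z ≠ 0 → ‖z - y‖ ≤ 1 := by
    intro y z h
    have h1 : P (T • y) (T • z) ≠ 0 := fun h0 => h (by simp [hP', h0])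
    have h2 := hPsupp _ _ h1
    rw [← smul_sub, norm_smul, Real.norm_of_nonneg hT.le] at h2
    by_contra h3
    push Not at h3
    nlinarith
  have hP'top : ∀ y z, P' y z ≠ ⊤ := fun y z => ENNReal.mul_ne_top (by simp) (hPtop _ _)
  have hinner : ∀ z, ∫⁻ y, P' y z = ∫⁻ y, P y (T • z) := by
    intro z
    simp only [hP']
    rw [lintegral_const_mul' _ _ (by simp)]
    exact (lintegral_eq_scale d T hT (fun y => P y (T • z))).symm
  have hP'marg : ∀ z, ∫⁻ y, P' y z ≤ lam := fun z => by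
    rw [hinner z]; exact hPmarg _
  have htot : ∫⁻ y, ∫⁻ z, P y z = ENNReal.ofReal (T ^ d) * ∫⁻ y, ∫⁻ z, P' y z := by
    rw [lintegral_eq_scale d T hT (fun y => ∫⁻ z, P y z)]
    congr 1
    refine lintegral_congr fun y => ?_
    rw [lintegral_eq_scale d T hT (fun z => P (T • y) z)]
    simp only [hP']
    rw [lintegral_const_mul' _ _ (by simp)]
  have hP'int : ∫⁻ y, ∫⁻ z, P' y z ≠ ⊤ := by
    intro h
    rw [h, ENNReal.mul_top (by simp; positivity)] at htot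
    exact hPint htot
  obtain ⟨w, hwm, hw1, hw2⟩ := hunit d hd h hh1 hh2 lam hlam P' hP'm hP'supp hP'top hP'marg hP'int
  refine ⟨fun x => w (T⁻¹ • x), ?_, ?_, ?_⟩
  · exact hwm.comp (by fun_prop : Measurable (fun x : Eu d => T⁻¹ • x))
  · intro x R hR1 hR2
    set x' : Eu d := T⁻¹ • x with hx'
    have hxx : x = T • x' := by rw [hx', smul_inv_smul₀ hT.ne']
    set r : ℝ := R / T with hr
    have hRr : R = r * T := by rw [hr]; field_simp
    have hr1 : 1 / 2 ≤ r := by rw [hr, le_div_iff₀ hT]; linarith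
    have hr2 : r ≤ 1 := by rw [hr, div_le_one hT]; exact hR2
    refine le_trans (le_of_eq ?_) (hw1 x' r hr1 hr2)
    rw [lintegral_eq_scale d T hT (fun y => ∫⁻ z, P y z * ({l : ℝ | cls d h l}.indicator
      (fun _ => (1 : ENNReal)) ((R ^ 2 - ‖z - y‖ ^ 2) / T ^ 2) *
        (bs d R (x - y) * ENNReal.ofReal (Pk d (x - y) (z - y)))))]
    rw [← lintegral_const_mul' _ _ (by simp)]
    refine lintegral_congr fun y => ?_
    rw [lintegral_eq_scale d T hT (fun z => P (T • y) z * ({l : ℝ | cls d h l}.indicator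
      (fun _ => (1 : ENNReal)) ((R ^ 2 - ‖z - T • y‖ ^ 2) / T ^ 2) *
        (bs d R (x - T • y) * ENNReal.ofReal (Pk d (x - T • y) (z - T • y)))))]
    rw [← lintegral_const_mul' _ _ (by simp), ← lintegral_const_mul' _ _ (by simp)]
    refine lintegral_congr fun z => ?_
    have e1 : (R ^ 2 - ‖T • z - T • y‖ ^ 2) / T ^ 2 = r ^ 2 - ‖z - y‖ ^ 2 := by
      rw [← smul_sub, norm_smul, Real.norm_of_nonneg hT.le, hRr]
      field_simp
    rw [e1, hxx, ← smul_sub, ← smul_sub, Pk_scale d T hT, bs_scale d T r hT (x' - y), ← hRr]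
    simp only [hP']
    ring
  · rw [lintegral_eq_scale d T hT (fun x => (w (T⁻¹ • x)) ^ 2)]
    have h1 : ∀ x : Eu d, (w (T⁻¹ • (T • x))) ^ 2 = w x ^ 2 := by
      intro x
      rw [inv_smul_smul₀ hT.ne']
    simp only [h1]
    calc ENNReal.ofReal (T ^ d) * (∫⁻ x, w x ^ 2)
        ≤ ENNReal.ofReal (T ^ d) * (ENNReal.ofReal C * lam * ∫⁻ y, ∫⁻ z, P' y z) := by
          gcongr
      _ = ENNReal.ofReal C * lam * ∫⁻ y, ∫⁻ z, P y z := by
          rw [htot]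
          ring

end FM954
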