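import Mathlib
import Pool.Agent.Helper954.FM.Base
import Pool.Agent.Helper954.FM.OCTR

set_option autoImplicit false
open MeasureTheory Set Metric
open scoped ENNReal

namespace FM954

theorem midW : ∃ C : ℝ, 0 < C ∧ ∀ d : ℕ, 32 ≤ d → ∀ T : ℝ, 0 < T →
    ∀ (lam : ENNReal), lam ≠ ⊤ → ∀ P : Eu d → Eu d → ENNReal,
    Measurable (fun q : Eu d × Eu d => P q.1 q.2) →
    (∀ y z, P y z ≠ 0 → ‖z - y‖ ≤ T / 4) → (∀ y z, P y z ≠ ⊤) →
    (∀ z, ∫⁻ y, P y z ≤ lam) → (∫⁻ y, ∫⁻ z, P y z ≠ ⊤) →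
    ∃ w : Eu d → ENNReal, Measurable w ∧
      (∀ x, ∀ R : ℝ, T / 2 ≤ R → R ≤ T →
        ∫⁻ y, ∫⁻ z, P y z * (bs d R (x - y) * ENNReal.ofReal (Pk d (x - y) (z - y))) ≤ w x) ∧
      ∫⁻ x, w x ^ 2 ≤ ENNReal.ofReal C * lam * ∫⁻ y, ∫⁻ z, P y z := by
  obtain ⟨C, hC, H⟩ := octR
  refine ⟨C, hC, fun d hd T hT lam hlam P hP hP1 hP2 hP3 hP4 => ?_⟩
  have hd' : (32 : ℝ) ≤ d := by exact_mod_cast hd
  have h24 : (24 : ℝ) / d ≤ 1 := by
    rw [div_le_one (by linarith)]; linarith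
  obtain ⟨w, hw, hw1, hw2⟩ := H d hd 1 h24 le_rfl T hT lam hlam P hP
    (fun y z h => (hP1 y z h).trans (by linarith)) hP2 hP3 hP4
  refine ⟨w, hw, ?_, hw2⟩
  intro x R hR1 hR2
  refine le_trans (le_of_eq ?_) (hw1 x R hR1 hR2)
  congr 1
  funext y
  congr 1
  funext z
  by_cases h0 : P y z = 0
  · simp [h0]
  have h1 := hP1 y z h0
  have hn : 0 ≤ ‖z - y‖ := norm_nonneg _
  have h2 : ‖z - y‖ ^ 2 ≤ T ^ 2 / 16 := by nlinarith
  have h3 : T ^ 2 / 4 ≤ R ^ 2 := by nlinarith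
  have h4 : R ^ 2 ≤ T ^ 2 := by nlinarith
  have hT2 : 0 < T ^ 2 := by positivity
  have hl1 : (1 : ℝ) / 8 ≤ (R ^ 2 - ‖z - y‖ ^ 2) / T ^ 2 := by
    rw [le_div_iff₀ hT2]; nlinarith
  have hl2 : (R ^ 2 - ‖z - y‖ ^ 2) / T ^ 2 ≤ 1 := by
    rw [div_le_one hT2]; nlinarith [sq_nonneg ‖z - y‖]
  have hmem : (R ^ 2 - ‖z - y‖ ^ 2) / T ^ 2 ∈ {l : ℝ | cls d 1 l} :=
    ⟨by linarith, hl2, Or.inl hl1⟩
  rw [Set.indicator_of_mem hmem, one_mul]

theorem nw_mul_le (a b : ENNReal) : a * b ≤ a ^ 2 + b ^ 2 := by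
  rcases le_total a b with h | h
  · calc a * b ≤ b * b := mul_le_mul_left h b
      _ = b ^ 2 := by rw [sq]
      _ ≤ a ^ 2 + b ^ 2 := le_add_self
  · calc a * b ≤ a * a := mul_le_mul_right h a
      _ = a ^ 2 := by rw [sq]
      _ ≤ a ^ 2 + b ^ 2 := le_self_add

theorem nw_sum_sq (s : Finset ℕ) (a : ℕ → ENNReal) :
    (∑ m ∈ s, a m) ^ 2 ≤ 2 * (s.card : ENNReal) * ∑ m ∈ s, a m ^ 2 := by
  rw [sq, Finset.sum_mul_sum]
  calc ∑ i ∈ s, ∑ j ∈ s, a i * a j ≤ ∑ i ∈ s, ∑ j ∈ s, (a i ^ 2 + a j ^ 2) :=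
        Finset.sum_le_sum fun i _ => Finset.sum_le_sum fun j _ => nw_mul_le _ _
    _ = 2 * (s.card : ENNReal) * ∑ m ∈ s, a m ^ 2 := by
        simp only [Finset.sum_add_distrib, Finset.sum_const, nsmul_eq_mul, ← Finset.mul_sum]
        ring

theorem nw_cls (d : ℕ) (M : ℕ) (hM : (1 / 2 : ℝ) ^ M ≤ 100 / d) (l : ℝ) (hl : 0 < l)
    (hl1 : l ≤ 1) : ∃ m ∈ Finset.range (M + 1), cls d ((1 / 2 : ℝ) ^ m) l := by
  by_cases h : l ≤ (1 / 2 : ℝ) ^ M
  · exact ⟨M, by simp, hl, h, Or.inr hM⟩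
  · obtain ⟨m, h1, h2⟩ := exists_nat_pow_near_of_lt_one hl hl1 (y := (1 / 2 : ℝ)) (by norm_num)
      (by norm_num)
    have hmM : m < M := by
      by_contra hc
      push Not at hc h
      have : (1 / 2 : ℝ) ^ m ≤ (1 / 2 : ℝ) ^ M :=
        pow_le_pow_of_le_one (by norm_num) (by norm_num) hc
      linarith
    refine ⟨m, by simp; omega, hl, h2, Or.inl ?_⟩
    rw [pow_succ] at h1
    have : 0 < (1 / 2 : ℝ) ^ m := by positivity
    linarith

theorem nw_meas_Pk (d : ℕ) : Measurable (fun q : Eu d × Eu d => Pk d q.1 q.2) := by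
  unfold Pk
  fun_prop

theorem nw_meas_cls (d : ℕ) (h : ℝ) : MeasurableSet {l : ℝ | cls d h l} := by
  unfold cls
  refine MeasurableSet.inter (measurableSet_lt measurable_const measurable_id) ?_
  refine MeasurableSet.inter (measurableSet_le measurable_id measurable_const) ?_
  exact MeasurableSet.union (measurableSet_le measurable_const measurable_id)
    (MeasurableSet.const _)

theorem nw_meas (d : ℕ) (R T h : ℝ) (x : Eu d) (P : Eu d → Eu d → ENNReal)
    (hP : Measurable (fun q : Eu d × Eu d => P q.1 q.2)) :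
    Measurable (fun q : Eu d × Eu d => P q.1 q.2 * ({l : ℝ | cls d h l}.indicator
      (fun _ => (1 : ENNReal)) ((R ^ 2 - ‖q.2 - q.1‖ ^ 2) / T ^ 2) *
          (bs d R (x - q.1) * ENNReal.ofReal (Pk d (x - q.1) (q.2 - q.1))))) := by
  refine hP.mul ?_
  refine Measurable.mul ?_ ?_
  · exact (measurable_const.indicator (nw_meas_cls d h)).comp (by fun_prop)
  · refine Measurable.mul ?_ ?_
    · exact (measurable_bs d R (measurableSet_shell d R)).comp (by fun_prop)
    · refine Measurable.ennreal_ofReal ?_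
      exact (nw_meas_Pk d).comp (f := fun q : Eu d × Eu d => (x - q.1, q.2 - q.1)) (by fun_prop)

theorem nearW : ∃ C : ℝ, 0 < C ∧ ∀ d : ℕ, 32 ≤ d → ∀ T : ℝ, 0 < T →
    ∀ (lam : ENNReal), lam ≠ ⊤ → ∀ P : Eu d → Eu d → ENNReal,
    Measurable (fun q : Eu d × Eu d => P q.1 q.2) →
    (∀ y z, P y z ≠ 0 → ‖z - y‖ ≤ T) → (∀ y z, P y z ≠ ⊤) →
    (∀ z, ∫⁻ y, P y z ≤ lam) → (∫⁻ y, ∫⁻ z, P y z ≠ ⊤) →
    ∃ w : Eu d → ENNReal, Measurable w ∧
      (∀ x, ∀ R : ℝ, T / 2 ≤ R → R ≤ T →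
        ∫⁻ y, ∫⁻ z, P y z * (bs d R (x - y) * ENNReal.ofReal (Pk d (x - y) (z - y))) ≤ w x) ∧
      ∫⁻ x, w x ^ 2 ≤ ENNReal.ofReal (C * Real.log d ^ 2) * lam * ∫⁻ y, ∫⁻ z, P y z := by
  obtain ⟨C, hC, H⟩ := octR
  refine ⟨18 * C, by positivity, fun d hd T hT lam hlam P hP hP1 hP2 hP3 hP4 => ?_⟩
  have hd' : (32 : ℝ) ≤ d := by exact_mod_cast hd
  have hd0 : (0 : ℝ) < d := by linarith
  obtain ⟨M, hM⟩ : ∃ M, M = Nat.log 2 (d / 24) := ⟨_, rfl⟩
  have hM1 : 2 ^ M ≤ d / 24 := by rw [hM]; exact Nat.pow_log_le_self 2 (by omega)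
  have hM2 : d / 24 < 2 ^ (M + 1) := by rw [hM]; exact Nat.lt_pow_succ_log_self (by norm_num) _
  have hM3 : 24 * 2 ^ M ≤ d := by omega
  have hM4 : d < 48 * 2 ^ M := by rw [pow_succ] at hM2; omega
  have hM3' : (24 : ℝ) * 2 ^ M ≤ d := by exact_mod_cast hM3
  have hM4' : (d : ℝ) < 48 * 2 ^ M := by exact_mod_cast hM4
  have hhalf : ∀ m : ℕ, (1 / 2 : ℝ) ^ m = 1 / 2 ^ m := fun m => by rw [one_div_pow]
  have hMh : (1 / 2 : ℝ) ^ M ≤ 100 / d := by
    rw [hhalf, div_le_div_iff₀ (by positivity) hd0]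
    linarith
  have hlow : ∀ m, m ≤ M → (24 : ℝ) / d ≤ (1 / 2 : ℝ) ^ m := by
    intro m hm
    rw [hhalf, div_le_div_iff₀ hd0 (by positivity)]
    have : (2 : ℝ) ^ m ≤ 2 ^ M := pow_le_pow_right₀ (by norm_num) hm
    linarith
  have hex : ∀ m : ℕ, ∃ w : Eu d → ENNReal, m ≤ M → (Measurable w ∧
      (∀ x, ∀ R : ℝ, T / 2 ≤ R → R ≤ T →
        ∫⁻ y, ∫⁻ z, P y z * ({l : ℝ | cls d ((1 / 2 : ℝ) ^ m) l}.indicator
          (fun _ => (1 : ENNReal)) ((R ^ 2 - ‖z - y‖ ^ 2) / T ^ 2) *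
          (bs d R (x - y) * ENNReal.ofReal (Pk d (x - y) (z - y)))) ≤ w x) ∧
      ∫⁻ x, w x ^ 2 ≤ ENNReal.ofReal C * lam * ∫⁻ y, ∫⁻ z, P y z) := by
    intro m
    by_cases hm : m ≤ M
    · obtain ⟨w, hw⟩ := H d hd ((1 / 2 : ℝ) ^ m) (hlow m hm)
        (pow_le_one₀ (by norm_num) (by norm_num)) T hT lam hlam P hP hP1 hP2 hP3 hP4
      exact ⟨w, fun _ => hw⟩
    · exact ⟨fun _ => 0, fun h => absurd h hm⟩
  choose w hw using hex
  have hwm : ∀ m ∈ Finset.range (M + 1), m ≤ M := fun m hm => by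
    have := Finset.mem_range.mp hm; omega
  refine ⟨fun x => ∑ m ∈ Finset.range (M + 1), w m x, ?_, ?_, ?_⟩
  · exact Finset.measurable_sum _ fun m hm => (hw m (hwm m hm)).1
  · intro x R hR1 hR2
    calc ∫⁻ y, ∫⁻ z, P y z * (bs d R (x - y) * ENNReal.ofReal (Pk d (x - y) (z - y)))
        ≤ ∫⁻ y, ∫⁻ z, ∑ m ∈ Finset.range (M + 1),
          P y z * ({l : ℝ | cls d ((1 / 2 : ℝ) ^ m) l}.indicator
          (fun _ => (1 : ENNReal)) ((R ^ 2 - ‖z - y‖ ^ 2) / T ^ 2) *
          (bs d R (x - y) * ENNReal.ofReal (Pk d (x - y) (z - y)))) := by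
          refine lintegral_mono fun y => lintegral_mono fun z => ?_
          show P y z * _ ≤ _
          by_cases hb : bs d R (x - y) = 0
          · simp [hb]
          by_cases hk : ENNReal.ofReal (Pk d (x - y) (z - y)) = 0
          · simp [hk]
          have hsh : x - y ∈ shell d R := by
            by_contra hc
            exact hb (Set.indicator_of_notMem hc _)
          have hpk : 0 < Pk d (x - y) (z - y) := by
            by_contra hc
            exact hk (ENNReal.ofReal_eq_zero.mpr (not_lt.mp hc))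
          have hlt : ‖z - y‖ ^ 2 < ‖x - y‖ ^ 2 := by
            by_contra hc
            push Not at hc
            have : Pk d (x - y) (z - y) ≤ 0 := by
              unfold Pk
              apply div_nonpos_of_nonpos_of_nonneg
              · exact mul_nonpos_of_nonneg_of_nonpos (by positivity) (by linarith)
              · positivity
            linarith
          have hR0 : 0 < R := by linarith
          have hxR : ‖x - y‖ < R := hsh.2
          have hxR2 : ‖x - y‖ ^ 2 < R ^ 2 := by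
            have := norm_nonneg (x - y)
            nlinarith
          have hT2 : 0 < T ^ 2 := by positivity
          have hl0 : 0 < (R ^ 2 - ‖z - y‖ ^ 2) / T ^ 2 := by
            apply div_pos _ hT2; linarith
          have hl1 : (R ^ 2 - ‖z - y‖ ^ 2) / T ^ 2 ≤ 1 := by
            rw [div_le_one hT2]; nlinarith [sq_nonneg ‖z - y‖]
          obtain ⟨m, hm, hcls⟩ := nw_cls d M hMh _ hl0 hl1
          refine le_trans (le_of_eq ?_) (Finset.single_le_sum (f := fun m =>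
            P y z * ({l : ℝ | cls d ((1 / 2 : ℝ) ^ m) l}.indicator
          (fun _ => (1 : ENNReal)) ((R ^ 2 - ‖z - y‖ ^ 2) / T ^ 2) *
          (bs d R (x - y) * ENNReal.ofReal (Pk d (x - y) (z - y))))) (fun _ _ => zero_le) hm)
          have hmem : (R ^ 2 - ‖z - y‖ ^ 2) / T ^ 2 ∈ {l : ℝ | cls d ((1 / 2 : ℝ) ^ m) l} := hcls
          show _ = P y z * (_ * _)
          rw [Set.indicator_of_mem hmem, one_mul]
      _ = ∫⁻ y, ∑ m ∈ Finset.range (M + 1), ∫⁻ z,
          P y z * ({l : ℝ | cls d ((1 / 2 : ℝ) ^ m) l}.indicator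
          (fun _ => (1 : ENNReal)) ((R ^ 2 - ‖z - y‖ ^ 2) / T ^ 2) *
          (bs d R (x - y) * ENNReal.ofReal (Pk d (x - y) (z - y)))) := by
          congr 1
          funext y
          refine lintegral_finsetSum _ fun m _ => ?_
          exact (nw_meas d R T ((1 / 2 : ℝ) ^ m) x P hP).comp
            (f := fun z : Eu d => (y, z)) (by fun_prop)
      _ = ∑ m ∈ Finset.range (M + 1), ∫⁻ y, ∫⁻ z,
          P y z * ({l : ℝ | cls d ((1 / 2 : ℝ) ^ m) l}.indicator
          (fun _ => (1 : ENNReal)) ((R ^ 2 - ‖z - y‖ ^ 2) / T ^ 2) *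
          (bs d R (x - y) * ENNReal.ofReal (Pk d (x - y) (z - y)))) := by
          refine lintegral_finsetSum _ fun m _ => ?_
          exact (nw_meas d R T ((1 / 2 : ℝ) ^ m) x P hP).lintegral_prod_right'
      _ ≤ ∑ m ∈ Finset.range (M + 1), w m x :=
          Finset.sum_le_sum fun m hm => (hw m (hwm m hm)).2.1 x R hR1 hR2
  · have hlog : ((M : ℝ) + 1) ≤ 3 * Real.log d := by
      have h1 : (2 : ℝ) ^ M ≤ d := by
        have : (0 : ℝ) < 2 ^ M := by positivity
        linarith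
      have h2 : (M : ℝ) * Real.log 2 ≤ Real.log d := by
        rw [← Real.log_pow]
        exact Real.log_le_log (by positivity) h1
      have h3 : (5 : ℝ) * Real.log 2 ≤ Real.log d := by
        have : (5 : ℝ) * Real.log 2 = Real.log ((2 : ℝ) ^ 5) := by
          rw [Real.log_pow]; norm_num
        rw [this]
        exact Real.log_le_log (by norm_num) (by norm_num; linarith)
      have h4 := Real.log_two_gt_d9
      have h5 : (M : ℝ) * 0.69 ≤ Real.log d := by
        have : (M : ℝ) * 0.69 ≤ (M : ℝ) * Real.log 2 :=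
          mul_le_mul_of_nonneg_left (by linarith) (Nat.cast_nonneg _)
        linarith
      have h6 : (3.4 : ℝ) ≤ Real.log d := by linarith
      linarith
    have hlog0 : 0 ≤ Real.log d := by
      have : (0 : ℝ) ≤ (M : ℝ) := Nat.cast_nonneg _
      linarith
    calc ∫⁻ x, (∑ m ∈ Finset.range (M + 1), w m x) ^ 2
        ≤ ∫⁻ x, 2 * ((M : ENNReal) + 1) * ∑ m ∈ Finset.range (M + 1), w m x ^ 2 := by
          refine lintegral_mono fun x => ?_
          have := nw_sum_sq (Finset.range (M + 1)) (fun m => w m x)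
          rw [Finset.card_range] at this
          push_cast at this
          exact this
      _ = 2 * ((M : ENNReal) + 1) * ∑ m ∈ Finset.range (M + 1), ∫⁻ x, w m x ^ 2 := by
          rw [lintegral_const_mul _ (Finset.measurable_sum _ fun m hm =>
            ((hw m (hwm m hm)).1).pow_const 2)]
          congr 1
          exact lintegral_finsetSum' _ fun m hm =>
            (((hw m (hwm m hm)).1).pow_const 2).aemeasurable
      _ ≤ 2 * ((M : ENNReal) + 1) * ∑ m ∈ Finset.range (M + 1),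
            ENNReal.ofReal C * lam * ∫⁻ y, ∫⁻ z, P y z := by
          gcongr with m hm
          exact (hw m (hwm m hm)).2.2
      _ = (2 * ((M : ENNReal) + 1) * ((M : ENNReal) + 1) * ENNReal.ofReal C) * lam *
            ∫⁻ y, ∫⁻ z, P y z := by
          rw [Finset.sum_const, Finset.card_range, nsmul_eq_mul]
          push_cast
          ring
      _ ≤ ENNReal.ofReal (18 * C * Real.log d ^ 2) * lam * ∫⁻ y, ∫⁻ z, P y z := by
          gcongr
          have e1 : (2 * ((M : ENNReal) + 1) * ((M : ENNReal) + 1) * ENNReal.ofReal C) =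
              ENNReal.ofReal (2 * ((M : ℝ) + 1) * ((M : ℝ) + 1) * C) := by
            rw [ENNReal.ofReal_mul (by positivity), ENNReal.ofReal_mul (by positivity),
              ENNReal.ofReal_mul (by positivity), ENNReal.ofReal_add (by positivity) (by norm_num)]
            simp
          rw [e1]
          apply ENNReal.ofReal_le_ofReal
          have hM0 : (0 : ℝ) ≤ (M : ℝ) := Nat.cast_nonneg _
          have h7 : ((M : ℝ) + 1) * ((M : ℝ) + 1) ≤ (3 * Real.log d) * (3 * Real.log d) :=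
            mul_le_mul hlog hlog (by positivity) (by positivity)
          nlinarith

end FM954
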