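import Mathlib
import Pool.Agent.Helper954.FM.Base
import Pool.Agent.Helper954.FM.NM

set_option autoImplicit false
open MeasureTheory Set Metric
open scoped ENNReal

namespace FM954

theorem j16990_rho (d : ℕ) (hd : 1 ≤ d) : 1 ≤ (qd d)⁻¹ ∧ ((qd d)⁻¹) ^ d = 2 := by
  constructor
  · exact (one_le_inv₀ (qd_pos d)).2 (qd_lt_one d hd).le
  · rw [inv_pow, qd_pow d hd]; norm_num

theorem j16990_sep (d : ℕ) (hd : 1 ≤ d) {R : ℝ} (hR : 0 < R) {j k : ℕ} (hjk : j < k) :
    R * (qd d)⁻¹ ^ j ≤ qd d * (R * (qd d)⁻¹ ^ k) := by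
  have h1 := (j16990_rho d hd).1
  have hq := qd_pos d
  have e : qd d * (R * (qd d)⁻¹ ^ k) = R * (qd d)⁻¹ ^ (k - 1) := by
    obtain ⟨k', rfl⟩ : ∃ k', k = k' + 1 := ⟨k - 1, by omega⟩
    rw [Nat.add_sub_cancel, pow_succ]
    field_simp
  rw [e]
  exact mul_le_mul_of_nonneg_left (pow_le_pow_right₀ h1 (by omega)) hR.le

theorem j16990_oct (d : ℕ) (hd : 1 ≤ d) {R : ℝ} (hR : 0 < R) (k : ℕ) :
    R * 2 ^ (k / d) ≤ R * (qd d)⁻¹ ^ k ∧ R * (qd d)⁻¹ ^ k ≤ R * 2 ^ (k / d + 1) := by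
  obtain ⟨h1, h2⟩ := j16990_rho d hd
  have e : ∀ o : ℕ, (2 : ℝ) ^ o = (qd d)⁻¹ ^ (d * o) := fun o => by rw [pow_mul, h2]
  rw [e, e]
  constructor
  · exact mul_le_mul_of_nonneg_left (pow_le_pow_right₀ h1 (Nat.mul_div_le k d)) hR.le
  · refine mul_le_mul_of_nonneg_left (pow_le_pow_right₀ h1 ?_) hR.le
    exact (Nat.lt_mul_div_succ k (by omega)).le

theorem j16990_far (d : ℕ) (hd : 1 ≤ d) {R : ℝ} (hR : 0 < R) {j k L : ℕ} (hL : d ≤ 2 ^ L)
    (h : j / d + L + 1 ≤ k / d) : R * (qd d)⁻¹ ^ j ≤ R * (qd d)⁻¹ ^ k / d := by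
  obtain ⟨h1, h2⟩ := j16990_rho d hd
  have hd0 : (0:ℝ) < d := by exact_mod_cast hd
  have hq := qd_pos d
  have h3 : j + d * L ≤ k := by
    have g1 : j < d * (j / d + 1) := Nat.lt_mul_div_succ j (by omega)
    have g2 : d * (k / d) ≤ k := Nat.mul_div_le k d
    have g3 : d * (j / d + L + 1) ≤ d * (k / d) := Nat.mul_le_mul_left d h
    have g4 : d * (j / d + L + 1) = d * (j / d + 1) + d * L := by ring
    omega
  rw [le_div_iff₀ hd0]
  calc R * (qd d)⁻¹ ^ j * d ≤ R * (qd d)⁻¹ ^ j * 2 ^ L := by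
        refine mul_le_mul_of_nonneg_left ?_ (by positivity)
        exact_mod_cast hL
    _ = R * (qd d)⁻¹ ^ (j + d * L) := by
        rw [pow_add, pow_mul, h2]; ring
    _ ≤ R * (qd d)⁻¹ ^ k := mul_le_mul_of_nonneg_left (pow_le_pow_right₀ h1 h3) hR.le

theorem j16990_super {α : Type*} [MeasurableSpace α] (μ : Measure α) {ι : Type*} (s : Finset ι)
    (f : ι → α → ENNReal) : ∑ i ∈ s, ∫⁻ a, f i a ∂μ ≤ ∫⁻ a, ∑ i ∈ s, f i a ∂μ := by
  classical
  induction s using Finset.induction_on with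
  | empty => simp
  | insert i s hi ih =>
    rw [Finset.sum_insert hi]
    calc ∫⁻ a, f i a ∂μ + ∑ i ∈ s, ∫⁻ a, f i a ∂μ
        ≤ ∫⁻ a, f i a ∂μ + ∫⁻ a, ∑ i ∈ s, f i a ∂μ := by gcongr
      _ ≤ ∫⁻ a, (f i a + ∑ i ∈ s, f i a) ∂μ := le_lintegral_add _ _
      _ = ∫⁻ a, ∑ i ∈ insert i s, f i a ∂μ := by
          refine lintegral_congr fun a => ?_
          rw [Finset.sum_insert hi]

theorem j16990_W (d : ℕ) {T S : ℝ} (lam C' : ENNReal) (K : ℕ) (P : ℕ → Eu d → Eu d → ENNReal)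
    (Rk : ℕ → ℝ)
    (hPm : ∀ j, Measurable (fun q : Eu d × Eu d => P j q.1 q.2))
    (hPs : ∀ j y z, P j y z ≠ 0 → ‖z - y‖ ≤ Rk j) (hPt : ∀ j y z, P j y z ≠ ⊤)
    (hPl : ∀ z, ∑ j ∈ Finset.range K, ∫⁻ y, P j y z ≤ lam)
    (hPi : ∑ j ∈ Finset.range K, ∫⁻ y, ∫⁻ z, P j y z ≠ ⊤)
    (hW : ∀ P : Eu d → Eu d → ENNReal, Measurable (fun q : Eu d × Eu d => P q.1 q.2) →
      (∀ y z, P y z ≠ 0 → ‖z - y‖ ≤ S) → (∀ y z, P y z ≠ ⊤) →
      (∀ z, ∫⁻ y, P y z ≤ lam) → (∫⁻ y, ∫⁻ z, P y z ≠ ⊤) →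
      ∃ w : Eu d → ENNReal, Measurable w ∧
      (∀ x, ∀ R : ℝ, T / 2 ≤ R → R ≤ T →
        ∫⁻ y, ∫⁻ z, P y z * (bs d R (x - y) * ENNReal.ofReal (Pk d (x - y) (z - y))) ≤ w x) ∧
      ∫⁻ x, w x ^ 2 ≤ C' * lam * ∫⁻ y, ∫⁻ z, P y z)
    (J : Finset ℕ) (hJK : J ⊆ Finset.range K) (hJS : ∀ j ∈ J, Rk j ≤ S) :
    ∃ w : Eu d → ENNReal, Measurable w ∧
      (∀ x, ∀ R : ℝ, T / 2 ≤ R → R ≤ T → ∀ J' ⊆ J,
        ∑ j ∈ J', ∫⁻ y, ∫⁻ z, P j y z * tr d (Rk j) R y z x ≤ w x) ∧
      ∫⁻ x, w x ^ 2 ≤ C' * lam * ∑ j ∈ J, ∫⁻ y, ∫⁻ z, P j y z := by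
  classical
  have hmz : ∀ j z, Measurable (fun y => P j y z) := fun j z =>
    (hPm j).comp (measurable_id.prodMk measurable_const)
  have hmy : ∀ j y, Measurable (fun z => P j y z) := fun j y =>
    (hPm j).comp (measurable_const.prodMk measurable_id)
  have hmm : ∀ j, Measurable (fun y => ∫⁻ z, P j y z) := fun j => (hPm j).lintegral_prod_right'
  have hint : ∫⁻ y, ∫⁻ z, ∑ j ∈ J, P j y z = ∑ j ∈ J, ∫⁻ y, ∫⁻ z, P j y z := by
    rw [← lintegral_finsetSum _ fun j _ => hmm j]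
    refine lintegral_congr fun y => ?_
    exact lintegral_finsetSum _ fun j _ => hmy j y
  obtain ⟨w, hw1, hw2, hw3⟩ := hW (fun y z => ∑ j ∈ J, P j y z)
    (Finset.measurable_fun_sum _ fun j _ => hPm j)
    (by
      intro y z h
      obtain ⟨j, hj, hj'⟩ := Finset.exists_ne_zero_of_sum_ne_zero h
      exact (hPs j y z hj').trans (hJS j hj))
    (by
      intro y z
      exact (ENNReal.sum_lt_top.2 fun j _ => (hPt j y z).lt_top).ne)
    (by
      intro z
      rw [lintegral_finsetSum _ fun j _ => hmz j z]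
      exact (Finset.sum_le_sum_of_subset hJK).trans (hPl z))
    (by
      rw [hint]
      exact ne_top_of_le_ne_top hPi (Finset.sum_le_sum_of_subset hJK))
  refine ⟨w, hw1, ?_, ?_⟩
  · intro x R' h1 h2 J' hJ'
    refine le_trans ?_ (hw2 x R' h1 h2)
    calc ∑ j ∈ J', ∫⁻ y, ∫⁻ z, P j y z * tr d (Rk j) R' y z x
        ≤ ∑ j ∈ J, ∫⁻ y, ∫⁻ z, P j y z * tr d (Rk j) R' y z x :=
          Finset.sum_le_sum_of_subset hJ'
      _ ≤ ∑ j ∈ J, ∫⁻ y, ∫⁻ z, P j y z *
          (bs d R' (x - y) * ENNReal.ofReal (Pk d (x - y) (z - y))) := by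
          refine Finset.sum_le_sum fun j _ => lintegral_mono fun y => lintegral_mono fun z => ?_
          refine mul_le_mul_right ?_ _
          unfold tr
          calc (shell d (Rk j)).indicator (fun _ => (1 : ENNReal)) (z - y) *
              (bs d R' (x - y) * ENNReal.ofReal (Pk d (x - y) (z - y)))
              ≤ 1 * (bs d R' (x - y) * ENNReal.ofReal (Pk d (x - y) (z - y))) := by
                refine mul_le_mul_left ?_ _
                exact Set.indicator_le_self' (fun _ _ => bot_le) _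
            _ = _ := one_mul _
      _ ≤ ∫⁻ y, ∑ j ∈ J, ∫⁻ z, P j y z *
          (bs d R' (x - y) * ENNReal.ofReal (Pk d (x - y) (z - y))) := j16990_super _ _ _
      _ ≤ ∫⁻ y, ∫⁻ z, ∑ j ∈ J, P j y z *
          (bs d R' (x - y) * ENNReal.ofReal (Pk d (x - y) (z - y))) :=
          lintegral_mono fun y => j16990_super _ _ _
      _ = ∫⁻ y, ∫⁻ z, (∑ j ∈ J, P j y z) *
          (bs d R' (x - y) * ENNReal.ofReal (Pk d (x - y) (z - y))) := by
          refine lintegral_congr fun y => lintegral_congr fun z => ?_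
          rw [Finset.sum_mul]
  · rw [← hint]
    exact hw3

theorem j16990_dc (K : ℕ) (p : ℕ → ℕ → Prop) [∀ o j, Decidable (p o j)] (m : ℕ → ENNReal) (c : ℕ)
    (h : ∀ j, ((Finset.range K).filter (fun o => p o j)).card ≤ c) :
    ∑ o ∈ Finset.range K, ∑ j ∈ (Finset.range K).filter (fun j => p o j), m j ≤
      c * ∑ j ∈ Finset.range K, m j := by
  have e : ∑ o ∈ Finset.range K, ∑ j ∈ (Finset.range K).filter (fun j => p o j), m j =
      ∑ j ∈ Finset.range K, ∑ o ∈ (Finset.range K).filter (fun o => p o j), m j := by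
    refine Finset.sum_comm' fun o j => ?_
    simp only [Finset.mem_filter]
    tauto
  rw [e, Finset.mul_sum]
  refine Finset.sum_le_sum fun j _ => ?_
  rw [Finset.sum_const, nsmul_eq_mul]
  refine mul_le_mul_left ?_ _
  exact_mod_cast h j

theorem j16990_m1 {l lam V M C : ENNReal} (hl0 : l ≠ 0) (hl : l ≠ ⊤) (h0 : lam ≠ 0) (h1 : lam ≠ ⊤)
    (h : (l * lam) ^ 2 * V ≤ C * l ^ 2 * lam * M) : lam * V ≤ C * M := by
  have h2 : (l ^ 2 * lam) * (lam * V) ≤ (l ^ 2 * lam) * (C * M) := by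
    calc (l ^ 2 * lam) * (lam * V) = (l * lam) ^ 2 * V := by ring
      _ ≤ C * l ^ 2 * lam * M := h
      _ = (l ^ 2 * lam) * (C * M) := by ring
  exact (ENNReal.mul_le_mul_iff_right (mul_ne_zero (pow_ne_zero 2 hl0) h0)
    (ENNReal.mul_ne_top (ENNReal.pow_ne_top hl) h1)).1 h2

theorem j16990_m2 {l lam V M C : ENNReal} (h0 : lam ≠ 0) (h1 : lam ≠ ⊤)
    (h : (l * lam) ^ 2 * V ≤ C * lam * M) : l ^ 2 * (lam * V) ≤ C * M := by
  have h2 : lam * (l ^ 2 * (lam * V)) ≤ lam * (C * M) := by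
    calc lam * (l ^ 2 * (lam * V)) = (l * lam) ^ 2 * V := by ring
      _ ≤ C * lam * M := h
      _ = lam * (C * M) := by ring
  exact (ENNReal.mul_le_mul_iff_right h0 h1).1 h2

theorem j16990_log {d : ℕ} (hd : 32 ≤ d) : 1 ≤ Real.log d ∧
    (Nat.clog 2 d : ℝ) ≤ 3 * Real.log d ^ 2 := by
  have hd0 : (0:ℝ) < d := by positivity
  have hl2 := Real.log_two_gt_d9
  have h1 : 5 * Real.log 2 ≤ Real.log d := by
    have : Real.log ((2:ℝ) ^ 5) ≤ Real.log d := by
      refine Real.log_le_log (by positivity) ?_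
      have : ((32:ℕ):ℝ) ≤ d := by exact_mod_cast hd
      norm_num at this ⊢
      exact this
    rw [Real.log_pow] at this
    push_cast at this
    exact this
  have h2 : 1 ≤ Real.log d := by linarith
  refine ⟨h2, ?_⟩
  have h3 : 2 ^ (Nat.clog 2 d).pred < d := Nat.pow_pred_clog_lt_self (by norm_num) (by omega)
  have h4 : ((Nat.clog 2 d).pred : ℝ) * Real.log 2 ≤ Real.log d := by
    have : Real.log ((2:ℝ) ^ (Nat.clog 2 d).pred) ≤ Real.log d := by
      refine Real.log_le_log (by positivity) ?_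
      exact_mod_cast h3.le
    rwa [Real.log_pow] at this
  have h5 : (Nat.clog 2 d : ℝ) ≤ ((Nat.clog 2 d).pred : ℝ) + 1 := by
    have : Nat.clog 2 d ≤ (Nat.clog 2 d).pred + 1 := Nat.le_succ_of_pred_le le_rfl
    exact_mod_cast this
  have h6 : (0:ℝ) ≤ ((Nat.clog 2 d).pred : ℝ) := Nat.cast_nonneg _
  nlinarith

theorem dense : ∃ C : ℝ, 0 < C ∧ ∀ d : ℕ, 32 ≤ d → ∀ R : ℝ, 0 < R → ∀ K : ℕ,
    ∀ f : Eu d → ENNReal, Measurable f → (∀ y, f y ≠ ⊤) → ∫⁻ y, f y ≠ ⊤ →
    ∀ lam : ENNReal, lam ≠ 0 → lam ≠ ⊤ →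
    lam * volume {x : Eu d | ∃ k, k < K ∧ ENNReal.ofReal (C * Real.log d) * lam <
      ∫⁻ y, f y * bs d (R * (qd d)⁻¹ ^ k) (x - y)} ≤ ENNReal.ofReal C * ∫⁻ y, f y := by 
  classical
  obtain ⟨Cn, hCn0, hCn⟩ := nearW
  obtain ⟨Cm, hCm0, hCm⟩ := midW
  refine ⟨104 + 2 * Cn + 3 * Cm, by linarith, ?_⟩
  intro d hd R hR K f hf hff hfi lam hl0 hl
  have hd1 : 1 ≤ d := by omega
  have hd16 : 16 ≤ d := by omega
  have hd0 : (0 : ℝ) < d := by positivity
  obtain ⟨hlog1, hlogL⟩ := j16990_log hd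
  obtain ⟨L, hL⟩ : ∃ L : ℕ, L = Nat.clog 2 d := ⟨_, rfl⟩
  have hdL : d ≤ 2 ^ L := by rw [hL]; exact Nat.le_pow_clog (by norm_num) d
  rw [← hL] at hlogL
  have hq := qd_pos d
  set Rk : ℕ → ℝ := fun k => R * (qd d)⁻¹ ^ k with hRk
  have hRk0 : ∀ k, 0 < Rk k := fun k => by positivity
  have hsep : ∀ j k, j < k → Rk j ≤ qd d * Rk k := fun j k hjk => j16990_sep d hd1 hR hjk
  have hbfin : ∀ k, ∃ M : ENNReal, M ≠ ⊤ ∧ ∀ y x : Eu d, bs d (Rk k) (x - y) ≤ M := by
    intro k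
    refine ⟨(volume (shell d (Rk k)))⁻¹, ?_, fun y x => ?_⟩
    · rw [volume_shell d hd1 _ (hRk0 k)]
      refine ENNReal.inv_ne_top.2 ?_
      rw [Ne, ENNReal.div_eq_zero_iff]
      push Not
      exact ⟨(measure_ball_pos volume _ (hRk0 k)).ne', by norm_num⟩
    · unfold bs
      exact Set.indicator_le_self' (fun _ _ => bot_le) _ |>.trans le_rfl
  obtain ⟨P, hPm, hPb, hPl, hPi, D, hDm, hD, hx⟩ := filling (volume : Measure (Eu d)) K
    (fun k y x => bs d (Rk k) (x - y)) (fun j k y z x => tr d (Rk j) (Rk k) y z x)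
    (fun k => (measurable_bs d _ (measurableSet_shell d _)).comp
      (measurable_snd.sub measurable_fst))
    (fun j k => measurable_tr d _ _ (measurableSet_shell d _) (measurableSet_shell d _))
    hbfin (fun k y => (lintegral_bs d hd1 _ (hRk0 k) y).le)
    (fun j k y z hjk => tr_mass_g d hd1 _ _ (hRk0 j) (hsep j k hjk) y z)
    (fun j k hjk y x => tr_start_g d hd1 _ _ (hRk0 j) (hsep j k hjk) y x)
    (fun i j k hij hjk y z x => tr_ck_g d hd1 _ _ _ (hRk0 i) (hsep i j hij) (hsep j k hjk) y z x)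
    f hf hfi lam hl0 hl
  have hPs : ∀ j y z, P j y z ≠ 0 → ‖z - y‖ ≤ Rk j := by
    intro j y z hyz
    by_contra hcon
    apply hyz
    have h1 := hPb j y z
    have h2 : z - y ∉ shell d (Rk j) := fun h => hcon h.2.le
    simp only [bs] at h1
    rw [Set.indicator_of_notMem h2, mul_zero] at h1
    exact le_antisymm h1 bot_le
  have hPt : ∀ j y z, P j y z ≠ ⊤ := by
    intro j y z
    refine ne_top_of_le_ne_top ?_ (hPb j y z)
    obtain ⟨M, hM, hMb⟩ := hbfin j
    exact ENNReal.mul_ne_top (hff y) (ne_top_of_le_ne_top hM (hMb y z))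
  set m : ℕ → ENNReal := fun j => ∫⁻ y, ∫⁻ z, P j y z with hm
  have hPi' : ∑ j ∈ Finset.range K, ∫⁻ y, ∫⁻ z, P j y z ≠ ⊤ := ne_top_of_le_ne_top hfi hPi
  set T : ℕ → ℝ := fun o => R * 2 ^ (o + 1) with hT
  have hT0 : ∀ o, 0 < T o := fun o => by positivity
  have hRT : ∀ j, Rk j ≤ T (j / d) := fun j => (j16990_oct d hd1 hR j).2
  have hTR : ∀ k, T (k / d) / 2 ≤ Rk k := by
    intro k
    have h1 := (j16990_oct d hd1 hR k).1
    have h2 : T (k / d) / 2 = R * 2 ^ (k / d) := by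
      simp only [hT, pow_succ]
      ring
    rw [h2]
    exact h1
  have hTmono : ∀ {a b : ℕ}, a ≤ b → T a ≤ T b := by
    intro a b hab
    simp only [hT]
    exact mul_le_mul_of_nonneg_left (pow_le_pow_right₀ (by norm_num) (by omega)) hR.le
  -- the near functions
  have hn : ∀ o, ∃ w : Eu d → ENNReal, Measurable w ∧
      (∀ x, ∀ R' : ℝ, T o / 2 ≤ R' → R' ≤ T o →
        ∀ J' ⊆ (Finset.range K).filter (fun j => o ≤ j / d + 1 ∧ j / d ≤ o),
        ∑ j ∈ J', ∫⁻ y, ∫⁻ z, P j y z * tr d (Rk j) R' y z x ≤ w x) ∧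
      ∫⁻ x, w x ^ 2 ≤ ENNReal.ofReal (Cn * Real.log d ^ 2) * lam *
        ∑ j ∈ (Finset.range K).filter (fun j => o ≤ j / d + 1 ∧ j / d ≤ o), m j := by
    intro o
    refine j16990_W d lam _ K P Rk hPm hPs hPt hPl hPi'
      (hCn d hd (T o) (hT0 o) lam hl) _ (Finset.filter_subset _ _) ?_
    intro j hj
    exact (hRT j).trans (hTmono (Finset.mem_filter.1 hj).2.2)
  -- the middle functions
  have hmid : ∀ o, ∃ w : Eu d → ENNReal, Measurable w ∧
      (∀ x, ∀ R' : ℝ, T o / 2 ≤ R' → R' ≤ T o →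
        ∀ J' ⊆ (Finset.range K).filter (fun j => j / d + 2 ≤ o ∧ o ≤ j / d + L),
        ∑ j ∈ J', ∫⁻ y, ∫⁻ z, P j y z * tr d (Rk j) R' y z x ≤ w x) ∧
      ∫⁻ x, w x ^ 2 ≤ ENNReal.ofReal Cm * lam *
        ∑ j ∈ (Finset.range K).filter (fun j => j / d + 2 ≤ o ∧ o ≤ j / d + L), m j := by
    intro o
    refine j16990_W d lam _ K P Rk hPm hPs hPt hPl hPi'
      (hCm d hd (T o) (hT0 o) lam hl) _ (Finset.filter_subset _ _) ?_
    intro j hj
    have h1 := (Finset.mem_filter.1 hj).2.1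
    have h2 : T (j / d) ≤ T o / 4 := by
      have h3 : T (j / d) * 4 ≤ T o := by
        have h4 : T (j / d) * 4 = T (j / d + 2) := by
          simp only [hT]
          ring
        rw [h4]
        exact hTmono h1
      linarith
    exact (hRT j).trans h2
  choose wn hwn1 hwn2 hwn3 using hn
  choose wm hwm1 hwm2 hwm3 using hmid
  obtain ⟨l, hldef⟩ : ∃ l : ENNReal, l = ENNReal.ofReal (Real.log d) := ⟨_, rfl⟩
  have hlr0 : 0 < Real.log d := by linarith
  have hll0 : l ≠ 0 := by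
    rw [hldef]
    exact (ENNReal.ofReal_pos.2 hlr0).ne'
  have hllt : l ≠ ⊤ := by rw [hldef]; exact ENNReal.ofReal_ne_top
  have hl1 : 1 ≤ l := by
    rw [hldef]
    exact ENNReal.one_le_ofReal.2 hlog1
  -- near estimates
  have hVn : ∀ o, lam * volume {x | l * lam < wn o x} ≤ ENNReal.ofReal Cn *
      ∑ j ∈ (Finset.range K).filter (fun j => o ≤ j / d + 1 ∧ j / d ≤ o), m j := by
    intro o
    refine j16990_m1 hll0 hllt hl0 hl ?_
    refine (markov_sq volume (wn o) (hwn1 o) (l * lam)).trans ((hwn3 o).trans (le_of_eq ?_))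
    rw [ENNReal.ofReal_mul hCn0.le, ENNReal.ofReal_pow hlr0.le, ← hldef]
  have hVm : ∀ o, l ^ 2 * (lam * volume {x | l * lam < wm o x}) ≤ ENNReal.ofReal Cm *
      ∑ j ∈ (Finset.range K).filter (fun j => j / d + 2 ≤ o ∧ o ≤ j / d + L), m j := by
    intro o
    refine j16990_m2 hl0 hl ?_
    exact (markov_sq volume (wm o) (hwm1 o) (l * lam)).trans (hwm3 o)
  -- sums
  have hSn : ∑ o ∈ Finset.range K, lam * volume {x | l * lam < wn o x} ≤
      ENNReal.ofReal (2 * Cn) * ∫⁻ y, f y := by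
    calc ∑ o ∈ Finset.range K, lam * volume {x | l * lam < wn o x}
        ≤ ∑ o ∈ Finset.range K, ENNReal.ofReal Cn *
          ∑ j ∈ (Finset.range K).filter (fun j => o ≤ j / d + 1 ∧ j / d ≤ o), m j :=
          Finset.sum_le_sum fun o _ => hVn o
      _ = ENNReal.ofReal Cn * ∑ o ∈ Finset.range K,
          ∑ j ∈ (Finset.range K).filter (fun j => o ≤ j / d + 1 ∧ j / d ≤ o), m j := by
          rw [Finset.mul_sum]
      _ ≤ ENNReal.ofReal Cn * (((2:ℕ) : ENNReal) * ∑ j ∈ Finset.range K, m j) := by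
          refine mul_le_mul_right ?_ _
          refine j16990_dc K (fun o j => o ≤ j / d + 1 ∧ j / d ≤ o) m 2 fun j => ?_
          refine (Finset.card_le_card (t := Finset.Icc (j / d) (j / d + 1)) ?_).trans ?_
          · intro o ho
            have := (Finset.mem_filter.1 ho).2
            exact Finset.mem_Icc.2 ⟨this.2, this.1⟩
          · rw [Nat.card_Icc]
            omega
      _ ≤ ENNReal.ofReal Cn * (((2:ℕ) : ENNReal) * ∫⁻ y, f y) := by gcongr
      _ = ENNReal.ofReal (2 * Cn) * ∫⁻ y, f y := by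
          rw [ENNReal.ofReal_mul (by norm_num)]
          have : ENNReal.ofReal 2 = ((2:ℕ) : ENNReal) := by norm_num
          rw [this]
          ring
  have hSm : ∑ o ∈ Finset.range K, lam * volume {x | l * lam < wm o x} ≤
      ENNReal.ofReal (3 * Cm) * ∫⁻ y, f y := by
    have h1 : l ^ 2 * ∑ o ∈ Finset.range K, lam * volume {x | l * lam < wm o x} ≤
        l ^ 2 * (ENNReal.ofReal (3 * Cm) * ∫⁻ y, f y) := by
      calc l ^ 2 * ∑ o ∈ Finset.range K, lam * volume {x | l * lam < wm o x}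
          = ∑ o ∈ Finset.range K, l ^ 2 * (lam * volume {x | l * lam < wm o x}) := by
            rw [Finset.mul_sum]
        _ ≤ ∑ o ∈ Finset.range K, ENNReal.ofReal Cm *
          ∑ j ∈ (Finset.range K).filter (fun j => j / d + 2 ≤ o ∧ o ≤ j / d + L), m j :=
            Finset.sum_le_sum fun o _ => hVm o
        _ = ENNReal.ofReal Cm * ∑ o ∈ Finset.range K,
          ∑ j ∈ (Finset.range K).filter (fun j => j / d + 2 ≤ o ∧ o ≤ j / d + L), m j := by
            rw [Finset.mul_sum]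
        _ ≤ ENNReal.ofReal Cm * (((L:ℕ) : ENNReal) * ∑ j ∈ Finset.range K, m j) := by
            refine mul_le_mul_right ?_ _
            refine j16990_dc K (fun o j => j / d + 2 ≤ o ∧ o ≤ j / d + L) m L fun j => ?_
            refine (Finset.card_le_card (t := Finset.Icc (j / d + 2) (j / d + L)) ?_).trans ?_
            · intro o ho
              have := (Finset.mem_filter.1 ho).2
              exact Finset.mem_Icc.2 ⟨this.1, this.2⟩
            · rw [Nat.card_Icc]
              omega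
        _ ≤ ENNReal.ofReal Cm * (ENNReal.ofReal (3 * Real.log d ^ 2) * ∫⁻ y, f y) := by
            refine mul_le_mul_right (mul_le_mul' ?_ hPi) _
            rw [← ENNReal.ofReal_natCast]
            exact ENNReal.ofReal_le_ofReal hlogL
        _ = l ^ 2 * (ENNReal.ofReal (3 * Cm) * ∫⁻ y, f y) := by
            rw [ENNReal.ofReal_mul (by norm_num : (0:ℝ) ≤ 3),
              ENNReal.ofReal_mul (by norm_num : (0:ℝ) ≤ 3), ENNReal.ofReal_pow hlr0.le, ← hldef]
            ring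
    exact (ENNReal.mul_le_mul_iff_right (pow_ne_zero 2 hll0) (ENNReal.pow_ne_top hllt)).1 h1
  -- the bad set
  obtain ⟨Bn, hBn⟩ : ∃ Bn : Set (Eu d), Bn = ⋃ o ∈ Finset.range K, {x | l * lam < wn o x} :=
    ⟨_, rfl⟩
  obtain ⟨Bm, hBm⟩ : ∃ Bm : Set (Eu d), Bm = ⋃ o ∈ Finset.range K, {x | l * lam < wm o x} :=
    ⟨_, rfl⟩
  have hBnle : lam * volume Bn ≤ ENNReal.ofReal (2 * Cn) * ∫⁻ y, f y := by
    refine le_trans ?_ hSn
    rw [hBn, ← Finset.mul_sum]
    exact mul_le_mul_right (measure_biUnion_finset_le _ _) _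
  have hBmle : lam * volume Bm ≤ ENNReal.ofReal (3 * Cm) * ∫⁻ y, f y := by
    refine le_trans ?_ hSm
    rw [hBm, ← Finset.mul_sum]
    exact mul_le_mul_right (measure_biUnion_finset_le _ _) _
  -- good points
  have hgood : {x : Eu d | ∃ k, k < K ∧
      ENNReal.ofReal ((104 + 2 * Cn + 3 * Cm) * Real.log d) * lam <
      ∫⁻ y, f y * bs d (R * (qd d)⁻¹ ^ k) (x - y)} ⊆ D ∪ (Bn ∪ Bm) := by
    intro x hxx
    by_contra hcon
    rw [mem_union, not_or, mem_union, not_or] at hcon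
    obtain ⟨hxD, hxn, hxm⟩ := hcon
    obtain ⟨k, hk, hlt⟩ := hxx
    have h1 := hx x hxD k hk
    refine absurd (hlt.trans_le h1) (not_lt.2 ?_)
    have hPlk : ∀ z (J : Finset ℕ), J ⊆ Finset.range k → ∑ j ∈ J, ∫⁻ y, P j y z ≤ lam :=
      fun z J hJ => le_trans (Finset.sum_le_sum_of_subset
        (hJ.trans (Finset.range_subset_range.2 hk.le))) (hPl z)
    have hmz : ∀ j, Measurable (fun z => ∫⁻ y, P j y z) := fun j =>
      ((hPm j).comp measurable_swap).lintegral_prod_right'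
    obtain ⟨o, ho⟩ : ∃ o : ℕ, o = k / d := ⟨_, rfl⟩
    have hoK : o < K := lt_of_le_of_lt (by rw [ho]; exact Nat.div_le_self k d) hk
    have hR1 : T o / 2 ≤ Rk k := by rw [ho]; exact hTR k
    have hR2 : Rk k ≤ T o := by rw [ho]; exact hRT k
    have hwnx : wn o x ≤ l * lam := by
      by_contra hc
      rw [not_le] at hc
      apply hxn
      rw [hBn]
      simp only [mem_iUnion]
      exact ⟨o, Finset.mem_range.2 hoK, hc⟩
    have hwmx : wm o x ≤ l * lam := by
      by_contra hc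
      rw [not_le] at hc
      apply hxm
      rw [hBm]
      simp only [mem_iUnion]
      exact ⟨o, Finset.mem_range.2 hoK, hc⟩
    set kap : Eu d → ENNReal := fun z => 32 * (volume (ball (0 : Eu d) (Rk k)))⁻¹ *
      (ball (0 : Eu d) (Rk k * (1 + 1 / d))).indicator (fun _ => (1 : ENNReal)) (x - z) with hkap
    have hkapm : Measurable kap :=
      measurable_const.mul ((measurable_const.indicator measurableSet_ball).comp
        (measurable_const.sub measurable_id))
    set g : ℕ → ENNReal := fun j => ∫⁻ y, ∫⁻ z, P j y z * tr d (Rk j) (Rk k) y z x with hg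
    -- far part
    have hfar : ∑ j ∈ (Finset.range k).filter (fun j => j / d + L + 1 ≤ o), g j ≤
        lam * 100 := by
      have hterm : ∀ j ∈ (Finset.range k).filter (fun j => j / d + L + 1 ≤ o),
          g j ≤ ∫⁻ z, (∫⁻ y, P j y z) * kap z := by
        intro j hj
        have h6 : Rk j ≤ Rk k / d := by
          refine j16990_far d hd1 hR hdL ?_
          rw [← ho]
          exact (Finset.mem_filter.1 hj).2
        have h7 : g j ≤ ∫⁻ y, ∫⁻ z, P j y z * kap z := by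
          refine lintegral_mono fun y => lintegral_mono fun z => ?_
          exact mul_le_mul_right (far_bound d hd16 _ _ (hRk0 j) h6 x y z) _
        have h8 : ∫⁻ y, ∫⁻ z, P j y z * kap z = ∫⁻ z, (∫⁻ y, P j y z) * kap z := by
          rw [lintegral_lintegral_swap ((hPm j).mul (hkapm.comp measurable_snd)).aemeasurable]
          refine lintegral_congr fun z => ?_
          rw [lintegral_mul_const]
          exact (hPm j).comp (measurable_id.prodMk measurable_const)
        rwa [h8] at h7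
      refine (Finset.sum_le_sum hterm).trans ?_
      have hmk : ∀ j ∈ (Finset.range k).filter (fun j => j / d + L + 1 ≤ o),
          Measurable (fun z => (∫⁻ y, P j y z) * kap z) := fun j _ => (hmz j).mul hkapm
      rw [← lintegral_finsetSum _ hmk]
      calc _ ≤ ∫⁻ z, lam * kap z := by
            refine lintegral_mono fun z => ?_
            rw [← Finset.sum_mul]
            exact mul_le_mul_left (hPlk z _ (Finset.filter_subset _ _)) _
        _ = lam * ∫⁻ z, kap z := lintegral_const_mul _ hkapm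
        _ ≤ lam * 100 := by
            gcongr
            exact far_mass d hd16 _ (hRk0 k) x
    have hnear : ∑ j ∈ (Finset.range k).filter (fun j => ¬ (j / d + L + 1 ≤ o) ∧
        o ≤ j / d + 1), g j ≤ l * lam := by
      refine le_trans (hwn2 o x (Rk k) hR1 hR2 _ ?_) hwnx
      intro j hj
      rw [Finset.mem_filter, Finset.mem_range] at hj
      rw [Finset.mem_filter, Finset.mem_range]
      refine ⟨hj.1.trans hk, hj.2.2, ?_⟩
      rw [ho]
      exact Nat.div_le_div_right hj.1.le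
    have hmidd : ∑ j ∈ (Finset.range k).filter (fun j => ¬ (j / d + L + 1 ≤ o) ∧
        ¬ (o ≤ j / d + 1)), g j ≤ l * lam := by
      refine le_trans (hwm2 o x (Rk k) hR1 hR2 _ ?_) hwmx
      intro j hj
      rw [Finset.mem_filter, Finset.mem_range] at hj
      rw [Finset.mem_filter, Finset.mem_range]
      refine ⟨hj.1.trans hk, ?_, ?_⟩
      · omega
      · omega
    have hsplit : ∑ j ∈ Finset.range k, g j =
        ∑ j ∈ (Finset.range k).filter (fun j => j / d + L + 1 ≤ o), g j +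
        (∑ j ∈ (Finset.range k).filter (fun j => ¬ (j / d + L + 1 ≤ o) ∧
          o ≤ j / d + 1), g j +
        ∑ j ∈ (Finset.range k).filter (fun j => ¬ (j / d + L + 1 ≤ o) ∧
          ¬ (o ≤ j / d + 1)), g j) := by
      rw [← Finset.sum_filter_add_sum_filter_not (Finset.range k)
        (fun j => j / d + L + 1 ≤ o) g]
      congr 1
      rw [← Finset.sum_filter_add_sum_filter_not ((Finset.range k).filter
        (fun j => ¬ (j / d + L + 1 ≤ o))) (fun j => o ≤ j / d + 1) g, Finset.filter_filter,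
        Finset.filter_filter]
    have hfinal : lam + (lam * 100 + (l * lam + l * lam)) ≤
        ENNReal.ofReal ((104 + 2 * Cn + 3 * Cm) * Real.log d) * lam := by
      rw [ENNReal.ofReal_mul (by linarith), ← hldef]
      have g1 : lam ≤ l * lam := by
        calc lam = 1 * lam := (one_mul _).symm
          _ ≤ l * lam := mul_le_mul_left hl1 _
      calc lam + (lam * 100 + (l * lam + l * lam))
          ≤ l * lam + ((l * lam) * 100 + (l * lam + l * lam)) := by gcongr
        _ = 103 * (l * lam) := by ring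
        _ ≤ ENNReal.ofReal (104 + 2 * Cn + 3 * Cm) * (l * lam) := by
            refine mul_le_mul_left ?_ _
            have : (103 : ENNReal) = ENNReal.ofReal 103 := by norm_num
            rw [this]
            exact ENNReal.ofReal_le_ofReal (by linarith)
        _ = ENNReal.ofReal (104 + 2 * Cn + 3 * Cm) * l * lam := by ring
    refine le_trans ?_ hfinal
    have hsum : ∑ j ∈ Finset.range k, g j ≤ lam * 100 + (l * lam + l * lam) := by
      rw [hsplit]
      exact add_le_add hfar (add_le_add hnear hmidd)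
    exact add_le_add_right hsum _
  calc lam * volume {x : Eu d | ∃ k, k < K ∧
      ENNReal.ofReal ((104 + 2 * Cn + 3 * Cm) * Real.log d) * lam <
      ∫⁻ y, f y * bs d (R * (qd d)⁻¹ ^ k) (x - y)} ≤ lam * volume (D ∪ (Bn ∪ Bm)) := by
        gcongr
    _ ≤ lam * (volume D + (volume Bn + volume Bm)) := by
        gcongr
        exact (measure_union_le _ _).trans (add_le_add_right (measure_union_le _ _) _)
    _ = lam * volume D + (lam * volume Bn + lam * volume Bm) := by ring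
    _ ≤ (∫⁻ y, f y) + (ENNReal.ofReal (2 * Cn) * (∫⁻ y, f y) +
        ENNReal.ofReal (3 * Cm) * ∫⁻ y, f y) := add_le_add hD (add_le_add hBnle hBmle)
    _ = (1 + ENNReal.ofReal (2 * Cn) + ENNReal.ofReal (3 * Cm)) * ∫⁻ y, f y := by ring
    _ ≤ ENNReal.ofReal (104 + 2 * Cn + 3 * Cm) * ∫⁻ y, f y := by
        refine mul_le_mul_left ?_ _
        have h1 : (1 : ENNReal) = ENNReal.ofReal 1 := by norm_num
        rw [h1, ← ENNReal.ofReal_add (by norm_num) (by linarith),
          ← ENNReal.ofReal_add (by linarith) (by linarith)]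
        exact ENNReal.ofReal_le_ofReal (by linarith)

end FM954
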