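import Mathlib
import Pool.Agent.Helper954.FM.Base
import Pool.Agent.Helper954.FM.DN

set_option autoImplicit false
open MeasureTheory Set Metric
open scoped ENNReal

namespace FM954

/-- shell average -/
noncomputable def Av (n : ℕ) (F : Eu n → ℝ≥0∞) (s : ℝ) (x : Eu n) : ℝ≥0∞ :=
  ∫⁻ y, F y * bs n s (x - y)

theorem shell_neg {n : ℕ} (s : ℝ) (y : Eu n) : -y ∈ shell n s ↔ y ∈ shell n s := by
  simp [shell]

theorem vol_ball_ne_zero {n : ℕ} {s : ℝ} (hs : 0 < s) : volume (ball (0 : Eu n) s) ≠ 0 :=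
  (measure_ball_pos _ _ hs).ne'

theorem vol_ball_ne_top {n : ℕ} {s : ℝ} : volume (ball (0 : Eu n) s) ≠ ⊤ :=
  measure_ball_lt_top.ne

theorem vol_shell_ne_zero {n : ℕ} (hn : 1 ≤ n) {s : ℝ} (hs : 0 < s) : volume (shell n s) ≠ 0 := by
  rw [volume_shell n hn s hs]
  exact (ENNReal.div_pos (vol_ball_ne_zero hs) (by norm_num)).ne'

theorem vol_shell_ne_top {n : ℕ} (hn : 1 ≤ n) {s : ℝ} (hs : 0 < s) : volume (shell n s) ≠ ⊤ := by
  rw [volume_shell n hn s hs]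
  exact ENNReal.div_ne_top vol_ball_ne_top (by norm_num)

theorem lint_shell {n : ℕ} (hn : 1 ≤ n) (F : Eu n → ℝ≥0∞) (hF : Measurable F) {s : ℝ} (hs : 0 < s)
    (x : Eu n) : ∫⁻ y in shell n s, F (x + y) = volume (shell n s) * Av n F s x := by
  have hm := measurableSet_shell n s
  have h1 : Av n F s x = (volume (shell n s))⁻¹ * ∫⁻ y in shell n s, F (x + y) := by
    unfold Av
    have hm2 : Measurable ((shell n s).indicator fun y => F (x + y)) :=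
      (hF.comp (measurable_const_add x)).indicator hm
    rw [← lintegral_add_left_eq_self _ x, ← lintegral_indicator hm, ← lintegral_const_mul _ hm2]
    congr 1
    funext y
    have h2 : x - (x + y) = -y := by abel
    unfold bs
    rw [h2]
    by_cases hy : y ∈ shell n s
    · rw [Set.indicator_of_mem ((shell_neg s y).2 hy), Set.indicator_of_mem hy, mul_comm]
    · rw [Set.indicator_of_notMem (fun h => hy ((shell_neg s y).1 h)),
        Set.indicator_of_notMem hy, mul_zero, mul_zero]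
  rw [h1, ← mul_assoc, ENNReal.mul_inv_cancel (vol_shell_ne_zero hn hs) (vol_shell_ne_top hn hs),
    one_mul]

theorem vol_shell_scale {n : ℕ} (hn : 1 ≤ n) {ρ : ℝ} (hρ : 0 < ρ) (i : ℕ) :
    volume (shell n (qd n ^ i * ρ)) =
      ENNReal.ofReal ((1 / 2) ^ (i + 1)) * volume (ball (0 : Eu n) ρ) := by
  have hq := qd_pos n
  have : Nonempty (Fin n) := ⟨⟨0, by omega⟩⟩
  have : Nontrivial (Eu n) := inferInstance
  have h1 : 0 < qd n ^ i * ρ := by positivity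
  rw [volume_shell n hn _ h1, Measure.addHaar_ball _ _ h1.le, Measure.addHaar_ball _ _ hρ.le,
    finrank_euclideanSpace_fin]
  have h2 : (qd n ^ i * ρ) ^ n = (1 / 2) ^ i * ρ ^ n := by
    rw [mul_pow, ← pow_mul, mul_comm i n, pow_mul, qd_pow n hn]
  rw [h2, ENNReal.ofReal_mul (by positivity), pow_succ, ENNReal.ofReal_mul (by positivity),
    div_eq_mul_inv]
  have h3 : ENNReal.ofReal (1 / 2) = (2 : ℝ≥0∞)⁻¹ := by
    rw [one_div, ENNReal.ofReal_inv_of_pos (by norm_num)]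
    norm_num
  rw [h3]
  ring

theorem cover {n : ℕ} (hn : 1 ≤ n) {ρ : ℝ} (hρ : 0 < ρ) :
    ball (0 : Eu n) ρ ⊆ (⋃ i : ℕ, shell n (qd n ^ i * ρ)) ∪
      ({0} ∪ ⋃ i : ℕ, sphere (0 : Eu n) (qd n ^ i * ρ)) := by
  intro y hy
  rw [mem_ball_zero_iff] at hy
  by_cases h0 : y = 0
  · exact Or.inr (Or.inl h0)
  have hy0 : 0 < ‖y‖ := norm_pos_iff.2 h0
  have hex : ∃ m : ℕ, qd n ^ m * ρ < ‖y‖ := by
    obtain ⟨m, hm⟩ := exists_pow_lt_of_lt_one (div_pos hy0 hρ) (qd_lt_one n hn)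
    exact ⟨m, (lt_div_iff₀ hρ).1 hm⟩
  classical
  obtain ⟨hm1, hm2⟩ : qd n ^ (Nat.find hex) * ρ < ‖y‖ ∧
      ∀ m < Nat.find hex, ¬ (qd n ^ m * ρ < ‖y‖) :=
    ⟨Nat.find_spec hex, fun m hm => Nat.find_min hex hm⟩
  rcases hk : Nat.find hex with _ | i
  · rw [hk] at hm1
    simp at hm1
    linarith
  · rw [hk] at hm1 hm2
    have h3 := not_lt.1 (hm2 i (Nat.lt_succ_self i))
    rcases h3.lt_or_eq with h4 | h4
    · left
      refine Set.mem_iUnion.2 ⟨i, ?_, h4⟩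
      rw [← mul_assoc, ← pow_succ']
      exact hm1
    · right
      right
      exact Set.mem_iUnion.2 ⟨i, mem_sphere_zero_iff_norm.2 h4⟩

theorem null {n : ℕ} (hn : 1 ≤ n) (ρ : ℝ) :
    volume (({0} : Set (Eu n)) ∪ ⋃ i : ℕ, sphere (0 : Eu n) (qd n ^ i * ρ)) = 0 := by
  have : Nonempty (Fin n) := ⟨⟨0, by omega⟩⟩
  have : Nontrivial (Eu n) := inferInstance
  rw [measure_union_null_iff]
  constructor
  · exact measure_singleton _
  · rw [measure_iUnion_null_iff]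
    intro i
    exact Measure.addHaar_sphere _ _ _

theorem avg_le {n : ℕ} (hn : 1 ≤ n) (F : Eu n → ℝ≥0∞) (hF : Measurable F) {ρ : ℝ} (hρ : 0 < ρ)
    (x : Eu n) : (volume (ball (0 : Eu n) ρ))⁻¹ * ∫⁻ y in ball (0 : Eu n) ρ, F (x + y) ≤
      ∑' i : ℕ, ENNReal.ofReal ((1 / 2) ^ (i + 1)) * Av n F (qd n ^ i * ρ) x := by
  have hq := qd_pos n
  have h1 : ∫⁻ y in ball (0 : Eu n) ρ, F (x + y) ≤
      ∑' i : ℕ, ∫⁻ y in shell n (qd n ^ i * ρ), F (x + y) := by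
    calc ∫⁻ y in ball (0 : Eu n) ρ, F (x + y) ≤
        ∫⁻ y in (⋃ i : ℕ, shell n (qd n ^ i * ρ)) ∪
          ({0} ∪ ⋃ i : ℕ, sphere (0 : Eu n) (qd n ^ i * ρ)), F (x + y) :=
          lintegral_mono_set (cover hn hρ)
      _ ≤ (∫⁻ y in ⋃ i : ℕ, shell n (qd n ^ i * ρ), F (x + y)) +
          ∫⁻ y in ({0} ∪ ⋃ i : ℕ, sphere (0 : Eu n) (qd n ^ i * ρ)), F (x + y) :=
          lintegral_union_le _ _ _
      _ = ∫⁻ y in ⋃ i : ℕ, shell n (qd n ^ i * ρ), F (x + y) := by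
          rw [setLIntegral_measure_zero _ _ (null hn ρ), add_zero]
      _ ≤ ∑' i : ℕ, ∫⁻ y in shell n (qd n ^ i * ρ), F (x + y) := lintegral_iUnion_le _ _
  calc (volume (ball (0 : Eu n) ρ))⁻¹ * ∫⁻ y in ball (0 : Eu n) ρ, F (x + y) ≤
      (volume (ball (0 : Eu n) ρ))⁻¹ * ∑' i : ℕ, ∫⁻ y in shell n (qd n ^ i * ρ), F (x + y) :=
        mul_le_mul_right h1 _
    _ = ∑' i : ℕ, ENNReal.ofReal ((1 / 2) ^ (i + 1)) * Av n F (qd n ^ i * ρ) x := by
        rw [← ENNReal.tsum_mul_left]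
        congr 1
        funext i
        rw [lint_shell hn F hF (by positivity), vol_shell_scale hn hρ, ← mul_assoc,
          mul_comm (ENNReal.ofReal _), ← mul_assoc, ENNReal.inv_mul_cancel (vol_ball_ne_zero hρ)
          vol_ball_ne_top, one_mul]

theorem exists_shell2 {n : ℕ} (hn : 1 ≤ n) (F : Eu n → ℝ≥0∞) (hF : Measurable F) {ρ : ℝ}
    (hρ : 0 < ρ) (x : Eu n) {t : ℝ}
    (h : ENNReal.ofReal t <
      (volume (ball (0 : Eu n) ρ))⁻¹ * ∫⁻ y in ball (0 : Eu n) ρ, F (x + y)) :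
    ∃ i : ℕ, ENNReal.ofReal t < Av n F (qd n ^ i * ρ) x := by
  by_contra hc
  push Not at hc
  have h1 := h.trans_le (avg_le hn F hF hρ x)
  have h2 : ∑' i : ℕ, ENNReal.ofReal ((1 / 2) ^ (i + 1)) * Av n F (qd n ^ i * ρ) x ≤
      ∑' i : ℕ, ENNReal.ofReal ((1 / 2) ^ (i + 1)) * ENNReal.ofReal t :=
    ENNReal.tsum_le_tsum fun i => mul_le_mul_right (hc i) _
  have h3 : ∑' i : ℕ, ENNReal.ofReal ((1 / 2) ^ (i + 1)) * ENNReal.ofReal t =
      ENNReal.ofReal t := by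
    have h4 : ∑' i : ℕ, ENNReal.ofReal ((1 / 2) ^ (i + 1)) = 1 := by
      have h5 : ∀ i : ℕ, ((1:ℝ) / 2) ^ (i + 1) = 1 / 2 * (1 / 2) ^ i := fun i => by
        rw [pow_succ]
        ring
      simp only [h5]
      rw [← ENNReal.ofReal_tsum_of_nonneg (fun i => by positivity)
        ((summable_geometric_of_lt_one (by norm_num) (by norm_num)).mul_left _), tsum_mul_left,
        tsum_geometric_of_lt_one (by norm_num) (by norm_num)]
      norm_num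
    rw [ENNReal.tsum_mul_right, h4, one_mul]
  rw [h3] at h2
  exact absurd (h1.trans_le h2) (lt_irrefl _)

theorem weak_sup2 {n : ℕ} (hn : 2 ≤ n) {C : ℝ} (hC : 0 < C) (F : Eu n → ℝ≥0∞)
    (hcore : ∀ R : ℝ, 0 < R → ∀ K : ℕ, ∀ lam : ENNReal, lam ≠ 0 → lam ≠ ⊤ →
      lam * volume {x : Eu n | ∃ k, k < K ∧ ENNReal.ofReal (C * Real.log n) * lam <
        Av n F (R * (qd n)⁻¹ ^ k) x} ≤
        ENNReal.ofReal C * ∫⁻ y, F y) {a : ℝ} (ha : 0 < a) :
    volume {x : Eu n | ∃ m : ℤ, ENNReal.ofReal a < Av n F ((qd n)⁻¹ ^ m) x} ≤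
      ENNReal.ofReal (C ^ 2 * Real.log n / a) * ∫⁻ y, F y := by
  have hq := qd_pos n
  have hQ : 0 < (qd n)⁻¹ := inv_pos.mpr hq
  have hlog : 0 < Real.log n := Real.log_pos (by exact_mod_cast hn)
  generalize (qd n)⁻¹ = Q at hcore hQ ⊢
  set T : ℕ → Set (Eu n) := fun M => {x : Eu n | ∃ k : ℕ, k < 2 * M ∧
    ENNReal.ofReal a < Av n F ((Q ^ (-(M : ℤ))) * Q ^ k) x} with hT
  have hmono : Monotone T := by
    intro M M' hMM' x hx
    obtain ⟨k, hk, h1⟩ := hx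
    refine ⟨k + (M' - M), by omega, ?_⟩
    have h2 : Q ^ (-(M' : ℤ)) * Q ^ (k + (M' - M)) = Q ^ (-(M : ℤ)) * Q ^ k := by
      rw [← zpow_natCast, ← zpow_natCast, ← zpow_add₀ hQ.ne', ← zpow_add₀ hQ.ne']
      congr 1
      push_cast [Nat.cast_sub hMM']
      ring
    rw [h2]
    exact h1
  have hsub : {x : Eu n | ∃ m : ℤ, ENNReal.ofReal a < Av n F (Q ^ m) x} ⊆ ⋃ M, T M := by
    rintro x ⟨m, hm⟩
    refine Set.mem_iUnion.2 ⟨m.natAbs + 1, (m + (m.natAbs + 1 : ℕ)).toNat, by omega, ?_⟩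
    have h2 : Q ^ (-((m.natAbs + 1 : ℕ) : ℤ)) * Q ^ (m + (m.natAbs + 1 : ℕ)).toNat =
        Q ^ m := by
      rw [← zpow_natCast Q (m + (m.natAbs + 1 : ℕ)).toNat, ← zpow_add₀ hQ.ne']
      congr 1
      omega
    rw [h2]
    exact hm
  refine (measure_mono hsub).trans ?_
  rw [hmono.measure_iUnion]
  apply iSup_le
  intro M
  have hpos : 0 < a / (C * Real.log n) := div_pos ha (mul_pos hC hlog)
  have hl0 : ENNReal.ofReal (a / (C * Real.log n)) ≠ 0 := (ENNReal.ofReal_pos.2 hpos).ne'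
  have h1 := hcore (Q ^ (-(M : ℤ))) (by positivity) (2 * M) (ENNReal.ofReal (a / (C * Real.log n)))
    hl0 ENNReal.ofReal_ne_top
  have h2 : ENNReal.ofReal (C * Real.log n) * ENNReal.ofReal (a / (C * Real.log n)) =
      ENNReal.ofReal a := by
    rw [← ENNReal.ofReal_mul (mul_pos hC hlog).le]
    congr 1
    field_simp
  rw [h2] at h1
  have h3 : volume (T M) ≤ (ENNReal.ofReal (a / (C * Real.log n)))⁻¹ *
      (ENNReal.ofReal C * ∫⁻ y, F y) := by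
    calc volume (T M) = (ENNReal.ofReal (a / (C * Real.log n)))⁻¹ *
          (ENNReal.ofReal (a / (C * Real.log n)) * volume (T M)) := by
          rw [← mul_assoc, ENNReal.inv_mul_cancel hl0 ENNReal.ofReal_ne_top, one_mul]
      _ ≤ _ := mul_le_mul_right h1 _
  refine h3.trans_eq ?_
  rw [← mul_assoc, ← ENNReal.ofReal_inv_of_pos hpos, ← ENNReal.ofReal_mul (by positivity)]
  congr 2
  field_simp

theorem grow {n : ℕ} (hn : 1 ≤ n) (F : Eu n → ℝ≥0∞) {ρ : ℝ} (hρ : 0 < ρ) (x : Eu n) {s : ℝ}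
    (h : ENNReal.ofReal s <
      (volume (ball (0 : Eu n) ρ))⁻¹ * ∫⁻ y in ball (0 : Eu n) ρ, F (x + y)) :
    ∃ k : ℤ, ENNReal.ofReal (s / 2) < (volume (ball (0 : Eu n) ((qd n)⁻¹ ^ k)))⁻¹ *
      ∫⁻ y in ball (0 : Eu n) ((qd n)⁻¹ ^ k), F (x + y) := by
  have hq := qd_pos n
  have hq1 := qd_lt_one n hn
  have hQ : 0 < (qd n)⁻¹ := inv_pos.mpr hq
  have hQ1 : 1 < (qd n)⁻¹ := (one_lt_inv₀ hq).mpr hq1
  have hQn : ((qd n)⁻¹) ^ n = 2 := by
    rw [inv_pow, qd_pow n hn]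
    norm_num
  obtain ⟨k, hk1, hk2⟩ := exists_mem_Ico_zpow hρ hQ1
  refine ⟨k + 1, ?_⟩
  have : Nonempty (Fin n) := ⟨⟨0, by omega⟩⟩
  have : Nontrivial (Eu n) := inferInstance
  generalize (qd n)⁻¹ = Q at hQ hQ1 hQn hk1 hk2 ⊢
  have hR : 0 < Q ^ (k + 1) := by positivity
  have hvol : volume (ball (0 : Eu n) (Q ^ (k + 1))) ≤ 2 * volume (ball (0 : Eu n) ρ) := by
    rw [Measure.addHaar_ball _ _ hR.le, Measure.addHaar_ball _ _ hρ.le,
      finrank_euclideanSpace_fin, ← mul_assoc]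
    have h2 : (Q ^ (k + 1)) ^ n ≤ 2 * ρ ^ n := by
      rw [zpow_add₀ hQ.ne', zpow_one, mul_pow, hQn, mul_comm]
      exact mul_le_mul_of_nonneg_left (pow_le_pow_left₀ (by positivity) hk1 n) (by norm_num)
    have h3 : ENNReal.ofReal ((Q ^ (k + 1)) ^ n) ≤ 2 * ENNReal.ofReal (ρ ^ n) := by
      refine (ENNReal.ofReal_le_ofReal h2).trans_eq ?_
      rw [ENNReal.ofReal_mul (by norm_num)]
      norm_num
    gcongr
  have hint : ∫⁻ y in ball (0 : Eu n) ρ, F (x + y) ≤ ∫⁻ y in ball (0 : Eu n) (Q ^ (k + 1)), F (x + y) :=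
    lintegral_mono_set (ball_subset_ball hk2.le)
  calc ENNReal.ofReal (s / 2) = 2⁻¹ * ENNReal.ofReal s := by
        rw [div_eq_mul_inv, mul_comm, ENNReal.ofReal_mul (by norm_num),
          ENNReal.ofReal_inv_of_pos (by norm_num)]
        norm_num
    _ < 2⁻¹ * ((volume (ball (0 : Eu n) ρ))⁻¹ * ∫⁻ y in ball (0 : Eu n) ρ, F (x + y)) :=
        ENNReal.mul_lt_mul_right (by norm_num) (by norm_num) h
    _ = (2 * volume (ball (0 : Eu n) ρ))⁻¹ * ∫⁻ y in ball (0 : Eu n) ρ, F (x + y) := by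
        rw [ENNReal.mul_inv (Or.inl (by norm_num)) (Or.inl (by norm_num)), mul_assoc]
    _ ≤ (volume (ball (0 : Eu n) (Q ^ (k + 1))))⁻¹ *
        ∫⁻ y in ball (0 : Eu n) (Q ^ (k + 1)), F (x + y) := by
        gcongr

theorem ball_shift {n : ℕ} (F : Eu n → ℝ≥0∞) (x : Eu n) (ρ : ℝ) :
    (volume (ball x ρ))⁻¹ * ∫⁻ y in ball x ρ, F y =
      (volume (ball (0 : Eu n) ρ))⁻¹ * ∫⁻ y in ball (0 : Eu n) ρ, F (x + y) := by
  rw [Measure.addHaar_ball_center]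
  congr 1
  rw [← lintegral_indicator measurableSet_ball, ← lintegral_indicator measurableSet_ball,
    ← lintegral_add_left_eq_self _ x]
  congr 1
  funext y
  by_cases hy : y ∈ ball (0 : Eu n) ρ
  · rw [Set.indicator_of_mem hy, Set.indicator_of_mem]
    rw [mem_ball_zero_iff] at hy
    rwa [mem_ball, dist_eq_norm, add_sub_cancel_left]
  · rw [Set.indicator_of_notMem hy, Set.indicator_of_notMem]
    intro h
    apply hy
    rw [mem_ball, dist_eq_norm, add_sub_cancel_left] at h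
    rwa [mem_ball_zero_iff]

theorem large2 {n : ℕ} (hn : 32 ≤ n) {C : ℝ} (hC : 0 < C) (F : Eu n → ℝ≥0∞) (hF : Measurable F)
    (hcore : ∀ R : ℝ, 0 < R → ∀ K : ℕ, ∀ lam : ENNReal, lam ≠ 0 → lam ≠ ⊤ →
      lam * volume {x : Eu n | ∃ k, k < K ∧ ENNReal.ofReal (C * Real.log n) * lam <
        Av n F (R * (qd n)⁻¹ ^ k) x} ≤
        ENNReal.ofReal C * ∫⁻ y, F y) {s : ℝ} (hs : 0 < s) :
    volume {x : Eu n | ENNReal.ofReal s <
      ⨆ r : ℝ, ⨆ (_ : 0 < r), (volume (ball x r))⁻¹ * ∫⁻ y in ball x r, F y} ≤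
      ENNReal.ofReal (2 * C ^ 2 * Real.log n / s) * ∫⁻ y, F y := by
  have hq := qd_pos n
  have hsub : {x : Eu n | ENNReal.ofReal s <
      ⨆ r : ℝ, ⨆ (_ : 0 < r), (volume (ball x r))⁻¹ * ∫⁻ y in ball x r, F y} ⊆
      {x : Eu n | ∃ m : ℤ, ENNReal.ofReal (s / 2) < Av n F ((qd n)⁻¹ ^ m) x} := by
    intro x hx
    have hx' : ENNReal.ofReal s <
      ⨆ r : ℝ, ⨆ (_ : 0 < r), (volume (ball x r))⁻¹ * ∫⁻ y in ball x r, F y := hx
    obtain ⟨ρ, hρ'⟩ := lt_iSup_iff.1 hx'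
    obtain ⟨hρ, h1⟩ := lt_iSup_iff.1 hρ'
    rw [ball_shift] at h1
    obtain ⟨k, hk⟩ := grow (by omega) F hρ x h1
    obtain ⟨i, hi⟩ := exists_shell2 (by omega) F hF (by positivity) x hk
    refine ⟨k - i, ?_⟩
    have h2 : (qd n)⁻¹ ^ (k - i : ℤ) = qd n ^ i * (qd n)⁻¹ ^ k := by
      rw [zpow_sub₀ (inv_ne_zero hq.ne'), zpow_natCast, inv_pow, div_inv_eq_mul, mul_comm]
    rw [h2]
    exact hi
  refine (measure_mono hsub).trans ((weak_sup2 (by omega) hC F hcore (by positivity)).trans_eq ?_)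
  congr 2
  field_simp

theorem small2 {n : ℕ} (hn : 2 ≤ n) (hn2 : n < 32) (F : Eu n → ℝ≥0∞)
    (hFi : ∫⁻ x, F x ≠ ∞) {s : ℝ} (hs : 0 < s) :
    volume {x : Eu n | ENNReal.ofReal s <
      ⨆ r : ℝ, ⨆ (_ : 0 < r), (volume (ball x r))⁻¹ * ∫⁻ y in ball x r, F y} ≤
      ENNReal.ofReal (4 ^ 32 / Real.log 2 * Real.log n / s) * ∫⁻ y, F y := by
  have hs0 : ENNReal.ofReal s ≠ 0 := (ENNReal.ofReal_pos.2 hs).ne'
  have h := weak_vitali n (by omega) F hFi (ENNReal.ofReal s) hs0 ENNReal.ofReal_ne_top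
    {x : Eu n | ENNReal.ofReal s <
      ⨆ r : ℝ, ⨆ (_ : 0 < r), (volume (ball x r))⁻¹ * ∫⁻ y in ball x r, F y} (by
    intro x hx
    have hx' : ENNReal.ofReal s <
      ⨆ r : ℝ, ⨆ (_ : 0 < r), (volume (ball x r))⁻¹ * ∫⁻ y in ball x r, F y := hx
    obtain ⟨ρ, hρ'⟩ := lt_iSup_iff.1 hx'
    obtain ⟨hρ, h1⟩ := lt_iSup_iff.1 hρ'
    refine ⟨ρ, hρ, ?_⟩
    have hv0 : volume (ball x ρ) ≠ 0 := (measure_ball_pos _ _ hρ).ne'
    have hvt : volume (ball x ρ) ≠ ⊤ := measure_ball_lt_top.ne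
    calc ENNReal.ofReal s * volume (ball x ρ) ≤
        ((volume (ball x ρ))⁻¹ * ∫⁻ y in ball x ρ, F y) * volume (ball x ρ) := by
          gcongr
      _ = ∫⁻ y in ball x ρ, F y := by
          rw [mul_comm, ← mul_assoc, ENNReal.mul_inv_cancel hv0 hvt, one_mul])
  refine h.trans ?_
  have hlog2 : 0 < Real.log 2 := Real.log_pos (by norm_num)
  have hlog : Real.log 2 ≤ Real.log n := Real.log_le_log (by norm_num) (by exact_mod_cast hn)
  have h4 : (4 : ℝ≥0∞) ^ n ≤ ENNReal.ofReal (4 ^ 32) := by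
    have h5 : (4 : ℝ≥0∞) ^ n ≤ 4 ^ 32 := pow_le_pow_right₀ (by norm_num) (by omega)
    refine h5.trans_eq ?_
    rw [ENNReal.ofReal_pow (by norm_num)]
    norm_num
  have h6 : ENNReal.ofReal (4 ^ 32) * (ENNReal.ofReal s)⁻¹ ≤
      ENNReal.ofReal (4 ^ 32 / Real.log 2 * Real.log n / s) := by
    rw [← ENNReal.ofReal_inv_of_pos hs, ← ENNReal.ofReal_mul (by positivity)]
    apply ENNReal.ofReal_le_ofReal
    rw [← div_eq_mul_inv]
    gcongr
    rw [div_mul_eq_mul_div, le_div_iff₀ hlog2]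
    gcongr
  calc 4 ^ n * (∫⁻ x, F x) / ENNReal.ofReal s = 4 ^ n * (ENNReal.ofReal s)⁻¹ * ∫⁻ x, F x := by
        rw [div_eq_mul_inv]
        ring
    _ ≤ ENNReal.ofReal (4 ^ 32) * (ENNReal.ofReal s)⁻¹ * ∫⁻ x, F x := by gcongr
    _ ≤ _ := by gcongr

theorem final : ∃ C : ℝ, 0 < C ∧ ∀ n : ℕ, 2 ≤ n →
      ∀ f : EuclideanSpace ℝ (Fin n) → ℝ, Integrable f →
        ∀ s : ℝ, 0 < s →
          volume {x : EuclideanSpace ℝ (Fin n) |
              ENNReal.ofReal s <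
                ⨆ r : ℝ, ⨆ (_ : 0 < r),
                  (volume (Metric.ball x r))⁻¹ * ∫⁻ y in Metric.ball x r, ‖f y‖ₑ}
            ≤ ENNReal.ofReal (C * Real.log n / s) * ∫⁻ y, ‖f y‖ₑ := by
  obtain ⟨C, hC, hcore⟩ := dense
  have hlog2 : 0 < Real.log 2 := Real.log_pos (by norm_num)
  refine ⟨2 * C ^ 2 + 4 ^ 32 / Real.log 2, by positivity, ?_⟩
  intro n hn f hf s hs
  have hlog : 0 < Real.log n := Real.log_pos (by exact_mod_cast hn)
  rcases lt_or_ge n 32 with h32 | h32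
  · refine (small2 hn h32 (fun y => ‖f y‖ₑ) hf.2.ne hs).trans ?_
    gcongr
    have h2 : 0 ≤ 2 * C ^ 2 := by positivity
    linarith
  · set g : Eu n → ℝ := hf.1.mk f with hg
    have hgm : StronglyMeasurable g := hf.1.stronglyMeasurable_mk
    have hfg : f =ᵐ[volume] g := hf.1.ae_eq_mk
    set F : Eu n → ℝ≥0∞ := fun y => ‖g y‖ₑ with hF
    have hFm : Measurable F := hgm.measurable.enorm
    have hFfin : ∀ y, F y ≠ ⊤ := fun y => enorm_ne_top
    have hFint : ∫⁻ y, F y = ∫⁻ y, ‖f y‖ₑ :=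
      lintegral_congr_ae (hfg.mono fun y hy => by simp only [hF, hy])
    have hFint' : ∫⁻ y, F y ≠ ⊤ := by
      rw [hFint]
      exact hf.2.ne
    have hloc : ∀ (x : Eu n) (ρ : ℝ), ∫⁻ y in ball x ρ, ‖f y‖ₑ = ∫⁻ y in ball x ρ, F y := by
      intro x ρ
      apply lintegral_congr_ae
      apply ae_restrict_of_ae
      filter_upwards [hfg] with y hy
      simp only [hF, hy]
    have h2 := large2 h32 hC F hFm
      (fun R hR K lam hl0 hl1 => hcore n h32 R hR K F hFm hFfin hFint' lam hl0 hl1) hs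
    simp only [hloc, ← hFint]
    refine h2.trans ?_
    gcongr
    have h3 : 0 < 4 ^ 32 / Real.log 2 := by positivity
    linarith

end FM954
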